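import Pool.Agent.Work.MP_6f78fb_lin.Interface

/-! # Block CANCEL: cancellation for representations of a finite group (helper47) -/

open scoped BigOperators TensorProduct
open Classical

noncomputable section

namespace Pool.RookLC.Lin

open Pool.RookLC

section homs

variable {R : Type} [Ring R] [Algebra ℂ R]
  (S : Type) [AddCommGroup S] [Module R S] [Module ℂ S] [IsScalarTower ℂ R S]
  {A : Type} [AddCommGroup A] [Module R A] [Module ℂ A] [IsScalarTower ℂ R A]
  {B : Type} [AddCommGroup B] [Module R B] [Module ℂ B] [IsScalarTower ℂ R B]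

theorem CANCEL_fin [FiniteDimensional ℂ S] [FiniteDimensional ℂ A] :
    FiniteDimensional ℂ (S →ₗ[R] A) :=
  FiniteDimensional.of_injective (LinearMap.restrictScalarsₗ ℂ R S A ℂ)
    (LinearMap.restrictScalars_injective ℂ)

/-- composition with an isomorphism -/
def CANCEL_congr (e : A ≃ₗ[R] B) : (S →ₗ[R] A) ≃ₗ[ℂ] (S →ₗ[R] B) where
  toFun f := e.toLinearMap ∘ₗ f
  invFun f := e.symm.toLinearMap ∘ₗ f
  map_add' f g := by ext x; simp
  map_smul' c f := by
    ext x
    simp only [LinearMap.comp_apply, LinearMap.smul_apply, RingHom.id_apply,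
      LinearEquiv.coe_coe]
    exact LinearMap.map_smul_of_tower e.toLinearMap c (f x)
  left_inv f := by ext x; simp
  right_inv f := by ext x; simp

theorem CANCEL_prod [FiniteDimensional ℂ S] [FiniteDimensional ℂ A] [FiniteDimensional ℂ B] :
    Module.finrank ℂ (S →ₗ[R] A × B) =
      Module.finrank ℂ (S →ₗ[R] A) + Module.finrank ℂ (S →ₗ[R] B) := by
  have := CANCEL_fin (R := R) S (A := A)
  have := CANCEL_fin (R := R) S (A := B)
  rw [← (LinearMap.prodEquiv (R := R) (M := S) (M₂ := A) (M₃ := B) ℂ).finrank_eq,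
    Module.finrank_prod]

theorem CANCEL_mono [FiniteDimensional ℂ S] [FiniteDimensional ℂ A] [FiniteDimensional ℂ B]
    (f : A →ₗ[R] B) (hf : Function.Injective f) :
    Module.finrank ℂ (S →ₗ[R] A) ≤ Module.finrank ℂ (S →ₗ[R] B) := by
  have := CANCEL_fin (R := R) S (A := B)
  let F : (S →ₗ[R] A) →ₗ[ℂ] (S →ₗ[R] B) :=
    { toFun := fun g => f ∘ₗ g
      map_add' := fun g h => by ext x; simp
      map_smul' := fun c g => by
        ext x
        simp only [LinearMap.comp_apply, LinearMap.smul_apply, RingHom.id_apply]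
        exact LinearMap.map_smul_of_tower f c (g x) }
  apply LinearMap.finrank_le_finrank_of_injective (f := F)
  intro g h hgh
  ext x
  apply hf
  exact LinearMap.congr_fun hgh x

end homs

theorem CANCEL_crit {R : Type} [Ring R] [Algebra ℂ R] [IsSemisimpleRing R] (n : ℕ) :
    ∀ (A : Type) [AddCommGroup A] [Module R A] [Module ℂ A] [IsScalarTower ℂ R A]
      [FiniteDimensional ℂ A]
      (B : Type) [AddCommGroup B] [Module R B] [Module ℂ B] [IsScalarTower ℂ R B]
      [FiniteDimensional ℂ B], Module.finrank ℂ A < n →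
      (∀ (S : Type) [AddCommGroup S] [Module R S] [Module ℂ S] [IsScalarTower ℂ R S]
        [FiniteDimensional ℂ S],
        Module.finrank ℂ (S →ₗ[R] A) ≤ Module.finrank ℂ (S →ₗ[R] B)) →
      ∃ f : A →ₗ[R] B, Function.Injective f := by
  induction n with
  | zero => intro A _ _ _ _ _ B _ _ _ _ _ h; omega
  | succ n ih =>
    intro A _ _ _ _ _ B _ _ _ _ _ hn h
    by_cases hA : Subsingleton A
    · exact ⟨0, Function.injective_of_subsingleton _⟩
    rw [not_subsingleton_iff_nontrivial] at hA
    have := CANCEL_fin (R := R) A (A := A)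
    have := CANCEL_fin (R := R) A (A := B)
    have h1 : 0 < Module.finrank ℂ (A →ₗ[R] A) := by
      have : Nontrivial (A →ₗ[R] A) := by
        obtain ⟨x, hx⟩ := exists_ne (0 : A)
        exact ⟨⟨LinearMap.id, 0, fun e => hx (by simpa using LinearMap.congr_fun e x)⟩⟩
      exact Module.finrank_pos
    have h2 := lt_of_lt_of_le h1 (h A)
    have : Nontrivial (A →ₗ[R] B) := Module.nontrivial_of_finrank_pos h2
    obtain ⟨f, hf⟩ := exists_ne (0 : A →ₗ[R] B)
    obtain ⟨C, hC⟩ := exists_isCompl (LinearMap.ker f)
    obtain ⟨D, hD⟩ := exists_isCompl (LinearMap.range f)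
    have : FiniteDimensional ℂ C :=
      FiniteDimensional.of_injective (C.subtype.restrictScalars ℂ) C.injective_subtype
    have : FiniteDimensional ℂ D :=
      FiniteDimensional.of_injective (D.subtype.restrictScalars ℂ) D.injective_subtype
    have : FiniteDimensional ℂ (LinearMap.ker f) :=
      FiniteDimensional.of_injective ((LinearMap.ker f).subtype.restrictScalars ℂ)
        (LinearMap.ker f).injective_subtype
    have : FiniteDimensional ℂ (LinearMap.range f) :=
      FiniteDimensional.of_injective ((LinearMap.range f).subtype.restrictScalars ℂ)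
        (LinearMap.range f).injective_subtype
    let e1 : (LinearMap.ker f × C) ≃ₗ[R] A := Submodule.prodEquivOfIsCompl _ _ hC
    let e2 : (LinearMap.range f × D) ≃ₗ[R] B := Submodule.prodEquivOfIsCompl _ _ hD
    let e3 : C ≃ₗ[R] LinearMap.range f := LinearMap.kerComplementEquivRange f hC.symm
    have h3 : Module.finrank ℂ (LinearMap.ker f) < n := by
      have h4 : Module.finrank ℂ A = Module.finrank ℂ (LinearMap.ker f) + Module.finrank ℂ C := by
        rw [← (e1.restrictScalars ℂ).finrank_eq, Module.finrank_prod]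
      have h5 : 0 < Module.finrank ℂ C := by
        have : Nontrivial C := by
          by_contra hc
          rw [not_nontrivial_iff_subsingleton] at hc
          apply hf
          ext x
          have h6 : (⟨f x, x, rfl⟩ : LinearMap.range f) = 0 := by
            apply e3.symm.injective
            exact Subsingleton.elim _ _
          simpa using congrArg Subtype.val h6
        exact Module.finrank_pos
      omega
    obtain ⟨g, hg⟩ := ih (LinearMap.ker f) D h3 (by
      intro S _ _ _ _ _
      have h7 := h S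
      have h8 : Module.finrank ℂ (S →ₗ[R] A) = Module.finrank ℂ (S →ₗ[R] LinearMap.ker f) +
          Module.finrank ℂ (S →ₗ[R] C) := by
        rw [← (CANCEL_congr S e1).finrank_eq, CANCEL_prod]
      have h9 : Module.finrank ℂ (S →ₗ[R] B) = Module.finrank ℂ (S →ₗ[R] LinearMap.range f) +
          Module.finrank ℂ (S →ₗ[R] D) := by
        rw [← (CANCEL_congr S e2).finrank_eq, CANCEL_prod]
      have h10 := (CANCEL_congr S e3).finrank_eq
      omega)
    refine ⟨e2.toLinearMap ∘ₗ (LinearMap.prod (e3.toLinearMap ∘ₗ LinearMap.snd R _ _)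
      (g ∘ₗ LinearMap.fst R _ _)) ∘ₗ e1.symm.toLinearMap, ?_⟩
    intro x y hxy
    have hh : ((e3 (e1.symm x).2, g (e1.symm x).1) : LinearMap.range f × D) =
        (e3 (e1.symm y).2, g (e1.symm y).1) := e2.injective hxy
    rw [Prod.mk.injEq] at hh
    apply e1.symm.injective
    exact Prod.ext (hg hh.2) (e3.injective hh.1)

set_option backward.isDefEq.respectTransparency false in
/-- equivariant maps of representations are linear maps over the group algebra -/
def CANCEL_lin {Γ V W : Type} [Group Γ] [AddCommGroup V] [Module ℂ V] [AddCommGroup W]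
    [Module ℂ W] (ρ : Representation ℂ Γ V) (σ : Representation ℂ Γ W) (f : V →ₗ[ℂ] W)
    (hf : ∀ g v, f (ρ g v) = σ g (f v)) : ρ.asModule →ₗ[MonoidAlgebra ℂ Γ] σ.asModule :=
  MonoidAlgebra.equivariantOfLinearOfComm (V := ρ.asModule) (W := σ.asModule) f (by
    intro g v
    rw [Representation.single_smul, Representation.single_smul, one_smul, one_smul]
    exact hf g v)

set_option backward.isDefEq.respectTransparency false in
theorem CANCEL_equi {Γ V W : Type} [Group Γ] [AddCommGroup V] [Module ℂ V] [AddCommGroup W]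
    [Module ℂ W] (ρ : Representation ℂ Γ V) (σ : Representation ℂ Γ W)
    (f : ρ.asModule →ₗ[MonoidAlgebra ℂ Γ] σ.asModule) (g : Γ) (v : V) :
    f (ρ g v : V) = (σ g (f v : W) : W) := by
  have h1 := f.map_smul (MonoidAlgebra.single g (1 : ℂ)) v
  rw [Representation.single_smul, Representation.single_smul, one_smul, one_smul] at h1
  exact h1

set_option backward.isDefEq.respectTransparency false in
/-- the product of two representations, as module -/
def CANCEL_pr {Γ V W : Type} [Group Γ] [AddCommGroup V] [Module ℂ V] [AddCommGroup W]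
    [Module ℂ W] (ρ : Representation ℂ Γ V) (σ : Representation ℂ Γ W) :
    (ρ.prod σ).asModule ≃ₗ[MonoidAlgebra ℂ Γ] (ρ.asModule × σ.asModule) :=
  LinearEquiv.ofBijective
    (MonoidAlgebra.equivariantOfLinearOfComm (V := (ρ.prod σ).asModule)
      (W := ρ.asModule × σ.asModule) (LinearMap.id : (V × W) →ₗ[ℂ] (V × W)) (by
      intro g v
      rw [Representation.single_smul, one_smul]
      have h1 : MonoidAlgebra.single g (1 : ℂ) • (show ρ.asModule from (v : V × W).1) =
          (ρ g (v : V × W).1 : V) := by
        rw [Representation.single_smul, one_smul]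
        rfl
      have h2 : MonoidAlgebra.single g (1 : ℂ) • (show σ.asModule from (v : V × W).2) =
          (σ g (v : V × W).2 : W) := by
        rw [Representation.single_smul, one_smul]
        rfl
      exact (Prod.ext h1 h2).symm)) Function.bijective_id

set_option backward.isDefEq.respectTransparency false in
theorem stmt_CANCEL : Stmt_CANCEL := by
  intro Γ Q P V K _ _ _ _ _ _ _ _ _ _ _ _ _ _ ρQ ρP ρV ρK ⟨F, hF, hFe⟩ ⟨J, hJ, hJe⟩
  have : NeZero (Nat.card Γ : ℂ) := ⟨by
    rw [Nat.card_eq_fintype_card]
    exact_mod_cast Fintype.card_ne_zero⟩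
  let F' := CANCEL_lin (ρQ.prod ρP) (ρV.prod ρK) F hFe
  let J' := CANCEL_lin ρK ρP J hJe
  obtain ⟨f, hf⟩ := CANCEL_crit (R := MonoidAlgebra ℂ Γ) (Module.finrank ℂ ρQ.asModule + 1)
    ρQ.asModule ρV.asModule (Nat.lt_succ_self _) (by
      intro S _ _ _ _ _
      have h1 := CANCEL_mono (R := MonoidAlgebra ℂ Γ) S F' hF
      rw [(CANCEL_congr S (CANCEL_pr ρQ ρP)).finrank_eq,
        (CANCEL_congr S (CANCEL_pr ρV ρK)).finrank_eq, CANCEL_prod, CANCEL_prod] at h1
      have h2 := CANCEL_mono (R := MonoidAlgebra ℂ Γ) S J' hJ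
      omega)
  exact ⟨f.restrictScalars ℂ, hf, fun g v => CANCEL_equi ρQ ρV f g v⟩

end Pool.RookLC.Lin
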