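import Pool.Agent.Work.MP_6f78fb_lin.Interface
import Pool.Agent.Work.MP_6f78fb_rk_helper70.ACT
import Pool.Agent.Work.MP_6f78fb_rk_helper83.RG
import Pool.Agent.Work.MP_6f78fb_rk_helper83.THIa
import Pool.Agent.Work.MP_6f78fb_rk_helper56.VSP

/-!
# Block CC: the map to `V_a ⊗ V_b` is equivariant and surjective
-/

open scoped BigOperators TensorProduct
open Classical

noncomputable section

namespace Pool.RookLC.Lin

open Pool.RookLC

theorem CC_mem {n m r d : ℕ} {α : Cf n m} (h : Um d α) :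
    Ideal.Quotient.mk (grI (UZ n m r)) (mon α) ∈ V n m r d := by
  refine ⟨mon α, ?_, rfl⟩
  rw [SetLike.mem_coe, MvPolynomial.mem_homogeneousSubmodule]
  have := helper83.mon_homog α
  rwa [h.2.2] at this

theorem CC_val {n m r d : ℕ} {α : Cf n m} (h : Um d α) :
    ((vv n m r d α : V n m r d) : RR n m r) = Ideal.Quotient.mk (grI (UZ n m r)) (mon α) := by
  unfold vv
  rw [dif_pos ⟨CC_mem h, h⟩]

theorem CC_zero {n m r d : ℕ} {α : Cf n m} (h : ¬ Um d α) : vv n m r d α = 0 := by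
  unfold vv
  rw [dif_neg (fun h' => h h'.2)]

theorem CC_Um {n m : ℕ} (g : G n m) (i : ℕ) (α : Cf n m) : Um i (actC g α) ↔ Um i α := by
  have h := (helper70.stmt_ACT n m).2.2.1 g α
  unfold Um
  rw [h.1, h.2.1, h.2.2]

theorem CC_act {n m r d : ℕ} (g : G n m) (α : Cf n m) :
    actV n m r d g (vv n m r d α) = vv n m r d (actC g α) := by
  by_cases h : Um d α
  · apply Subtype.ext
    rw [CC_val ((CC_Um g d α).2 h)]
    show actR n m r g ((vv n m r d α : V n m r d) : RR n m r) = _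
    rw [CC_val h]
    show Ideal.Quotient.mk _ (actP g (mon α)) = _
    rw [helper70.actP_mon]
  · rw [CC_zero h, CC_zero (fun h' => h ((CC_Um g d α).1 h')), map_zero]

/-- the equivalence of the action -/
def CC_eq {n m : ℕ} (g : G n m) : Pr n m ≃ Pr n m where
  toFun ω := (actC g ω.1, actC g ω.2)
  invFun ω := (actC g⁻¹ ω.1, actC g⁻¹ ω.2)
  left_inv ω := by
    simp only [helper70.actC_inv]
  right_inv ω := by
    simp only [helper70.actC_inv']

theorem CC_span {n m r d : ℕ} (v : V n m r d) : ∃ φ : Fn n m, (∀ α, φ α ≠ 0 → Um d α) ∧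
    ∑ α, φ α • vv n m r d α = v := by
  obtain ⟨v, f, hf, rfl⟩ := v
  rw [SetLike.mem_coe, MvPolynomial.mem_homogeneousSubmodule] at hf
  obtain ⟨φ, hφ, h⟩ := helper56.stmt_VSP helper83.stmt_RG n m r d f hf
  refine ⟨φ, hφ, ?_⟩
  apply Subtype.ext
  have h1 : Ideal.Quotient.mk (grI (UZ n m r)) f =
      Ideal.Quotient.mk (grI (UZ n m r)) (Th n m φ) :=
    (Ideal.Quotient.mk_eq_mk_iff_sub_mem _ _).2 h
  show _ = Ideal.Quotient.mk (grI (UZ n m r)) f
  rw [h1]
  have h2 : Th n m φ = ∑ α, φ α • mon α := rfl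
  rw [h2, map_sum, Submodule.coe_sum]
  refine Finset.sum_congr rfl fun α _ => ?_
  by_cases h0 : φ α = 0
  · rw [h0, zero_smul, zero_smul, map_zero]
    rfl
  · rw [Submodule.coe_smul, CC_val (hφ α h0)]
    exact (map_smul (Ideal.Quotient.mkₐ ℂ (grI (UZ n m r))) (φ α) (mon α)).symm

theorem CC_tmul {n m r a b : ℕ} (φ ψ : Fn n m) :
    cc n m r a b (fun ω => φ ω.1 * ψ ω.2) =
      (∑ α, φ α • vv n m r a α) ⊗ₜ[ℂ] (∑ β, ψ β • vv n m r b β) := by
  show ∑ ω : Pr n m, (φ ω.1 * ψ ω.2) • (vv n m r a ω.1 ⊗ₜ[ℂ] vv n m r b ω.2) = _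
  rw [TensorProduct.sum_tmul, Fintype.sum_prod_type]
  refine Finset.sum_congr rfl fun α _ => ?_
  rw [TensorProduct.tmul_sum]
  refine Finset.sum_congr rfl fun β _ => ?_
  rw [TensorProduct.smul_tmul_smul]

theorem stmt_CC : Stmt_CC := by
  intro n m r a b
  refine ⟨fun g F => ?_, fun y => ?_⟩
  · show ∑ ω : Pr n m, F (actC g⁻¹ ω.1, actC g⁻¹ ω.2) • (vv n m r a ω.1 ⊗ₜ[ℂ] vv n m r b ω.2) =
      TensorProduct.map (actV n m r a g) (actV n m r b g)
        (∑ ω : Pr n m, F ω • (vv n m r a ω.1 ⊗ₜ[ℂ] vv n m r b ω.2))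
    rw [map_sum, ← Equiv.sum_comp (CC_eq g)]
    refine Finset.sum_congr rfl fun ω _ => ?_
    rw [map_smul, TensorProduct.map_tmul, CC_act, CC_act]
    show F (actC g⁻¹ (actC g ω.1), actC g⁻¹ (actC g ω.2)) • _ = _
    rw [helper70.actC_inv, helper70.actC_inv]
    rfl
  · induction y using TensorProduct.induction_on with
    | zero => exact ⟨0, fun ω h => absurd rfl h, map_zero _⟩
    | tmul v w =>
      obtain ⟨φ, hφ, rfl⟩ := CC_span v
      obtain ⟨ψ, hψ, rfl⟩ := CC_span w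
      refine ⟨fun ω => φ ω.1 * ψ ω.2, fun ω h => ?_, CC_tmul φ ψ⟩
      exact ⟨hφ _ (left_ne_zero_of_mul h), hψ _ (right_ne_zero_of_mul h)⟩
    | add x y hx hy =>
      obtain ⟨F, hF, rfl⟩ := hx
      obtain ⟨F', hF', rfl⟩ := hy
      refine ⟨F + F', fun ω h => ?_, map_add _ _ _⟩
      by_cases h1 : F ω = 0
      · refine hF' ω fun h2 => h ?_
        rw [Pi.add_apply, h1, h2, add_zero]
      · exact hF ω h1

end Pool.RookLC.Lin
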