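import Pool.Agent.Work.MP_6f78fb_lin.B_PIA

/-!
# MP_6f78fb_co, linear range: block CDA
-/

open Classical

noncomputable section

namespace Pool.RookLC.Lin

section CDA

variable {E K L : Type} {M q : ℕ} {g : GR E K L} {s : Fin M → E} {f : L → E} {I : Finset E}
  {θ : Equiv.Perm E} {k0 : K} [Fintype E] [Fintype K] [Fintype L]

theorem CDA_sum (hd : Dat M q g s f I θ) (φ : E → ℕ) :
    ∑ x, φ x = ∑ x ∈ VV g, φ x + (∑ l : Fin M, φ (s l) + (∑ l ∈ sinks g, φ (f l) +
      (∑ x ∈ I, φ x + ∑ x ∈ TT M g s f I, φ x))) := by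
  have hS : ∑ l : Fin M, φ (s l) = ∑ x ∈ Finset.univ.image s, φ x := by
    rw [Finset.sum_image]
    intro a _ b _ h
    exact hd.s_inj h
  have hF : ∑ l ∈ sinks g, φ (f l) = ∑ x ∈ (sinks g).image f, φ x := by
    rw [Finset.sum_image]
    intro a ha b hb h
    exact hd.f_inj a ha b hb h
  rw [hS, hF, ← Finset.sum_union, ← Finset.sum_union, ← Finset.sum_union, ← Finset.sum_union]
  · congr 1
    ext x
    simp only [Finset.mem_univ, Finset.mem_union, Finset.mem_image, true_and, true_iff]
    rcases kinds M g s f I x with h | h | ⟨l, hl, h⟩ | h | h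
    · exact Or.inl h
    · exact Or.inr (Or.inl h)
    · exact Or.inr (Or.inr (Or.inl ⟨l, hl, h⟩))
    · exact Or.inr (Or.inr (Or.inr (Or.inl h)))
    · exact Or.inr (Or.inr (Or.inr (Or.inr h)))
  · rw [Finset.disjoint_left]
    intro x hx hx'
    simp only [Finset.mem_union, Finset.mem_image, Finset.mem_univ, true_and] at hx'
    rcases hx' with ⟨l, rfl⟩ | ⟨l, hl, rfl⟩ | h | h
    · exact hd.s_V l hx
    · exact hd.f_V l hl hx
    · exact hd.I_V x h hx
    · exact (mem_TT.1 h).1 hx
  · rw [Finset.disjoint_left]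
    intro x hx hx'
    simp only [Finset.mem_union, Finset.mem_image, Finset.mem_univ, true_and] at hx hx'
    obtain ⟨l, rfl⟩ := hx
    rcases hx' with ⟨l', hl', h⟩ | h | h
    · exact hd.f_s l' hl' l h.symm
    · exact hd.I_s _ h l rfl
    · exact (mem_TT.1 h).2.1 l rfl
  · rw [Finset.disjoint_left]
    intro x hx hx'
    simp only [Finset.mem_union, Finset.mem_image] at hx hx'
    obtain ⟨l, hl, rfl⟩ := hx
    rcases hx' with h | h
    · exact hd.I_f _ h l hl rfl
    · exact (mem_TT.1 h).2.2.1 l hl rfl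
  · rw [Finset.disjoint_left]
    intro x hx hx'
    exact (mem_TT.1 hx').2.2.2 hx

theorem CDA_arcs {X Y : Type} [Fintype X] (h : PF X Y) :
    arcs h = ∑ x, if h x ≠ none then 1 else 0 := by
  unfold arcs
  rw [Finset.card_filter]

theorem CDA_arcsV (g : GR E K L) : arcsV g (VV g) =
    (∑ x ∈ VV g, if g (Sum.inl x) ≠ none then 1 else 0) +
      ∑ k : K, if g (Sum.inr k) ≠ none then 1 else 0 := by
  unfold arcsV
  rw [Finset.card_filter, Fintype.sum_sum_type]
  congr 1
  · rw [← Finset.sum_filter_add_sum_filter_not Finset.univ (fun x => x ∈ VV g)]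
    have h1 : ∑ x ∈ Finset.univ.filter (fun x => ¬ x ∈ VV g),
        (if g (Sum.inl x) ≠ none ∧ ∀ y, (Sum.inl x : E ⊕ K) = Sum.inl y → y ∈ VV g then 1 else 0)
        = 0 := by
      refine Finset.sum_eq_zero fun x hx => ?_
      rw [if_neg]
      rintro ⟨-, h⟩
      exact (Finset.mem_filter.1 hx).2 (h x rfl)
    rw [h1, add_zero, Finset.filter_mem_eq_inter, Finset.univ_inter]
    refine Finset.sum_congr rfl fun x hx => ?_
    refine if_congr ?_ rfl rfl
    constructor
    · exact fun h => h.1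
    · intro h
      refine ⟨h, fun y hy => ?_⟩
      rw [← Sum.inl.inj hy]
      exact hx
  · refine Finset.sum_congr rfl fun k _ => ?_
    refine if_congr ?_ rfl rfl
    constructor
    · exact fun h => h.1
    · intro h
      exact ⟨h, fun y hy => by simp at hy⟩

theorem CDA_main (hd : Dat M q g s f I θ) : arcs (AA M g k0 s f I θ) = Fintype.card E := by
  obtain ⟨M', rfl⟩ : ∃ M', M = M' + 1 := ⟨M - 1, by have := M_pos hd; omega⟩
  have hE : Fintype.card E = ∑ x : E, 1 := by simp
  have hcard := hd.I_card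
  rw [CDA_arcsV] at hcard
  rw [hE, CDA_sum hd, CDA_arcs, Fintype.sum_sum_type, CDA_sum hd]
  -- the five sums
  have h1 : (∑ x ∈ VV g, if AA (M' + 1) g k0 s f I θ (Sum.inl x) ≠ none then 1 else 0) =
      ∑ x ∈ VV g, if g (Sum.inl x) ≠ none then 1 else 0 := by
    refine Finset.sum_congr rfl fun x hx => ?_
    rw [AA_V hx]
    exact if_congr (not_congr md_none) rfl rfl
  have h2 : (∑ l : Fin (M' + 1), if AA (M' + 1) g k0 s f I θ (Sum.inl (s l)) ≠ none then 1 else 0)
      = M' + if g (Sum.inr k0) ≠ none then 1 else 0 := by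
    rw [Fin.sum_univ_castSucc]
    congr 1
    · rw [Finset.sum_congr rfl (g := fun _ => 1)]
      · simp
      · intro i _
        have h : (Fin.castSucc i).val + 1 < M' + 1 := by
          have := i.isLt
          simp only [Fin.val_castSucc]
          omega
        rw [AA_s hd _ h]
        simp
    · rw [AA_last hd _ (by simp)]
      exact if_congr (not_congr md_none) rfl rfl
  have h3 : (∑ l ∈ sinks g, if AA (M' + 1) g k0 s f I θ (Sum.inl (f l)) ≠ none then 1 else 0) =
      ∑ l ∈ sinks g, 1 := by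
    refine Finset.sum_congr rfl fun l hl => ?_
    rw [AA_f hd hl]
    simp
  have h4 : (∑ x ∈ I, if AA (M' + 1) g k0 s f I θ (Sum.inl x) ≠ none then 1 else 0) = 0 := by
    refine Finset.sum_eq_zero fun x hx => ?_
    rw [AA_I hd hx]
    simp
  have h5 : (∑ x ∈ TT (M' + 1) g s f I,
      if AA (M' + 1) g k0 s f I θ (Sum.inl x) ≠ none then 1 else 0) =
      ∑ x ∈ TT (M' + 1) g s f I, 1 := by
    refine Finset.sum_congr rfl fun x hx => ?_
    rw [AA_T hx]
    simp
  have h6 : (∑ k : K, if AA (M' + 1) g k0 s f I θ (Sum.inr k) ≠ none then 1 else 0) =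
      1 + ∑ k ∈ Finset.univ.erase k0, if g (Sum.inr k) ≠ none then 1 else 0 := by
    rw [← Finset.add_sum_erase Finset.univ _ (Finset.mem_univ k0)]
    congr 1
    · rw [AA_k0 (M_pos hd)]
      simp
    · refine Finset.sum_congr rfl fun k hk => ?_
      rw [AA_k (Finset.ne_of_mem_erase hk)]
      exact if_congr (not_congr md_none) rfl rfl
  have h7 : (∑ k : K, if g (Sum.inr k) ≠ none then 1 else 0) =
      (if g (Sum.inr k0) ≠ none then 1 else 0) +
        ∑ k ∈ Finset.univ.erase k0, if g (Sum.inr k) ≠ none then 1 else 0 :=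
    (Finset.add_sum_erase Finset.univ _ (Finset.mem_univ k0)).symm
  rw [h1, h2, h3, h4, h5, h6]
  rw [h7] at hcard
  have h8 : (∑ l : Fin (M' + 1), 1) = M' + 1 := by simp
  have h9 : (∑ x ∈ I, 1) = I.card := by simp
  have h10 : (∑ x ∈ VV g, 1) = (VV g).card := by simp
  rw [h8, h9, h10]
  omega

end CDA

theorem stmt_CDA : Stmt_CDA := by
  intro E K L _ _ _ M q g s f I θ k0 hd
  exact CDA_main hd

end Pool.RookLC.Lin
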