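import Pool.Agent.Work.MP_6f78fb_lin.Interface

/-! Block CHO: the choices can be made. -/

open Classical

noncomputable section

namespace Pool.RookLC.Lin

theorem CHO_sub {E : Type} [Fintype E] (S : Finset E) (k : ℕ) (h : S.card + k ≤ Fintype.card E) :
    ∃ T : Finset E, T.card = k ∧ ∀ x ∈ T, x ∉ S := by
  have h1 : k ≤ (Sᶜ).card := by rw [Finset.card_compl]; omega
  obtain ⟨T, hT, hc⟩ := Finset.exists_subset_card_eq h1
  exact ⟨T, hc, fun x hx => Finset.mem_compl.1 (hT hx)⟩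

theorem CHO_perm {E : Type} [Fintype E] (T : Finset E) (μ : Multiset ℕ) (h : μ.sum ≤ T.card)
    (h2 : ∀ w ∈ μ, 2 ≤ w) :
    ∃ θ : Equiv.Perm E, θ.cycleType = μ ∧ ∀ x, x ∉ T → θ x = x := by
  have hex : ∃ g : Equiv.Perm T, g.cycleType = μ := by
    rw [Equiv.Perm.exists_with_cycleType_iff]
    exact ⟨by simpa using h, h2⟩
  obtain ⟨g, hg⟩ := hex
  refine ⟨Equiv.Perm.ofSubtype g, ?_, ?_⟩
  · rw [← hg]
    exact Equiv.Perm.cycleType_ofSubtype
  · intro x hx
    exact Equiv.Perm.ofSubtype_apply_of_not_mem g hx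

theorem CHO_f {E L : Type} [Fintype E] (S : Finset L) (F : Finset E) (hc : F.card = S.card)
    (hne : Nonempty E) :
    ∃ f : L → E, (∀ l ∈ S, ∀ l' ∈ S, f l = f l' → l = l') ∧ (∀ l ∈ S, f l ∈ F) := by
  obtain ⟨x0⟩ := hne
  have e : S ≃ F := Finset.equivOfCardEq hc.symm
  refine ⟨fun l => if h : l ∈ S then (e ⟨l, h⟩).1 else x0, ?_, ?_⟩
  · intro l hl l' hl' h
    simp only [dif_pos hl, dif_pos hl'] at h
    have h1 := e.injective (Subtype.ext h)
    exact congrArg Subtype.val h1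
  · intro l hl
    simp only [dif_pos hl]
    exact (e ⟨l, hl⟩).2

theorem stmt_CHO (h1 : Stmt_SPLIT) : Stmt_CHO := by
  intro E K L _ _ _ M q π g ε hπ hq hM hg harc hE
  obtain ⟨c1, c2, c3, c4, c5, c6, c7, c8, c9, c10⟩ := h1 E K L g hg
  obtain ⟨a, ha⟩ : ∃ a, a = arcsV g (VV g) := ⟨_, rfl⟩
  obtain ⟨b, hb⟩ : ∃ b, b = arcs (g2 g) := ⟨_, rfl⟩
  rw [← ha, ← hb] at c7
  rw [← ha] at c8 c9
  have hA0 : M ≤ ((VV g)ᶜ).card := by
    rw [Finset.card_compl]; omega
  obtain ⟨μ, hμ3, hμs, s, hs, hsA, hscov, hsg⟩ := hπ E (g2 g) c5 (by rw [← hb]; omega) ((VV g)ᶜ)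
    (fun x hx => Finset.mem_compl.2 (c6 x hx)) hA0
  rw [← hb] at hμs
  obtain ⟨R, hR⟩ : ∃ R, R = Finset.univ.image s := ⟨_, rfl⟩
  have hRc : R.card = M := by
    rw [hR, Finset.card_image_of_injective _ hs]; simp
  have hsR : ∀ l, s l ∈ R := fun l => by rw [hR]; exact Finset.mem_image_of_mem _ (Finset.mem_univ _)
  have hu1 : (VV g ∪ R).card ≤ (VV g).card + M := by
    have := Finset.card_union_le (VV g) R
    omega
  obtain ⟨F, hFc, hF⟩ := CHO_sub (VV g ∪ R) (sinks g).card (by omega)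
  have hne : Nonempty E := Fintype.card_pos_iff.1 (by omega)
  obtain ⟨f, hf1, hf2⟩ := CHO_f (sinks g) F hFc hne
  have hu2 : (VV g ∪ R ∪ F).card ≤ (VV g).card + M + (sinks g).card := by
    have := Finset.card_union_le (VV g ∪ R) F
    omega
  obtain ⟨ν, hν⟩ : ∃ ν, ν = μ + (if ε then {2} else 0 : Multiset ℕ) := ⟨_, rfl⟩
  have hνs : ν.sum ≤ 4 * b + 2 := by
    rw [hν, Multiset.sum_add]
    cases ε
    · simp only [Bool.false_eq_true, if_false, Multiset.sum_zero]; omega
    · simp only [if_true, Multiset.sum_singleton]; omega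
  obtain ⟨T, hTc, hT⟩ := CHO_sub (VV g ∪ R ∪ F) ν.sum (by omega)
  have hu3 : (VV g ∪ R ∪ F ∪ T).card ≤ (VV g).card + M + (sinks g).card + ν.sum := by
    have := Finset.card_union_le (VV g ∪ R ∪ F) T
    omega
  obtain ⟨θ, hθ1, hθ2⟩ := CHO_perm T ν (le_of_eq hTc.symm) (by
    intro w hw
    rw [hν, Multiset.mem_add] at hw
    rcases hw with hw | hw
    · have := hμ3 w hw
      omega
    · cases ε
      · simp at hw
      · simp at hw
        omega)
  obtain ⟨I, hIc, hI⟩ := CHO_sub (VV g ∪ R ∪ F ∪ T) (a - (VV g).card) (by omega)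
  have hFV : ∀ x ∈ F, x ∉ VV g := fun x hx h => hF x hx (Finset.mem_union_left _ h)
  have hFR : ∀ x ∈ F, ∀ l, s l ≠ x := fun x hx l h => hF x hx (Finset.mem_union_right _ (h ▸ hsR l))
  refine ⟨μ, s, f, I, θ, ?_, hsg, hμ3, ?_⟩
  · refine
      { hq := hq
        hM := hM
        ginj := hg
        garcs := harc
        s_inj := hs
        s_V := fun l => Finset.mem_compl.1 (hsA l)
        s_cov := hscov
        f_inj := hf1
        f_V := fun l hl => hFV _ (hf2 l hl)
        f_s := fun l hl l' => hFR _ (hf2 l hl) l'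
        I_V := fun x hx h => hI x hx ?_
        I_s := fun x hx l h => hI x hx ?_
        I_f := fun x hx l hl h => hI x hx ?_
        I_card := ?_
        th_V := fun x hx => hθ2 x (fun h => hT x h ?_)
        th_s := fun l => hθ2 _ (fun h => hT _ h ?_)
        th_f := fun l hl => hθ2 _ (fun h => hT _ h ?_)
        th_I := fun x hx => hθ2 x (fun h => hI x hx ?_) }
    · exact Finset.mem_union_left _ (Finset.mem_union_left _ (Finset.mem_union_left _ h))
    · exact Finset.mem_union_left _ (Finset.mem_union_left _ (Finset.mem_union_right _ (h ▸ hsR l)))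
    · exact Finset.mem_union_left _ (Finset.mem_union_right _ (h ▸ hf2 l hl))
    · rw [hIc]; omega
    · exact Finset.mem_union_left _ (Finset.mem_union_left _ hx)
    · exact Finset.mem_union_left _ (Finset.mem_union_right _ (hsR l))
    · exact Finset.mem_union_right _ (hf2 l hl)
    · exact Finset.mem_union_right _ h
  · rw [hθ1, hν]

end Pool.RookLC.Lin
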