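import Pool.Agent.Work.MP_6f78fb_lin.Interface

/-!
# Block CLS (MP_6f78fb_lin): standard partial injections

Written by helper86.
-/

open scoped BigOperators
open Classical

set_option autoImplicit false

noncomputable section

namespace Pool.RookLC.Lin

open Pool.RookLC

/-- two families with the same multiset of values are equivalent -/
lemma CLS_equiv {ι κ : Type} [Fintype ι] [Fintype κ] (w : ι → ℕ) (w' : κ → ℕ)
    (h : (Finset.univ : Finset ι).val.map w = (Finset.univ : Finset κ).val.map w') :
    ∃ σ : ι ≃ κ, ∀ i, w' (σ i) = w i := by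
  have hc : ∀ v, Nonempty ({i // w i = v} ≃ {k // w' k = v}) := by
    intro v
    apply Fintype.card_eq.1
    have h1 := congrArg (Multiset.count v) h
    rw [Multiset.count_map, Multiset.count_map] at h1
    rw [Fintype.card_subtype, Fintype.card_subtype]
    have e1 : (Finset.univ.filter fun i => w i = v).card =
        (Multiset.filter (fun a => v = w a) (Finset.univ : Finset ι).val).card := by
      rw [← Finset.filter_val]
      rw [Finset.card_val]
      congr 1
      ext i
      simp [eq_comm]
    have e2 : (Finset.univ.filter fun i => w' i = v).card =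
        (Multiset.filter (fun a => v = w' a) (Finset.univ : Finset κ).val).card := by
      rw [← Finset.filter_val]
      rw [Finset.card_val]
      congr 1
      ext i
      simp [eq_comm]
    rw [e1, e2, h1]
  have e : ∀ v, {i // w i = v} ≃ {k // w' k = v} := fun v => Classical.choice (hc v)
  let σ : ι ≃ κ := (Equiv.sigmaFiberEquiv w).symm.trans
    ((Equiv.sigmaCongrRight e).trans (Equiv.sigmaFiberEquiv w'))
  refine ⟨σ, fun i => ?_⟩
  have : σ i = ((e (w i)) ⟨i, rfl⟩).1 := rfl
  rw [this]
  exact ((e (w i)) ⟨i, rfl⟩).2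

lemma CLS_list (l : List ℕ) : (Finset.univ : Finset (Fin l.length)).val.map l.get =
    (l : Multiset ℕ) := by
  rw [Fin.univ_val_map, List.ofFn_get]

/-- index type of the vertices of the standard graph of a list -/
abbrev CLS_S (l : List ℕ) : Type := Σ j : Fin l.length, Fin (l.get j / 2)

lemma CLS_blcast (w w' : ℕ) (h : w = w') (l : Fin (w / 2)) :
    bl w' (Fin.cast (by rw [h]) l) = (bl w l).map (Fin.cast (by rw [h])) := by
  subst h
  simp

/-- the property of the block CLSA only depends on the multiset -/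
lemma CLS_transport {E : Type} [Fintype E] (g : PF E E) (ws L : List ℕ)
    (h : (ws : Multiset ℕ) = (L : Multiset ℕ))
    (t : CLS_S ws → E) (ht : Function.Injective t)
    (hr : ∀ x, x ∈ touched g ↔ ∃ z, t z = x)
    (hg : ∀ z, g (t z) = (bl (ws.get z.1) z.2).map (fun l => t ⟨z.1, l⟩)) :
    ∃ t' : CLS_S L → E, Function.Injective t' ∧ (∀ x, x ∈ touched g ↔ ∃ z, t' z = x) ∧
      ∀ z, g (t' z) = (bl (L.get z.1) z.2).map (fun l => t' ⟨z.1, l⟩) := by
  obtain ⟨σ, hσ⟩ := CLS_equiv L.get ws.get (by rw [CLS_list, CLS_list, h])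
  let c : CLS_S L → CLS_S ws := fun z => ⟨σ z.1, Fin.cast (by rw [hσ z.1]) z.2⟩
  have hcinj : Function.Injective c := by
    rintro ⟨j, l⟩ ⟨j', l'⟩ hjl
    have h1 : σ j = σ j' := congrArg Sigma.fst hjl
    have h2 : j = j' := σ.injective h1
    subst h2
    have h3 : Fin.cast (by rw [hσ j]) l = (Fin.cast (by rw [hσ j]) l' : Fin (ws.get (σ j) / 2)) := by
      have := hjl
      simp only [c] at this
      exact eq_of_heq (Sigma.mk.inj this).2
    have h4 : l = l' := by
      apply Fin.ext
      have := congrArg Fin.val h3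
      simpa using this
    rw [h4]
  have hcsurj : Function.Surjective c := by
    rintro ⟨j, l⟩
    obtain ⟨i, rfl⟩ := σ.surjective j
    refine ⟨⟨i, Fin.cast (by rw [hσ i]) l⟩, ?_⟩
    simp only [c]
    congr 1
  refine ⟨fun z => t (c z), ht.comp hcinj, ?_, ?_⟩
  · intro x
    rw [hr x]
    constructor
    · rintro ⟨z, hz⟩
      obtain ⟨y, rfl⟩ := hcsurj z
      exact ⟨y, hz⟩
    · rintro ⟨z, hz⟩
      exact ⟨c z, hz⟩
  · rintro ⟨j, l⟩
    rw [hg]
    show Option.map _ (bl (ws.get (σ j)) (Fin.cast (by rw [hσ j]) l)) = _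
    rw [CLS_blcast (L.get j) (ws.get (σ j)) (hσ j).symm l, Option.map_map]
    rfl

/-- the standard graph transported to `Fin M` -/
def CLS_pi (M : ℕ) (μ : Multiset ℕ) : PF (Fin M) (Fin M) :=
  if h : Nonempty (CLS_S μ.toList ↪ Fin M) then
    fun x => if hx : ∃ z, (Classical.choice h) z = x then
      (bl (μ.toList.get (Classical.choose hx).1) (Classical.choose hx).2).map
        (fun l => (Classical.choice h) ⟨(Classical.choose hx).1, l⟩)
      else none
  else fun _ => none

lemma CLS_pi_spec (M : ℕ) (μ : Multiset ℕ) (h : Nonempty (CLS_S μ.toList ↪ Fin M)) :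
    ∃ e : CLS_S μ.toList ↪ Fin M,
      (∀ z, CLS_pi M μ (e z) = (bl (μ.toList.get z.1) z.2).map (fun l => e ⟨z.1, l⟩)) ∧
      ∀ x, (¬ ∃ z, e z = x) → CLS_pi M μ x = none := by
  refine ⟨Classical.choice h, ?_, ?_⟩
  · intro z
    unfold CLS_pi
    rw [dif_pos h]
    have hx : ∃ z', (Classical.choice h) z' = (Classical.choice h) z := ⟨z, rfl⟩
    have hz : Classical.choose hx = z := (Classical.choice h).injective (Classical.choose_spec hx)
    show (if hx : ∃ z', (Classical.choice h) z' = (Classical.choice h) z then _ else _) = _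
    rw [dif_pos hx, hz]
  · intro x hx
    unfold CLS_pi
    rw [dif_pos h]
    show (if hx : ∃ z', (Classical.choice h) z' = x then _ else _) = _
    rw [dif_neg hx]

lemma CLS_touched {E : Type} [Fintype E] (g : PF E E) (x : E) :
    x ∈ touched g ↔ g x ≠ none ∨ ∃ y, g y = some x := by
  unfold touched
  simp

lemma CLS_touched_card {E : Type} [Fintype E] (g : PF E E) :
    (touched g).card ≤ 2 * arcs g := by
  have h1 : touched g ⊆ (Finset.univ.filter fun a => g a ≠ none) ∪
      (Finset.univ.filter fun a => g a ≠ none).image (fun a => (g a).getD a) := by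
    intro x hx
    rw [CLS_touched] at hx
    rw [Finset.mem_union]
    rcases hx with hx | ⟨y, hy⟩
    · left; simp [hx]
    · right
      rw [Finset.mem_image]
      refine ⟨y, by simp [hy], by simp [hy]⟩
  calc (touched g).card ≤ _ := Finset.card_le_card h1
    _ ≤ _ := Finset.card_union_le _ _
    _ ≤ arcs g + arcs g := by
      unfold arcs
      exact Nat.add_le_add_left Finset.card_image_le _
    _ = 2 * arcs g := by ring

theorem stmt_CLS (hA : Stmt_CLSA) : Stmt_CLS := by
  intro M
  refine ⟨CLS_pi M, ?_⟩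
  intro E _ g hg hM A0 hA0 hcard
  obtain ⟨ws, hws3, hwsum, t, htinj, htr, htg⟩ := hA E g hg
  refine ⟨(ws : Multiset ℕ), by simpa using hws3, by simpa using hwsum, ?_⟩
  set μ : Multiset ℕ := (ws : Multiset ℕ) with hμ
  obtain ⟨t', ht'inj, ht'r, ht'g⟩ := CLS_transport g ws μ.toList
    (by rw [Multiset.coe_toList]) t htinj htr htg
  have hcS : Fintype.card (CLS_S μ.toList) = (touched g).card := by
    rw [← Finset.card_univ, ← Finset.card_image_of_injective _ ht'inj]
    congr 1
    ext x
    rw [ht'r x]
    simp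
  have htM : (touched g).card ≤ M := le_trans (CLS_touched_card g) hM
  have hne : Nonempty (CLS_S μ.toList ↪ Fin M) := by
    apply Function.Embedding.nonempty_of_card_le
    rw [hcS, Fintype.card_fin]
    exact htM
  obtain ⟨e, he1, he2⟩ := CLS_pi_spec M μ hne
  -- the other labels
  have hemb : Nonempty ({x : Fin M // ¬ ∃ z, e z = x} ↪ {y : E // y ∈ A0 \ touched g}) := by
    apply Function.Embedding.nonempty_of_card_le
    have c1 : Fintype.card {x : Fin M // ¬ ∃ z, e z = x} = M - (touched g).card := by
      rw [Fintype.card_subtype_compl, Fintype.card_fin]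
      congr 1
      rw [← hcS, Fintype.card_subtype]
      rw [← Finset.card_univ (α := CLS_S μ.toList), ← Finset.card_image_of_injective _ e.injective]
      congr 1
      ext x
      simp
    have c2 : Fintype.card {y : E // y ∈ A0 \ touched g} = A0.card - (touched g).card := by
      rw [Fintype.card_coe, Finset.card_sdiff_of_subset hA0]
    rw [c1, c2]
    exact Nat.sub_le_sub_right hcard _
  obtain ⟨u⟩ := hemb
  let s : Fin M → E := fun x => if hx : ∃ z, e z = x then t' (Classical.choose hx)
    else (u ⟨x, hx⟩).1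
  have hs1 : ∀ z, s (e z) = t' z := by
    intro z
    have hx : ∃ z', e z' = e z := ⟨z, rfl⟩
    have hz : Classical.choose hx = z := e.injective (Classical.choose_spec hx)
    show (if hx : ∃ z', e z' = e z then t' (Classical.choose hx) else _) = _
    rw [dif_pos hx, hz]
  have hs2 : ∀ x (hx : ¬ ∃ z, e z = x), s x = (u ⟨x, hx⟩).1 := by
    intro x hx
    show (if hx : ∃ z', e z' = x then t' (Classical.choose hx) else _) = _
    rw [dif_neg hx]
  have hs3 : ∀ x, (¬ ∃ z, e z = x) → s x ∈ A0 \ touched g := by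
    intro x hx
    rw [hs2 x hx]
    exact (u ⟨x, hx⟩).2
  refine ⟨s, ?_, ?_, ?_, ?_⟩
  · intro x y hxy
    by_cases hx : ∃ z, e z = x
    · by_cases hy : ∃ z, e z = y
      · obtain ⟨z, rfl⟩ := hx
        obtain ⟨z', rfl⟩ := hy
        rw [hs1, hs1] at hxy
        rw [ht'inj hxy]
      · obtain ⟨z, rfl⟩ := hx
        exfalso
        have h1 := hs3 y hy
        rw [← hxy, hs1] at h1
        exact (Finset.mem_sdiff.1 h1).2 ((ht'r _).2 ⟨z, rfl⟩)
    · by_cases hy : ∃ z, e z = y
      · obtain ⟨z, rfl⟩ := hy
        exfalso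
        have h1 := hs3 x hx
        rw [hxy, hs1] at h1
        exact (Finset.mem_sdiff.1 h1).2 ((ht'r _).2 ⟨z, rfl⟩)
      · rw [hs2 x hx, hs2 y hy] at hxy
        have := u.injective (Subtype.ext hxy)
        exact congrArg Subtype.val this
  · intro x
    by_cases hx : ∃ z, e z = x
    · obtain ⟨z, rfl⟩ := hx
      rw [hs1]
      exact hA0 ((ht'r _).2 ⟨z, rfl⟩)
    · exact (Finset.mem_sdiff.1 (hs3 x hx)).1
  · intro x hx
    obtain ⟨z, hz⟩ := (ht'r x).1 hx
    exact ⟨e z, by rw [hs1, hz]⟩
  · intro x
    by_cases hx : ∃ z, e z = x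
    · obtain ⟨z, rfl⟩ := hx
      rw [hs1, ht'g, he1, Option.map_map]
      congr 1
      funext l
      simp only [Function.comp]
      rw [hs1]
    · rw [he2 x hx]
      have h1 := (Finset.mem_sdiff.1 (hs3 x hx)).2
      rw [CLS_touched] at h1
      push Not at h1
      rw [h1.1]
      rfl

end Pool.RookLC.Lin
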