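import Pool.Agent.Work.MP_6f78fb_lin.Interface

/-!
# Block CLSA (MP_6f78fb_lin): a partial injection is a disjoint union of chains and cycles

Written by helper55.
-/

open scoped BigOperators
open Classical

set_option autoImplicit false

noncomputable section

namespace Pool.RookLC.Lin

open Pool.RookLC

/-- a path of touched vertices -/
def CLSA_path {E : Type} [Fintype E] (g : PF E E) (l : List E) : Prop :=
  l ≠ [] ∧ l.Nodup ∧ (∀ x ∈ l, x ∈ touched g) ∧
    ∀ i (h : i + 1 < l.length), g (l[i]'(by omega)) = some (l[i + 1]'h)

lemma CLSA_touched {E : Type} [Fintype E] (g : PF E E) (x : E) :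
    x ∈ touched g ↔ g x ≠ none ∨ ∃ y, g y = some x := by
  unfold touched
  simp

lemma CLSA_max {E : Type} [Fintype E] (g : PF E E) (x : E) (hx : g x ≠ none) :
    ∃ l, CLSA_path g l ∧ ∀ l', CLSA_path g l' → l'.length ≤ l.length := by
  have hle : ∀ l, CLSA_path g l → l.length ≤ Fintype.card E := fun l hl =>
    List.Nodup.length_le_card hl.2.1
  have h0 : CLSA_path g [x] := by
    refine ⟨by simp, by simp, ?_, ?_⟩
    · intro y hy
      rw [List.mem_singleton] at hy
      subst hy
      exact (CLSA_touched g y).2 (Or.inl hx)
    · intro i h
      simp at h
  have hP : ∃ l, CLSA_path g l ∧ l.length = 1 := ⟨[x], h0, rfl⟩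
  have h1 : 1 ≤ Fintype.card E := hle _ h0
  obtain ⟨l, hl, hlen⟩ := Nat.findGreatest_spec (P := fun k => ∃ l, CLSA_path g l ∧ l.length = k)
    h1 hP
  refine ⟨l, hl, fun l' hl' => ?_⟩
  rw [hlen]
  exact Nat.le_findGreatest (hle l' hl') ⟨l', hl', rfl⟩

/-- one component -/
lemma CLSA_comp {E : Type} [Fintype E] (g : PF E E) (hg : PInj g) (x : E) (hx : g x ≠ none) :
    ∃ (w : ℕ) (p : Fin (w / 2) → E), 3 ≤ w ∧ Function.Injective p ∧
      (∀ i, g (p i) = (bl w i).map p) ∧ (∀ y i, g y = some (p i) → ∃ i', p i' = y) ∧
      (∀ i, p i ∈ touched g) ∧
      w ≤ 4 * (Finset.univ.filter (fun i => g (p i) ≠ none)).card := by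
  obtain ⟨l, ⟨hne, hnd, htch, hch⟩, hmax⟩ := CLSA_max g x hx
  have hk : 0 < l.length := List.length_pos_iff.2 hne
  have hinj : ∀ i j (hi : i < l.length) (hj : j < l.length), l[i]'hi = l[j]'hj → i = j := by
    intro i j hi hj h
    exact (List.Nodup.getElem_inj_iff hnd).1 h
  cases hlast : g (l[l.length - 1]'(by omega)) with
  | some y =>
    -- the cycle
    have hy : y ∈ l := by
      by_contra hy
      have hp : CLSA_path g (l ++ [y]) := by
        refine ⟨by simp, ?_, ?_, ?_⟩
        · rw [List.nodup_append]
          refine ⟨hnd, by simp, ?_⟩
          intro a ha b hb hab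
          rw [List.mem_singleton] at hb
          subst hb
          subst hab
          exact hy ha
        · intro z hz
          rw [List.mem_append, List.mem_singleton] at hz
          rcases hz with hz | rfl
          · exact htch z hz
          · exact (CLSA_touched g z).2 (Or.inr ⟨_, hlast⟩)
        · intro i h
          rw [List.length_append, List.length_singleton] at h
          by_cases h1 : i + 1 < l.length
          · rw [List.getElem_append_left (by omega), List.getElem_append_left h1]
            exact hch i h1
          · have h2 : i + 1 = l.length := by omega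
            rw [List.getElem_append_left (by omega), List.getElem_append_right (by omega)]
            have h3 : i = l.length - 1 := by omega
            subst h3
            rw [hlast]
            simp
      have := hmax _ hp
      rw [List.length_append, List.length_singleton] at this
      omega
    obtain ⟨i, hi, hiy⟩ := List.getElem_of_mem hy
    have hi0 : i = 0 := by
      by_contra h0
      have h1 := hch (i - 1) (by omega)
      have h2 : g (l[i - 1]'(by omega)) = some y := by
        rw [h1]
        congr 1
        rw [← hiy]
        congr 1
        omega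
      have h3 := hg _ _ _ h2 hlast
      have := hinj _ _ _ _ h3
      omega
    subst hi0
    have hw : (2 * l.length + 1) / 2 = l.length := by omega
    refine ⟨2 * l.length + 1, fun i => l[i.1]'(by have := i.2; omega), by omega, ?_, ?_, ?_, ?_, ?_⟩
    · intro i j h
      exact Fin.ext (hinj _ _ _ _ h)
    · intro i
      have hi2 := i.2
      unfold bl
      by_cases h : i.1 + 1 < (2 * l.length + 1) / 2
      · rw [dif_pos h]
        exact hch i.1 (by omega)
      · rw [dif_neg h, if_pos (by omega)]
        have h3 : i.1 = l.length - 1 := by omega
        have h4 : l[i.1]'(by omega) = l[l.length - 1]'(by omega) := by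
          congr 1
        change g (l[i.1]'(by omega)) = _
        rw [h4, hlast, ← hiy]
        rfl
    · intro z i hz
      have hi2 := i.2
      by_cases h : i.1 = 0
      · refine ⟨⟨l.length - 1, by omega⟩, ?_⟩
        have h1 : l[i.1]'(by omega) = y := by
          rw [← hiy]
          congr 1
        have h2 : g z = some y := by
          rw [← h1]
          exact hz
        exact hg _ _ _ hlast h2
      · refine ⟨⟨i.1 - 1, by omega⟩, ?_⟩
        have h1 := hch (i.1 - 1) (by omega)
        have h2 : g (l[i.1 - 1]'(by omega)) = some (l[i.1]'(by omega)) := by
          rw [h1]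
          congr 2
          omega
        exact hg _ _ _ h2 hz
    · intro i
      exact htch _ (List.getElem_mem _)
    · have hall : (Finset.univ.filter (fun i : Fin ((2 * l.length + 1) / 2) =>
          g (l[i.1]'(by have := i.2; omega)) ≠ none)) = Finset.univ := by
        rw [Finset.filter_eq_self]
        intro i _
        have hi2 := i.2
        by_cases h : i.1 + 1 < l.length
        · rw [hch i.1 h]
          simp
        · have h4 : l[i.1]'(by omega) = l[l.length - 1]'(by omega) := by
            congr 1
            omega
          rw [h4, hlast]
          simp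
      rw [hall, Finset.card_univ, Fintype.card_fin]
      omega
  | none =>
    -- the chain
    have hfirst : ∀ y, g y ≠ some (l[0]'hk) := by
      intro y hy
      have hyl : y ∉ l := by
        intro hyl
        obtain ⟨i, hi, hiy⟩ := List.getElem_of_mem hyl
        by_cases h : i + 1 < l.length
        · have h1 := hch i h
          rw [hiy, hy] at h1
          have := hinj _ _ _ _ (Option.some.inj h1)
          omega
        · have h4 : l[i]'hi = l[l.length - 1]'(by omega) := by
            congr 1
            omega
          rw [← hiy, h4, hlast] at hy
          cases hy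
      have hp : CLSA_path g (y :: l) := by
        refine ⟨by simp, List.nodup_cons.2 ⟨hyl, hnd⟩, ?_, ?_⟩
        · intro z hz
          rw [List.mem_cons] at hz
          rcases hz with rfl | hz
          · exact (CLSA_touched g z).2 (Or.inl (by rw [hy]; simp))
          · exact htch z hz
        · intro i h
          rw [List.length_cons] at h
          cases i with
          | zero => exact hy
          | succ i =>
            have := hch i (by omega)
            simpa using this
      have := hmax _ hp
      rw [List.length_cons] at this
      omega
    have h2 : 2 ≤ l.length := by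
      by_contra h2
      have h1 := (CLSA_touched g _).1 (htch _ (List.getElem_mem hk))
      rcases h1 with h1 | ⟨y, hy⟩
      · apply h1
        rw [← hlast]
        congr 2
        omega
      · exact hfirst y hy
    refine ⟨2 * l.length, fun i => l[i.1]'(by have := i.2; omega), by omega, ?_, ?_, ?_, ?_, ?_⟩
    · intro i j h
      exact Fin.ext (hinj _ _ _ _ h)
    · intro i
      have hi2 := i.2
      unfold bl
      by_cases h : i.1 + 1 < (2 * l.length) / 2
      · rw [dif_pos h]
        exact hch i.1 (by omega)
      · rw [dif_neg h, if_neg (by omega)]
        have h4 : l[i.1]'(by omega) = l[l.length - 1]'(by omega) := by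
          congr 1
          omega
        change g (l[i.1]'(by omega)) = _
        rw [h4, hlast]
        rfl
    · intro z i hz
      have hi2 := i.2
      by_cases h : i.1 = 0
      · exfalso
        apply hfirst z
        rw [hz]
        congr 1
        change l[i.1]'(by omega) = l[0]'hk
        congr 1
      · refine ⟨⟨i.1 - 1, by omega⟩, ?_⟩
        have h1 := hch (i.1 - 1) (by omega)
        have h2 : g (l[i.1 - 1]'(by omega)) = some (l[i.1]'(by omega)) := by
          rw [h1]
          congr 2
          omega
        exact hg _ _ _ h2 hz
    · intro i
      exact htch _ (List.getElem_mem _)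
    · have hsub : Finset.univ.erase (⟨l.length - 1, by omega⟩ : Fin ((2 * l.length) / 2)) ⊆
          (Finset.univ.filter (fun i : Fin ((2 * l.length) / 2) =>
          g (l[i.1]'(by have := i.2; omega)) ≠ none)) := by
        intro i hi
        have hi1 := Finset.ne_of_mem_erase hi
        have hi2 := i.2
        have h : i.1 + 1 < l.length := by
          by_contra h
          apply hi1
          ext
          simp only
          omega
        rw [Finset.mem_filter]
        refine ⟨Finset.mem_univ _, ?_⟩
        rw [hch i.1 h]
        simp
      have h3 := Finset.card_le_card hsub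
      rw [Finset.card_erase_of_mem (Finset.mem_univ _), Finset.card_univ, Fintype.card_fin] at h3
      have h5 : 2 * l.length ≤ 4 * (Finset.univ.filter (fun i : Fin ((2 * l.length) / 2) =>
          g (l[i.1]'(by have := i.2; omega)) ≠ none)).card := by omega
      exact h5

lemma CLSA_ind (n : ℕ) : ∀ (E : Type) [Fintype E] (g : PF E E), PInj g → arcs g = n →
    ∃ ws : List ℕ, (∀ w ∈ ws, 3 ≤ w) ∧ ws.sum ≤ 4 * arcs g ∧
      ∃ t : (j : Fin ws.length) → Fin (ws.get j / 2) → E,
        (∀ j j' i i', t j i = t j' i' → (⟨j, i⟩ : Σ j : Fin ws.length, Fin (ws.get j / 2)) = ⟨j', i'⟩) ∧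
        (∀ x, x ∈ touched g ↔ ∃ j i, t j i = x) ∧
        ∀ j i, g (t j i) = (bl (ws.get j) i).map (t j) := by
  induction n using Nat.strong_induction_on with
  | _ n ih =>
    intro E _ g hg hn
    by_cases hx : ∃ x, g x ≠ none
    · obtain ⟨x, hx⟩ := hx
      obtain ⟨w, p, hw3, hpinj, hpg, hpc, hpt, hpw⟩ := CLSA_comp g hg x hx
      set g' : PF E E := fun x => if x ∈ Set.range p then none else g x with hg'
      have hg'1 : ∀ x, x ∈ Set.range p → g' x = none := fun x hx => if_pos hx
      have hg'2 : ∀ x, x ∉ Set.range p → g' x = g x := fun x hx => if_neg hx
      have hg'3 : ∀ x y, g' x = some y → x ∉ Set.range p ∧ g x = some y := by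
        intro x y h
        by_cases hxr : x ∈ Set.range p
        · rw [hg'1 x hxr] at h
          cases h
        · rw [hg'2 x hxr] at h
          exact ⟨hxr, h⟩
      have hinj' : PInj g' := by
        intro a b c ha hb
        exact hg a b c (hg'3 a c ha).2 (hg'3 b c hb).2
      -- closure
      have hcl : ∀ x y, g x = some y → (x ∈ Set.range p ↔ y ∈ Set.range p) := by
        intro x y hxy
        constructor
        · rintro ⟨i, rfl⟩
          rw [hpg i] at hxy
          cases hb : bl w i with
          | none =>
            rw [hb] at hxy
            cases hxy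
          | some i' =>
            rw [hb] at hxy
            exact ⟨i', Option.some.inj hxy⟩
        · rintro ⟨i, rfl⟩
          obtain ⟨i', hi'⟩ := hpc x i hxy
          exact ⟨i', hi'⟩
      have htouch : ∀ x, x ∈ touched g ↔ x ∈ Set.range p ∨ x ∈ touched g' := by
        intro x
        constructor
        · intro h
          by_cases hxr : x ∈ Set.range p
          · exact Or.inl hxr
          · right
            rw [CLSA_touched] at h ⊢
            rcases h with h | ⟨y, hy⟩
            · left
              rwa [hg'2 x hxr]
            · right
              refine ⟨y, ?_⟩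
              rw [hg'2 y (fun hyr => hxr ((hcl y x hy).1 hyr))]
              exact hy
        · rintro (⟨i, rfl⟩ | h)
          · exact hpt i
          · rw [CLSA_touched] at h ⊢
            rcases h with h | ⟨y, hy⟩
            · left
              by_cases hxr : x ∈ Set.range p
              · exact absurd (hg'1 x hxr) h
              · rwa [hg'2 x hxr] at h
            · right
              exact ⟨y, (hg'3 y x hy).2⟩
      have hdisj : ∀ x, x ∈ touched g' → x ∉ Set.range p := by
        intro x hx hxr
        rw [CLSA_touched] at hx
        rcases hx with h | ⟨y, hy⟩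
        · exact h (hg'1 x hxr)
        · obtain ⟨h1, h2⟩ := hg'3 y x hy
          exact h1 ((hcl y x h2).2 hxr)
      -- the arcs
      have harcs : arcs g' + (Finset.univ.filter (fun i => g (p i) ≠ none)).card = arcs g := by
        unfold arcs
        have h1 : (Finset.univ.filter (fun i => g (p i) ≠ none)).card =
            ((Finset.univ.filter (fun i => g (p i) ≠ none)).image p).card :=
          (Finset.card_image_of_injective _ hpinj).symm
        rw [h1, ← Finset.card_union_of_disjoint]
        · congr 1
          ext y
          simp only [Finset.mem_union, Finset.mem_filter, Finset.mem_univ, true_and,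
            Finset.mem_image]
          constructor
          · rintro (h | ⟨i, hi, rfl⟩)
            · by_cases hyr : y ∈ Set.range p
              · exact absurd (hg'1 y hyr) h
              · rwa [hg'2 y hyr] at h
            · exact hi
          · intro h
            by_cases hyr : y ∈ Set.range p
            · right
              obtain ⟨i, rfl⟩ := hyr
              exact ⟨i, h, rfl⟩
            · left
              rwa [hg'2 y hyr]
        · rw [Finset.disjoint_left]
          intro y hy1 hy2
          rw [Finset.mem_filter] at hy1
          rw [Finset.mem_image] at hy2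
          obtain ⟨i, _, rfl⟩ := hy2
          exact hy1.2 (hg'1 _ ⟨i, rfl⟩)
      have hlt : arcs g' < n := by omega
      obtain ⟨ws, hws3, hwss, t, ht1, ht2, ht3⟩ := ih (arcs g') hlt E g' hinj' rfl
      refine ⟨w :: ws, ?_, ?_, ?_⟩
      · intro w' hw'
        rw [List.mem_cons] at hw'
        rcases hw' with rfl | hw'
        · exact hw3
        · exact hws3 w' hw'
      · rw [List.sum_cons]
        omega
      · refine ⟨fun j => Fin.cases (motive := fun j : Fin (ws.length + 1) =>
          Fin ((w :: ws).get j / 2) → E) p (fun j i => t j i) j, ?_, ?_, ?_⟩
        · intro j j'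
          refine Fin.cases ?_ (fun j => ?_) j
          · refine Fin.cases ?_ (fun j' => ?_) j'
            · intro i i' h
              have h1 : i = i' := hpinj h
              rw [h1]
            · intro i i' h
              exfalso
              have h1 : p i = t j' i' := h
              exact hdisj (t j' i') ((ht2 _).2 ⟨j', i', rfl⟩) ⟨i, h1⟩
          · refine Fin.cases ?_ (fun j' => ?_) j'
            · intro i i' h
              exfalso
              have h1 : t j i = p i' := h
              exact hdisj (t j i) ((ht2 _).2 ⟨j, i, rfl⟩) ⟨i', h1.symm⟩
            · intro i i' h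
              have h1 := ht1 j j' i i' h
              rw [Sigma.mk.injEq] at h1
              obtain ⟨h2, h3⟩ := h1
              subst h2
              have h4 := eq_of_heq h3
              subst h4
              rfl
        · intro x
          rw [htouch x, ht2 x]
          constructor
          · rintro (⟨i, rfl⟩ | ⟨j, i, rfl⟩)
            · exact ⟨0, i, rfl⟩
            · exact ⟨j.succ, i, rfl⟩
          · rintro ⟨j, hj⟩
            revert hj
            refine Fin.cases ?_ (fun j => ?_) j
            · rintro ⟨i, rfl⟩
              exact Or.inl ⟨i, rfl⟩
            · rintro ⟨i, rfl⟩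
              exact Or.inr ⟨j, i, rfl⟩
        · intro j
          refine Fin.cases ?_ (fun j => ?_) j
          · intro i
            exact hpg i
          · intro i
            have h1 : t j i ∉ Set.range p := hdisj _ ((ht2 _).2 ⟨j, i, rfl⟩)
            have h2 := ht3 j i
            rw [hg'2 _ h1] at h2
            exact h2
    · refine ⟨[], by simp, by simp, fun j => j.elim0, fun j => j.elim0, ?_, fun j => j.elim0⟩
      intro x
      constructor
      · intro h
        exfalso
        rw [CLSA_touched] at h
        rcases h with h | ⟨y, hy⟩
        · exact hx ⟨x, h⟩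
        · exact hx ⟨y, by rw [hy]; simp⟩
      · rintro ⟨j, _⟩
        exact j.elim0

theorem stmt_CLSA : Stmt_CLSA := by
  intro E _ g hg
  obtain ⟨ws, h1, h2, t, h3, h4, h5⟩ := CLSA_ind _ E g hg rfl
  refine ⟨ws, h1, h2, fun z => t z.1 z.2, ?_, ?_, ?_⟩
  · rintro ⟨j, i⟩ ⟨j', i'⟩ h
    exact h3 j j' i i' h
  · intro x
    rw [h4 x]
    constructor
    · rintro ⟨j, i, h⟩
      exact ⟨⟨j, i⟩, h⟩
    · rintro ⟨⟨j, i⟩, h⟩
      exact ⟨j, i, h⟩
  · rintro ⟨j, i⟩
    exact h5 j i

end Pool.RookLC.Lin
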