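import Pool.Agent.Work.MP_6f78fb_lin.Interface

/-!
# Block CORE: the rigid encoding of graphs (helper84)
-/

open scoped BigOperators TensorProduct
open Classical

noncomputable section

namespace Pool.RookLC.Lin

open Pool.RookLC

theorem stmt_CORE (hCLS : Stmt_CLS) (hCHO : Stmt_CHO) (hPIA : Stmt_PIA) (hCDA : Stmt_CDA)
    (hGDA : Stmt_GDA) (hENA : Stmt_ENA) (hRIG : Stmt_RIG) : Stmt_CORE := by
  intro E K L _ _ _ _ q hq hE
  obtain ⟨π, hπ⟩ := hCLS (2 * q + 1)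
  have k0 : K := Classical.arbitrary K
  have key : ∀ (g : GR E K L) (ε : Bool), ∃ A : GR E K L, PInj g → arcs g ≤ q →
      PInj A ∧ arcs A = Fintype.card E ∧ Good A ∧
        ∃ (μ : Multiset ℕ) (s : Fin (2 * q + 1) → E) (V F T I : Finset E) (θ : Equiv.Perm E),
          Enc (2 * q + 1) π g A ε μ k0 s V F T I θ := by
    intro g ε
    by_cases h : PInj g ∧ arcs g ≤ q
    · obtain ⟨μ, s, f, I, θ, hD, h1, h2, h3⟩ :=
        hCHO E K L (2 * q + 1) q π g ε hπ hq rfl h.1 h.2 hE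
      refine ⟨AA (2 * q + 1) g k0 s f I θ, fun _ _ => ⟨?_, ?_, ?_, ?_⟩⟩
      · exact hPIA E K L (2 * q + 1) q g s f I θ k0 hD
      · exact hCDA E K L (2 * q + 1) q g s f I θ k0 hD
      · exact hGDA E K L (2 * q + 1) q g s f I θ k0 hD
      · obtain ⟨V, F, T, I', hEnc⟩ :=
          hENA E K L (2 * q + 1) q π ε μ g s f I θ k0 hD h1 h2 h3
        exact ⟨μ, s, V, F, T, I', θ, hEnc⟩
    · exact ⟨g, fun h1 h2 => absurd ⟨h1, h2⟩ h⟩
  choose P hP using key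
  refine ⟨P, fun g ε h1 h2 => ⟨(hP g ε h1 h2).1, (hP g ε h1 h2).2.1, (hP g ε h1 h2).2.2.1⟩, ?_⟩
  intro σ κ τ g ε g' ε' h1 h2 h1' h2' h
  obtain ⟨-, -, -, μ, s, V, F, T, I, θ, hEnc⟩ := hP g ε h1 h2
  obtain ⟨-, -, -, μ', s', V', F', T', I', θ', hEnc'⟩ := hP g' ε' h1' h2'
  exact hRIG E K L (2 * q + 1) π g (P g ε) g' (P g' ε') ε ε' μ μ' k0 k0 s s' V F T I V' F' T' I'
    θ θ' σ κ τ (by omega) hEnc hEnc' h

end Pool.RookLC.Lin
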