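import Pool.Agent.Work.MP_6f78fb_lin.Interface
import Pool.Agent.Work.MP_6f78fb_rk_helper70.ACT

/-!
# Block DOM: transport of functions along the rigid map
-/

open scoped BigOperators TensorProduct
open Classical

noncomputable section

namespace Pool.RookLC.Lin

open Pool.RookLC

/-- the set where `ω = h (p y, β)` -/
def DOM_R {n m : ℕ} (r i : ℕ) (p : Cf n m → Cf n m → Bool → Cf n m) (ε : Bool) (ω η : Pr n m) :
    Prop :=
  ∃ (h : G n m) (α β : Cf n m), Sm r α ∧ Um i β ∧ ω = (actC h (p α β ε), actC h β) ∧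
    η = (actC h α, actC h β)

/-- the value of the transported function -/
def DOM_F {n m : ℕ} (r i : ℕ) (p : Cf n m → Cf n m → Bool → Cf n m) (ε : Bool) (F : Fn2 n m) :
    Fn2 n m :=
  fun ω => if h : ∃ η, DOM_R r i p ε ω η then F h.choose else 0

theorem DOM_uniq {n m r i : ℕ} {p : Cf n m → Cf n m → Bool → Cf n m}
    (hp : ∀ (h : G n m) α β ε α' β' ε', Sm r α → Um i β → Sm r α' → Um i β' →
      actC h β = β' → actC h (p α β ε) = p α' β' ε' → actC h α = α' ∧ ε = ε')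
    {ε ε' : Bool} {ω η η' : Pr n m} (h1 : DOM_R r i p ε ω η) (h2 : DOM_R r i p ε' ω η') :
    η = η' ∧ ε = ε' := by
  obtain ⟨h, α, β, hα, hβ, hω, rfl⟩ := h1
  obtain ⟨h', α', β', hα', hβ', hω', rfl⟩ := h2
  rw [hω, Prod.mk.injEq] at hω'
  obtain ⟨e1, e2⟩ := hω'
  have key : ∀ γ γ' : Cf n m, actC h γ = actC h' γ' → actC (h'⁻¹ * h) γ = γ' := by
    intro γ γ' e
    rw [helper70.actC_mul, e, helper70.actC_inv]
  obtain ⟨e3, e4⟩ := hp (h'⁻¹ * h) α β ε α' β' ε' hα hβ hα' hβ' (key _ _ e2) (key _ _ e1)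
  refine ⟨?_, e4⟩
  rw [← e3, e2, ← helper70.actC_mul]
  congr 2
  group

theorem DOM_val {n m r i : ℕ} {p : Cf n m → Cf n m → Bool → Cf n m}
    (hp : ∀ (h : G n m) α β ε α' β' ε', Sm r α → Um i β → Sm r α' → Um i β' →
      actC h β = β' → actC h (p α β ε) = p α' β' ε' → actC h α = α' ∧ ε = ε')
    {ε : Bool} {ω η : Pr n m} (h1 : DOM_R r i p ε ω η) (F : Fn2 n m) :
    DOM_F r i p ε F ω = F η := by
  unfold DOM_F
  have h : ∃ η, DOM_R r i p ε ω η := ⟨η, h1⟩
  rw [dif_pos h, (DOM_uniq hp h.choose_spec h1).1]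

theorem DOM_act {n m r i : ℕ} {p : Cf n m → Cf n m → Bool → Cf n m} {ε : Bool} {ω η : Pr n m}
    (g : G n m) (h1 : DOM_R r i p ε ω η) :
    DOM_R r i p ε (actC g ω.1, actC g ω.2) (actC g η.1, actC g η.2) := by
  obtain ⟨h, α, β, hα, hβ, rfl, rfl⟩ := h1
  refine ⟨g * h, α, β, hα, hβ, ?_, ?_⟩
  · simp only [helper70.actC_mul]
  · simp only [helper70.actC_mul]

theorem DOM_eqv {n m r i : ℕ} {p : Cf n m → Cf n m → Bool → Cf n m}
    (hp : ∀ (h : G n m) α β ε α' β' ε', Sm r α → Um i β → Sm r α' → Um i β' →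
      actC h β = β' → actC h (p α β ε) = p α' β' ε' → actC h α = α' ∧ ε = ε')
    {ε : Bool} (g : G n m) (F : Fn2 n m) (ω : Pr n m) :
    DOM_F r i p ε (rF2 g F) ω = DOM_F r i p ε F (actC g⁻¹ ω.1, actC g⁻¹ ω.2) := by
  by_cases h : ∃ η, DOM_R r i p ε ω η
  · obtain ⟨η, hη⟩ := h
    rw [DOM_val hp hη, DOM_val hp (DOM_act g⁻¹ hη)]
    rfl
  · have h' : ¬ ∃ η, DOM_R r i p ε (actC g⁻¹ ω.1, actC g⁻¹ ω.2) η := by
      rintro ⟨η, hη⟩
      have := DOM_act g hη
      simp only [helper70.actC_inv'] at this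
      exact h ⟨_, this⟩
    unfold DOM_F
    rw [dif_neg h, dif_neg h']

theorem DOM_ne {n m r i : ℕ} {p : Cf n m → Cf n m → Bool → Cf n m} {ε : Bool} {F : Fn2 n m}
    {ω : Pr n m} (h : DOM_F r i p ε F ω ≠ 0) : ∃ η, DOM_R r i p ε ω η := by
  by_contra h'
  apply h
  unfold DOM_F
  rw [dif_neg h']

theorem stmt_DOM (hENC : Stmt_ENC) (hFA : Stmt_FLIPA) : Stmt_DOM := by
  intro n m r i hr hnm hin h7
  obtain ⟨p, hpP, hp⟩ := hENC n m r i hr hnm hin h7
  obtain ⟨_, _, hP1, hUm, hSm⟩ := hFA n m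
  have hadd : ∀ ε (F F' : Fn2 n m), DOM_F r i p ε (F + F') = DOM_F r i p ε F + DOM_F r i p ε F' := by
    intro ε F F'
    funext ω
    rw [Pi.add_apply]
    unfold DOM_F
    by_cases h : ∃ η, DOM_R r i p ε ω η
    · simp only [dif_pos h]
      rfl
    · simp only [dif_neg h, add_zero]
  have hsmul : ∀ ε (c : ℂ) (F : Fn2 n m), DOM_F r i p ε (c • F) = c • DOM_F r i p ε F := by
    intro ε c F
    funext ω
    rw [Pi.smul_apply]
    unfold DOM_F
    by_cases h : ∃ η, DOM_R r i p ε ω η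
    · simp only [dif_pos h]
      rfl
    · simp only [dif_neg h, smul_zero]
  obtain ⟨J, hJ⟩ : ∃ J : (Fn2 n m × Fn2 n m) →ₗ[ℂ] Fn2 n m, ∀ x,
      J x = DOM_F r i p false x.1 + DOM_F r i p true x.2 := by
    have ha : ∀ x y : Fn2 n m × Fn2 n m,
        DOM_F r i p false (x + y).1 + DOM_F r i p true (x + y).2 =
        DOM_F r i p false x.1 + DOM_F r i p true x.2 +
          (DOM_F r i p false y.1 + DOM_F r i p true y.2) := by
      intro x y
      rw [Prod.fst_add, Prod.snd_add, hadd, hadd]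
      abel
    have hs : ∀ (c : ℂ) (x : Fn2 n m × Fn2 n m),
        DOM_F r i p false (c • x).1 + DOM_F r i p true (c • x).2 =
        c • (DOM_F r i p false x.1 + DOM_F r i p true x.2) := by
      intro c x
      rw [Prod.smul_fst, Prod.smul_snd, hsmul, hsmul, smul_add]
    exact ⟨{ toFun := fun x => DOM_F r i p false x.1 + DOM_F r i p true x.2,
             map_add' := ha, map_smul' := hs }, fun x => rfl⟩
  refine ⟨J, ?_, ?_, ?_⟩
  · intro g x
    rw [hJ, hJ]
    funext ω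
    show DOM_F r i p false (rF2 g x.1) ω + DOM_F r i p true (rF2 g x.2) ω =
      DOM_F r i p false x.1 (actC g⁻¹ ω.1, actC g⁻¹ ω.2) +
      DOM_F r i p true x.2 (actC g⁻¹ ω.1, actC g⁻¹ ω.2)
    rw [DOM_eqv hp, DOM_eqv hp]
  · intro x ω h
    have h1 : ∃ ε η, DOM_R r i p ε ω η := by
      by_contra h'
      apply h
      have h2 : ∀ ε F, DOM_F r i p ε F ω = 0 := by
        intro ε F
        by_contra h3
        exact h' ⟨ε, DOM_ne h3⟩
      rw [hJ, Pi.add_apply, h2, h2, add_zero]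
    obtain ⟨ε, η, k, α, β, hα, hβ, rfl, -⟩ := h1
    exact hP1 i k _ (hpP α β ε hα hβ)
  · intro x hx1 hx2 hJx
    have key : ∀ α β, Sm r α → Um i β → x.1 (α, β) = 0 ∧ x.2 (α, β) = 0 := by
      intro α β hα hβ
      have hR : ∀ ε, DOM_R r i p ε (p α β ε, β) (α, β) := by
        intro ε
        refine ⟨1, α, β, hα, hβ, ?_, ?_⟩
        · rw [helper70.actC_one, helper70.actC_one]
        · rw [helper70.actC_one, helper70.actC_one]
      have hno : ∀ ε ε', ε ≠ ε' → ∀ F, DOM_F r i p ε' F (p α β ε, β) = 0 := by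
        intro ε ε' hne F
        by_contra h
        obtain ⟨η, hη⟩ := DOM_ne h
        exact hne (DOM_uniq hp (hR ε) hη).2
      constructor
      · have h1 := congrFun hJx (p α β false, β)
        rw [hJ, Pi.add_apply, hno false true (by simp), DOM_val hp (hR false), add_zero] at h1
        exact h1
      · have h1 := congrFun hJx (p α β true, β)
        rw [hJ, Pi.add_apply, hno true false (by simp), DOM_val hp (hR true), zero_add] at h1
        exact h1
    refine Prod.ext ?_ ?_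
    · funext ω
      by_contra h
      obtain ⟨h1, h2⟩ := hx1 ω h
      exact h (key ω.1 ω.2 h1 h2).1
    · funext ω
      by_contra h
      obtain ⟨h1, h2⟩ := hx2 ω h
      exact h (key ω.1 ω.2 h1 h2).2

end Pool.RookLC.Lin
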