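import Pool.Agent.Work.MP_6f78fb_lin.B_PIA

/-!
# MP_6f78fb_co, linear range: block GDA
-/

open Classical

noncomputable section

namespace Pool.RookLC.Lin

section GDA

variable {E K L : Type} {M q : ℕ} {g : GR E K L} {s : Fin M → E} {f : L → E} {I : Finset E}
  {θ : Equiv.Perm E} {k0 : K} [Fintype E] [Fintype K] [Fintype L]

theorem GDA_s (hd : Dat M q g s f I θ) : ∀ (n : ℕ) (l : Fin M), l.val = n →
    Rch (AA M g k0 s f I θ) k0 (s l) := by
  intro n
  induction n with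
  | zero =>
    intro l hl
    refine Rch.base _ ?_
    rw [AA_k0 (M_pos hd)]
    congr 3
    exact Fin.ext hl.symm
  | succ n ih =>
    intro l hl
    have hn : n < M := by
      have := l.isLt
      omega
    refine Rch.step (s ⟨n, hn⟩) _ (ih _ rfl) ?_
    have h2 : (⟨n, hn⟩ : Fin M).val + 1 < M := by
      have := l.isLt
      simp only
      omega
    rw [AA_s hd _ h2]
    congr 3
    exact Fin.ext hl.symm

theorem GDA_rch (hd : Dat M q g s f I θ) {x : E} {k : K} (h : Rch g k x) :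
    ∃ k', Rch (AA M g k0 s f I θ) k' x := by
  induction h with
  | base x h =>
    by_cases hk : k = k0
    · subst hk
      refine ⟨k, Rch.step (s (lastI hd)) _ (GDA_s hd _ _ rfl) ?_⟩
      rw [AA_last hd _ (lastI_val hd), h]
      rfl
    · refine ⟨k, Rch.base _ ?_⟩
      rw [AA_k hk, h]
      rfl
  | step x y h1 h ih =>
    obtain ⟨k', hk'⟩ := ih
    refine ⟨k', Rch.step x _ hk' ?_⟩
    rw [AA_V (SPLIT_mem.2 (Or.inl ⟨k, h1⟩)), h]
    rfl

theorem GDA_I (hd : Dat M q g s f I θ) {x : E} (hx : x ∈ I) (y : E ⊕ K) :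
    AA M g k0 s f I θ y ≠ some (Sum.inl x) := by
  intro h
  rcases PIA_arc hd h with ⟨-, hc⟩ | ⟨l, hl, -, hc⟩ | ⟨z, hz, hr⟩ | ⟨l, hl, -, hc⟩ | ⟨x', hx', -, hc⟩
  · exact hd.I_s x hx _ (Sum.inl.inj hc).symm
  · exact hd.I_s x hx _ (Sum.inl.inj hc).symm
  · rcases PIA_val hd hr hz with ⟨e, he, h1, -⟩ | ⟨l, hl, h1, -⟩
    · rw [← Sum.inl.inj h1] at he
      exact hd.I_V x hx he
    · exact hd.I_f x hx l hl (Sum.inl.inj h1).symm
  · simp at hc
  · have h1 := theta_mem hd hx'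
    rw [← Sum.inl.inj hc] at h1
    exact (mem_TT.1 h1).2.2.2 hx

theorem GDA_main (hd : Dat M q g s f I θ) : Good (AA M g k0 s f I θ) := by
  refine ⟨fun k l h => ?_, fun x hx => ?_⟩
  · by_cases hk : k = k0
    · subst hk
      rw [AA_k0 (M_pos hd)] at h
      simp at h
    · rw [AA_k hk] at h
      exact md_inr h
  · rcases kinds M g s f I x with h | ⟨l, rfl⟩ | ⟨l, hl, rfl⟩ | h | h
    · rw [AA_V h, md_none] at hx
      rcases SPLIT_mem.1 h with ⟨k, h1⟩ | h1
      · exact Or.inr (GDA_rch hd h1)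
      · exact absurd hx (SPLIT_out h1)
    · exact Or.inr ⟨k0, GDA_s hd _ _ rfl⟩
    · rw [AA_f hd hl] at hx
      simp at hx
    · exact Or.inl fun y => GDA_I hd h y
    · rw [AA_T h] at hx
      simp at hx

end GDA

theorem stmt_GDA : Stmt_GDA := by
  intro E K L _ _ _ M q g s f I θ k0 hd
  exact GDA_main hd

end Pool.RookLC.Lin
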