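import Pool.Agent.Work.MP_6f78fb_lin.B_PIA

/-!
# MP_6f78fb_co, linear range: block SMR
-/

open Classical

noncomputable section

namespace Pool.RookLC.Lin

section SMR

variable {E K L : Type} {M q : ℕ} {g : GR E K L} {s : Fin M → E} {f : L → E} {I : Finset E}
  {θ : Equiv.Perm E} {k0 : K} [Fintype E] [Fintype K] [Fintype L]

theorem SMR_sub (hd : Dat M q g s f I θ) {k : K} (hk : k ≠ k0) {x : E}
    (h : Rch (AA M g k0 s f I θ) k x) : x ∈ VV g ∨ ∃ l ∈ sinks g, f l = x := by
  have key : ∀ z' : E ⊕ K, PIA_rel hd k0 z' z' → ∀ x : E, md f (g z') = some (Sum.inl x) →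
      x ∈ VV g ∨ ∃ l ∈ sinks g, f l = x := by
    intro z' hr x hx
    rcases PIA_val hd hr hx with ⟨e, he, h1, -⟩ | ⟨l, hl, h1, -⟩
    · rw [Sum.inl.inj h1]
      exact Or.inl he
    · exact Or.inr ⟨l, hl, (Sum.inl.inj h1).symm⟩
  induction h with
  | base x h =>
    rw [AA_k hk] at h
    exact key _ (Or.inr (Or.inl ⟨k, hk, rfl, rfl⟩)) x h
  | step x y _ h ih =>
    rcases ih with hx | ⟨l, hl, rfl⟩
    · rw [AA_V hx] at h
      exact key _ (Or.inr (Or.inr ⟨x, hx, rfl, rfl⟩)) y h
    · rw [AA_f hd hl] at h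
      simp at h

theorem SMR_main (hd : Dat M q g s f I θ) {k : K} (hk : k ≠ k0) :
    (Finset.univ.filter fun x => Rch (AA M g k0 s f I θ) k x).card < M := by
  have h1 : (Finset.univ.filter fun x => Rch (AA M g k0 s f I θ) k x) ⊆
      VV g ∪ (sinks g).image f := by
    intro x hx
    rw [Finset.mem_filter] at hx
    rw [Finset.mem_union, Finset.mem_image]
    exact SMR_sub hd hk hx.2
  have h2 := (Finset.card_le_card h1).trans (Finset.card_union_le _ _)
  have h3 := Finset.card_image_le (s := sinks g) (f := f)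
  have h4 := SPLIT_V hd.ginj
  have h5 := SPLIT_sinks g
  have h6 := SPLIT_card g
  have h7 := hd.garcs
  have h8 := hd.hM
  omega

end SMR

theorem stmt_SMR : Stmt_SMR := by
  intro E K L _ _ _ M q g s f I θ k0 hd k hk
  exact SMR_main hd hk

end Pool.RookLC.Lin
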