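import Pool.Agent.Work.MP_6f78fb_lin.B_MXT
import Pool.Agent.Work.MP_6f78fb_lin.B_SMR
import Pool.Agent.Work.MP_6f78fb_lin.B_GDA

/-!
# MP_6f78fb_co, linear range: block ENA
-/

open Classical

noncomputable section

namespace Pool.RookLC.Lin

section ENA

variable {E K L : Type} {M q : ℕ} {g : GR E K L} {s : Fin M → E} {f : L → E} {I : Finset E}
  {θ : Equiv.Perm E} {k0 : K} [Fintype E] [Fintype K] [Fintype L]

theorem ENA_rule (hd : Dat M q g s f I θ) {z z' : E ⊕ K} (h : PIA_rel hd k0 z z') :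
    Rule (AA M g k0 s f I θ) (VV g) (AA M g k0 s f I θ z) (g z') := by
  rw [PIA_rel_eq hd h]
  rcases hb : g z' with _ | e | l
  · exact Or.inl ⟨rfl, rfl⟩
  · refine Or.inr (Or.inl ⟨e, ?_, rfl, rfl⟩)
    rcases PIA_val hd h (c := Sum.inl e) (by rw [hb]; rfl) with ⟨e', he', h1, -⟩ | ⟨l, hl, h1, h2⟩
    · rw [Sum.inl.inj h1]
      exact he'
    · rw [hb] at h2
      simp at h2
  · exact Or.inr (Or.inr ⟨l, f l, rfl, rfl, AA_f hd (mem_sinks.2 ⟨_, hb⟩)⟩)

theorem ENA_none (hd : Dat M q g s f I θ) {x : E} (hV : x ∉ VV g) (hs : ∀ l, s l ≠ x) :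
    g (Sum.inl x) = none := by
  rw [SPLIT_g2 hV]
  have : g2 g x = none := by
    by_contra h
    obtain ⟨l, hl⟩ := hd.s_cov x (by
      simp only [touched, Finset.mem_filter, Finset.mem_univ, true_and]
      exact Or.inl h)
    exact hs l hl
  rw [this]
  rfl

theorem ENA_main (hd : Dat M q g s f I θ) {π : Multiset ℕ → PF (Fin M) (Fin M)} {ε : Bool}
    {μ : Multiset ℕ} (hπ : ∀ l, g2 g (s l) = (π μ l).map s) (hμ : ∀ w ∈ μ, 3 ≤ w)
    (hθ : θ.cycleType = μ + (if ε then {2} else 0)) :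
    Enc M π g (AA M g k0 s f I θ) ε μ k0 s (VV g) ((sinks g).image f) (TT M g s f I) I θ where
  pinj := PIA_main hd
  s_inj := hd.s_inj
  cover x := by
    rcases kinds M g s f I x with h | h | ⟨l, hl, h⟩ | h | h
    · exact Or.inl h
    · exact Or.inr (Or.inl h)
    · exact Or.inr (Or.inr (Or.inl (Finset.mem_image.2 ⟨l, hl, h⟩)))
    · exact Or.inr (Or.inr (Or.inr (Or.inr h)))
    · exact Or.inr (Or.inr (Or.inr (Or.inl h)))
  V_s x hx l h := hd.s_V l (by rw [h]; exact hx)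
  V_T x hx h := (mem_TT.1 h).1 hx
  a_k0 l hl := by
    rw [AA_k0 (M_pos hd)]
    congr 3
    exact Fin.ext hl.symm
  a_s l l' h := by
    have h2 : l.val + 1 < M := by
      have := l'.isLt
      omega
    rw [AA_s hd _ h2]
    congr 3
    exact Fin.ext h.symm
  r_last l hl := by
    have h1 : l = lastI hd := by
      have := lastI_val hd
      exact Fin.ext (by omega)
    rw [h1]
    exact ENA_rule hd (Or.inl ⟨rfl, rfl⟩)
  r_V x hx := ENA_rule hd (Or.inr (Or.inr ⟨x, hx, rfl, rfl⟩))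
  r_K k hk := ENA_rule hd (Or.inr (Or.inl ⟨k, hk, rfl, rfl⟩))
  g_s l := by
    rw [SPLIT_g2 (hd.s_V l), hπ l, Option.map_map]
    rfl
  g_F x hx := by
    obtain ⟨l, hl, rfl⟩ := Finset.mem_image.1 hx
    exact ⟨ENA_none hd (hd.f_V l hl) (hd.f_s l hl), l, AA_f hd hl⟩
  g_T x hx := by
    have h := mem_TT.1 hx
    exact ⟨ENA_none hd h.1 h.2.1, theta_mem hd hx, AA_T hx⟩
  g_I x hx := ⟨ENA_none hd (hd.I_V x hx) (hd.I_s x hx), AA_I hd hx, GDA_I hd hx⟩
  th_fix x hx := theta_fix hd hx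
  th_type := hθ
  mu3 := hμ
  maxT T' hT := MXT_main hd hT
  small k hk := SMR_main hd hk
  viso x hx := by
    have hV : (∃ k, Rch g k x) ∨ Lds g x := SPLIT_mem.1 hx
    rcases hV with ⟨k, h⟩ | h
    · refine Or.inr ?_
      obtain ⟨y, hy⟩ := SPLIT_in h
      rcases y with y | k'
      · refine ⟨Sum.inl y, ?_⟩
        rw [AA_V ((SPLIT_iff hd.ginj hy).2 hx), hy]
        rfl
      · by_cases hk : k' = k0
        · subst hk
          refine ⟨Sum.inl (s (lastI hd)), ?_⟩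
          rw [AA_last hd _ (lastI_val hd), hy]
          rfl
        · refine ⟨Sum.inr k', ?_⟩
          rw [AA_k hk, hy]
          rfl
    · refine Or.inl ?_
      rw [AA_V hx, ne_eq, md_none]
      exact SPLIT_out h

end ENA

theorem stmt_ENA : Stmt_ENA := by
  intro E K L _ _ _ M q π ε μ g s f I θ k0 hd hπ hμ hθ
  exact ⟨VV g, (sinks g).image f, TT M g s f I, I, ENA_main hd hπ hμ hθ⟩

end Pool.RookLC.Lin
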