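import Pool.Agent.Work.MP_6f78fb_lin.Interface

/-! # Block ENC: the rigid encoding of pairs (helper75) -/

open scoped BigOperators TensorProduct
open Classical

noncomputable section

namespace Pool.RookLC.Lin

open Pool.RookLC

theorem stmt_ENC (hC : Stmt_CORE) (h1 : Stmt_TRA1) (h2 : Stmt_TRA2) (h3 : Stmt_TRA3)
    (hP : Stmt_PONE) : Stmt_ENC := by
  intro n m r i hr hnm hin h7
  have : Nonempty (Fin (n - i)) := ⟨⟨0, by omega⟩⟩
  obtain ⟨P, p1, p2⟩ := hC (Fin i) (Fin (n - i)) (Fin (m - i)) (r - 1) (by omega)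
    (by rw [Fintype.card_fin]; omega)
  have hex : ∀ β : Cf n m, ∃ z : (Fin n ≃ Fin i ⊕ Fin (n - i)) × (Fin m ≃ Fin i ⊕ Fin (m - i)),
      Um i β → toCf z.1 z.2 (stdG (Fin i) (Fin (n - i)) (Fin (m - i))) = β := by
    intro β
    by_cases hβ : Um i β
    · obtain ⟨ψ, χ, h⟩ := h1 n m i β hβ
      exact ⟨(ψ, χ), fun _ => h⟩
    · have e1 : Nonempty (Fin n ≃ Fin i ⊕ Fin (n - i)) := by
        rw [← Fintype.card_eq]
        simp only [Fintype.card_fin, Fintype.card_sum]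
        omega
      have e2 : Nonempty (Fin m ≃ Fin i ⊕ Fin (m - i)) := by
        rw [← Fintype.card_eq]
        simp only [Fintype.card_fin, Fintype.card_sum]
        omega
      exact ⟨(e1.some, e2.some), fun h => absurd h hβ⟩
  choose z hz using hex
  have hA : ∀ α β : Cf n m, ∃ A : GR (Fin i) (Fin (n - i)) (Fin (m - i)), tt α = 0 →
      toCf (z β).1 (z β).2 A = α := by
    intro α β
    by_cases hα : tt α = 0
    · obtain ⟨A, hA⟩ := (h2 n m _ _ _ (z β).1 (z β).2).2.2 α hα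
      exact ⟨A, fun _ => hA⟩
    · exact ⟨fun _ => none, fun h => absurd h hα⟩
  choose A hA using hA
  have key : ∀ α β : Cf n m, Sm r α → PInj (A α β) ∧ arcs (A α β) ≤ r - 1 := by
    intro α β hα
    obtain ⟨hv, ht, hd⟩ := hα
    obtain ⟨e1, -, e3⟩ := (h2 n m _ _ _ (z β).1 (z β).2).1 (A α β)
    rw [hA α β ht] at e1 e3
    exact ⟨e1.1 hv, by omega⟩
  refine ⟨fun α β ε => toCf (z β).1 (z β).2 (P (A α β) ε), ?_, ?_⟩
  · intro α β ε hα hβ
    obtain ⟨k1, k2⟩ := key α β hα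
    obtain ⟨q1, q2, q3⟩ := p1 (A α β) ε k1 k2
    rw [Fintype.card_fin] at q2
    have e := hP n m i (Fin (n - i)) (Fin (m - i)) (z β).1 (z β).2 (P (A α β) ε) q1 q2 q3
    rw [hz β hβ] at e
    exact e
  · intro h α β ε α' β' ε' hα hβ hα' hβ' hb hp
    obtain ⟨σ, κ, τ, e1⟩ := h3 n m _ _ _ (z β).1 (z β').1 (z β).2 (z β').2 h
      (by rw [hz β hβ, hz β' hβ']; exact hb)
    have e2 : toCf (z β').1 (z β').2 (actG σ κ τ (P (A α β) ε)) =
        toCf (z β').1 (z β').2 (P (A α' β') ε') := by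
      rw [← e1]
      exact hp
    have e3 := (h2 n m _ _ _ (z β').1 (z β').2).2.1 _ _ e2
    obtain ⟨k1, k2⟩ := key α β hα
    obtain ⟨k1', k2'⟩ := key α' β' hα'
    obtain ⟨e4, e5⟩ := p2 σ κ τ (A α β) ε (A α' β') ε' k1 k2 k1' k2' e3
    refine ⟨?_, e5⟩
    rw [← hA α β hα.2.1, e1, e4, hA α' β' hα'.2.1]

end Pool.RookLC.Lin
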