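import Pool.Agent.Work.MP_6f78fb_lin.Interface
import Pool.Agent.Work.MP_6f78fb_rk_helper70.ACT

/-!
# Block FINA: final assembly
-/

open scoped BigOperators TensorProduct
open Classical

noncomputable section

namespace Pool.RookLC.Lin

open Pool.RookLC

/-- functions of pairs with support condition -/
def FINA_sup {n m : ℕ} (P : Pr n m → Prop) : Submodule ℂ (Fn2 n m) where
  carrier := {F | ∀ ω, F ω ≠ 0 → P ω}
  zero_mem' := by intro ω h; exact absurd rfl h
  add_mem' := by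
    intro f g hf hg ω h
    by_contra hv
    have h1 : f ω = 0 := by by_contra h1; exact hv (hf ω h1)
    have h2 : g ω = 0 := by by_contra h2; exact hv (hg ω h2)
    exact h (by rw [Pi.add_apply, h1, h2, add_zero])
  smul_mem' := by
    intro c f hf ω h
    exact hf ω (fun h1 => h (by rw [Pi.smul_apply, h1, smul_zero]))

theorem FINA_act (n m : ℕ) (g h : G n m) (α : Cf n m) : actC (g * h) α = actC g (actC h α) :=
  (helper70.stmt_ACT n m).1 g h α

theorem FINA_one (n m : ℕ) (α : Cf n m) : actC (1 : G n m) α = α :=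
  (helper70.stmt_ACT n m).2.1 α

/-- the representation on functions of pairs -/
def FINA_r2 (n m : ℕ) : Representation ℂ (G n m) (Fn2 n m) where
  toFun g := rF2 g
  map_one' := by
    refine LinearMap.ext fun f => funext fun ω => ?_
    show f (actC (1 : G n m)⁻¹ ω.1, actC (1 : G n m)⁻¹ ω.2) = f ω
    rw [inv_one, FINA_one, FINA_one]
  map_mul' g k := by
    refine LinearMap.ext fun f => funext fun ω => ?_
    show f (actC (g * k)⁻¹ ω.1, actC (g * k)⁻¹ ω.2) = f (actC k⁻¹ (actC g⁻¹ ω.1), _)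
    rw [mul_inv_rev, FINA_act, FINA_act]

theorem FINA_r2_apply {n m : ℕ} (g : G n m) (F : Fn2 n m) : FINA_r2 n m g F = rF2 g F := rfl

/-- the representation on a stable subspace -/
def FINA_sub {Γ W : Type} [Group Γ] [AddCommGroup W] [Module ℂ W] (ρ : Representation ℂ Γ W)
    (S : Submodule ℂ W) (hS : ∀ g, ∀ w ∈ S, ρ g w ∈ S) : Representation ℂ Γ S where
  toFun g := (ρ g).restrict (hS g)
  map_one' := by
    refine LinearMap.ext fun x => Subtype.ext ?_
    show ρ 1 (x : W) = x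
    rw [map_one]; rfl
  map_mul' g k := by
    refine LinearMap.ext fun x => Subtype.ext ?_
    show ρ (g * k) (x : W) = ρ g (ρ k x)
    rw [map_mul]; rfl

theorem FINA_sub_coe {Γ W : Type} [Group Γ] [AddCommGroup W] [Module ℂ W]
    (ρ : Representation ℂ Γ W) (S : Submodule ℂ W) (hS : ∀ g, ∀ w ∈ S, ρ g w ∈ S) (g : Γ) (x : S) :
    ((FINA_sub ρ S hS g x : S) : W) = ρ g x := rfl

/-- the representation on `V_d` -/
def FINA_rV (n m r d : ℕ) : Representation ℂ (G n m) (V n m r d) where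
  toFun g := actV n m r d g
  map_one' := by
    refine LinearMap.ext fun x => Subtype.ext ?_
    show actR n m r 1 (x : RR n m r) = x
    obtain ⟨y, hy⟩ := Ideal.Quotient.mk_surjective (x : RR n m r)
    rw [← hy]
    show Ideal.Quotient.mk _ (actP 1 y) = _
    unfold actP
    have : (fun p : Fin n × Fin m => ((1 : G n m).1 p.1, (1 : G n m).2 p.2)) = id := by
      funext p; rfl
    rw [this, MvPolynomial.rename_id_apply]
  map_mul' g k := by
    refine LinearMap.ext fun x => Subtype.ext ?_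
    show actR n m r (g * k) (x : RR n m r) = actR n m r g (actR n m r k x)
    obtain ⟨y, hy⟩ := Ideal.Quotient.mk_surjective (x : RR n m r)
    rw [← hy]
    show Ideal.Quotient.mk _ (actP (g * k) y) = Ideal.Quotient.mk _ (actP g (actP k y))
    unfold actP
    rw [MvPolynomial.rename_rename]
    rfl

/-- the representation on `V_i ⊗ V_i` -/
def FINA_rT (n m r i : ℕ) : Representation ℂ (G n m) (V n m r i ⊗[ℂ] V n m r i) where
  toFun g := TensorProduct.map (actV n m r i g) (actV n m r i g)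
  map_one' := by
    have : actV n m r i 1 = 1 := (FINA_rV n m r i).map_one'
    rw [this, TensorProduct.map_one]
  map_mul' g k := by
    have : actV n m r i (g * k) = actV n m r i g * actV n m r i k := (FINA_rV n m r i).map_mul' g k
    rw [this, TensorProduct.map_mul]

theorem FINA_stab {n m : ℕ} {P : Pr n m → Prop} (hP : ∀ (g : G n m) ω, P ω → P (ac2 g ω)) :
    ∀ g, ∀ w ∈ FINA_sup P, FINA_r2 n m g w ∈ FINA_sup P := by
  intro g w hw ω hω
  have h1 : P (ac2 g⁻¹ ω) := hw _ hω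
  have h2 := hP g _ h1
  have h3 : ac2 g (ac2 g⁻¹ ω) = ω := by
    refine Prod.ext ?_ ?_
    · show actC g (actC g⁻¹ ω.1) = ω.1
      rw [← FINA_act, mul_inv_cancel, FINA_one]
    · show actC g (actC g⁻¹ ω.2) = ω.2
      rw [← FINA_act, mul_inv_cancel, FINA_one]
  rwa [h3] at h2

/-- apply `b` in the first variable -/
def FINA_b1 {n m : ℕ} (b : Fn n m →ₗ[ℂ] Fn n m) : Fn2 n m →ₗ[ℂ] Fn2 n m where
  toFun F := fun ω => b (fun α => F (α, ω.2)) ω.1
  map_add' F F' := by
    funext ω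
    have : (fun α => (F + F') (α, ω.2)) = (fun α => F (α, ω.2)) + fun α => F' (α, ω.2) := rfl
    rw [this, map_add]
    rfl
  map_smul' c F := by
    funext ω
    have : (fun α => (c • F) (α, ω.2)) = c • (fun α => F (α, ω.2)) := rfl
    rw [this, map_smul]
    rfl

/-- apply `b` in the second variable and exchange -/
def FINA_b2 {n m : ℕ} (b : Fn n m →ₗ[ℂ] Fn n m) : Fn2 n m →ₗ[ℂ] Fn2 n m where
  toFun F := fun ω => b (fun β => F (ω.2, β)) ω.1
  map_add' F F' := by
    funext ω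
    have : (fun α => (F + F') (ω.2, α)) = (fun α => F (ω.2, α)) + fun α => F' (ω.2, α) := rfl
    rw [this, map_add]
    rfl
  map_smul' c F := by
    funext ω
    have : (fun α => (c • F) (ω.2, α)) = c • (fun α => F (ω.2, α)) := rfl
    rw [this, map_smul]
    rfl

theorem FINA_b1_eqv {n m : ℕ} {b : Fn n m →ₗ[ℂ] Fn n m} (hb : ∀ g φ, b (rF g φ) = rF g (b φ))
    (g : G n m) (F : Fn2 n m) : FINA_b1 b (rF2 g F) = rF2 g (FINA_b1 b F) := by
  funext ω
  show b (fun α => F (actC g⁻¹ α, actC g⁻¹ ω.2)) ω.1 =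
    b (fun α => F (α, actC g⁻¹ ω.2)) (actC g⁻¹ ω.1)
  exact congrFun (hb g (fun α => F (α, actC g⁻¹ ω.2))) ω.1

theorem FINA_b2_eqv {n m : ℕ} {b : Fn n m →ₗ[ℂ] Fn n m} (hb : ∀ g φ, b (rF g φ) = rF g (b φ))
    (g : G n m) (F : Fn2 n m) : FINA_b2 b (rF2 g F) = rF2 g (FINA_b2 b F) := by
  funext ω
  show b (fun α => F (actC g⁻¹ ω.2, actC g⁻¹ α)) ω.1 =
    b (fun α => F (actC g⁻¹ ω.2, α)) (actC g⁻¹ ω.1)
  exact congrFun (hb g (fun α => F (actC g⁻¹ ω.2, α))) ω.1

theorem FINA_fin (hCC : Stmt_CC) (n m r i : ℕ) :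
    FiniteDimensional ℂ (V n m r i ⊗[ℂ] V n m r i) := by
  refine Module.Finite.of_surjective (cc n m r i i) ?_
  intro y
  obtain ⟨F, _, hy⟩ := (hCC n m r i i).2 y
  exact ⟨F, hy⟩

/-- from an embedding of the functions on `Z_{i-1} × Z_{i+1}` to the surjection -/
theorem FINA_surj (hRETR : Stmt_RETR) (hCC : Stmt_CC) (hFA : Stmt_FLIPA) (n m r i : ℕ)
    (hQ : ∀ (g : G n m) (ω : Pr n m), (Um (i - 1) ω.1 ∧ Um (i + 1) ω.2) →
      (Um (i - 1) (ac2 g ω).1 ∧ Um (i + 1) (ac2 g ω).2))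
    (h : Emb (V := ↥(FINA_sup fun ω : Pr n m => Um (i - 1) ω.1 ∧ Um (i + 1) ω.2))
      (W := V n m r i ⊗[ℂ] V n m r i) (FINA_sub (FINA_r2 n m)
        (FINA_sup fun ω : Pr n m => Um (i - 1) ω.1 ∧ Um (i + 1) ω.2) (FINA_stab hQ))
      (FINA_rT n m r i)) : Surj n m r i := by
  haveI := FINA_fin hCC n m r i
  obtain ⟨f, hf, hfe⟩ := hRETR _ _ _ _ _ h
  obtain ⟨h1, h2⟩ := hCC n m r (i - 1) (i + 1)
  refine ⟨(cc n m r (i - 1) (i + 1)) ∘ₗ (Submodule.subtype _) ∘ₗ f, ?_, ?_⟩
  · intro y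
    obtain ⟨F, hF, hy⟩ := h2 y
    obtain ⟨x, hx⟩ := hf ⟨F, hF⟩
    refine ⟨x, ?_⟩
    rw [LinearMap.comp_apply, LinearMap.comp_apply, hx]
    exact hy
  · intro g
    refine LinearMap.ext fun x => ?_
    have h3 := hfe g x
    rw [LinearMap.comp_apply, LinearMap.comp_apply, LinearMap.comp_apply, LinearMap.comp_apply,
      LinearMap.comp_apply, LinearMap.comp_apply]
    rw [← h1]
    have h4 : f ((TensorProduct.map (actV n m r i g) (actV n m r i g)) x) =
      FINA_sub (FINA_r2 n m)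
        (FINA_sup fun ω : Pr n m => Um (i - 1) ω.1 ∧ Um (i + 1) ω.2) (FINA_stab hQ) g (f x) := h3
    rw [h4]
    rfl

theorem stmt_FINA (hCANCEL : Stmt_CANCEL) (hRETR : Stmt_RETR) (hINJ0 : Stmt_INJ0)
    (hSMALL : Stmt_SMALL) (hCC : Stmt_CC) (hTJ : Stmt_TJ) (hFA : Stmt_FLIPA) (hFB : Stmt_FLIPB)
    (hDOM : Stmt_DOM) : Stmt_FINA := by
  intro n m r i hnm hi hin h7
  obtain ⟨hUe, hUs, hP1, hUm, hSm⟩ := hFA n m
  haveI := FINA_fin hCC n m r i
  have hQ : ∀ (g : G n m) (ω : Pr n m), (Um (i - 1) ω.1 ∧ Um (i + 1) ω.2) →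
      (Um (i - 1) (ac2 g ω).1 ∧ Um (i + 1) (ac2 g ω).2) :=
    fun g ω h => ⟨hUm _ g _ h.1, hUm _ g _ h.2⟩
  apply FINA_surj hRETR hCC hFA n m r i hQ
  by_cases hir : i + r ≤ n
  · -- no relations in degree `i`
    refine ⟨(cc n m r i i) ∘ₗ (Up n m) ∘ₗ (Submodule.subtype _), ?_, ?_⟩
    · refine (injective_iff_map_eq_zero _).2 ?_
      rintro ⟨f, hf⟩ h
      apply Subtype.ext
      show f = 0
      have h0 : cc n m r i i (Up n m f) = 0 := h
      have h1 := hTJ n m r i 0 (fun φ hφ hT _ => hINJ0 n m r i φ hir (by omega) hφ hT)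
        (Up n m f) (hUs i hi f hf) (fun β => rfl) (fun α => rfl) h0
      refine hFB n m i hi f hf ?_
      intro ω hω
      rw [h1] at hω
      exact absurd rfl hω
    · intro g v
      show cc n m r i i (Up n m (rF2 g (v : Fn2 n m))) = _
      rw [hUe, (hCC n m r i i).1]
      rfl
  · obtain ⟨b, hbe, hbs, hbi⟩ := hSMALL n m r i
    obtain ⟨J, hJe, hJs, hJi⟩ := hDOM n m r i (by omega) hnm hin (by omega)
    have hP : ∀ (g : G n m) (ω : Pr n m), P1 i ω → P1 i (ac2 g ω) := hP1 i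
    have hY : ∀ (g : G n m) (ω : Pr n m), (Sm r ω.1 ∧ Um i ω.2) →
        (Sm r (ac2 g ω).1 ∧ Um i (ac2 g ω).2) :=
      fun g ω h => ⟨hSm _ g _ h.1, hUm _ g _ h.2⟩
    -- the small pairs
    obtain ⟨Y, hYdef⟩ : ∃ Y : Submodule ℂ (Fn2 n m),
      Y = FINA_sup (fun ω : Pr n m => Sm r ω.1 ∧ Um i ω.2) := ⟨_, rfl⟩
    have hYm : ∀ F, F ∈ Y ↔ ∀ ω, F ω ≠ 0 → Sm r ω.1 ∧ Um i ω.2 := by
      intro F; rw [hYdef]; rfl
    have hYst : ∀ g, ∀ w ∈ Y, FINA_r2 n m g w ∈ Y := by
      rw [hYdef]; exact FINA_stab hY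
    refine hCANCEL (G n m) _ ↥(FINA_sup (fun ω : Pr n m => P1 i ω)) _ (Y × Y) _
      (FINA_sub (FINA_r2 n m) _ (FINA_stab hP)) _
      ((FINA_sub (FINA_r2 n m) Y hYst).prod (FINA_sub (FINA_r2 n m) Y hYst)) ?_ ?_
    · -- the joint embedding
      -- the pair function
      have hF : ∀ x : ↥(FINA_sup fun ω : Pr n m => Um (i - 1) ω.1 ∧ Um (i + 1) ω.2) ×
          ↥(FINA_sup (fun ω : Pr n m => P1 i ω)), ∀ ω,
          (Up n m (x.1 : Fn2 n m) + (x.2 : Fn2 n m)) ω ≠ 0 → Um i ω.1 ∧ Um i ω.2 := by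
        intro x ω hω
        by_cases h : Up n m (x.1 : Fn2 n m) ω = 0
        · have h2 : (x.2 : Fn2 n m) ω ≠ 0 := by
            intro h2
            exact hω (by rw [Pi.add_apply, h, h2, add_zero])
          have := x.2.2 ω h2
          exact ⟨this.1, this.2.1⟩
        · exact hUs i hi _ x.1.2 ω h
      have hsec1 : ∀ F : Fn2 n m, (∀ ω, F ω ≠ 0 → Um i ω.1 ∧ Um i ω.2) →
          FINA_b1 b F ∈ Y := by
        intro F hF
        rw [hYm]
        intro ω hω
        have h1 : b (fun α => F (α, ω.2)) ω.1 ≠ 0 := hω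
        refine ⟨hbs _ _ h1, ?_⟩
        by_contra hU
        apply h1
        have : (fun α => F (α, ω.2)) = 0 := by
          funext α
          by_contra h2
          exact hU (hF (α, ω.2) h2).2
        rw [this, map_zero]
        rfl
      have hsec2 : ∀ F : Fn2 n m, (∀ ω, F ω ≠ 0 → Um i ω.1 ∧ Um i ω.2) →
          FINA_b2 b F ∈ Y := by
        intro F hF
        rw [hYm]
        intro ω hω
        have h1 : b (fun β => F (ω.2, β)) ω.1 ≠ 0 := hω
        refine ⟨hbs _ _ h1, ?_⟩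
        by_contra hU
        apply h1
        have : (fun β => F (ω.2, β)) = 0 := by
          funext β
          by_contra h2
          exact hU (hF (ω.2, β) h2).1
        rw [this, map_zero]
        rfl
      -- the linear map
      obtain ⟨A, hA⟩ : ∃ A : (↥(FINA_sup fun ω : Pr n m => Um (i - 1) ω.1 ∧ Um (i + 1) ω.2) ×
          ↥(FINA_sup (fun ω : Pr n m => P1 i ω))) →ₗ[ℂ] Fn2 n m,
          ∀ x, A x = Up n m (x.1 : Fn2 n m) + (x.2 : Fn2 n m) :=
        ⟨(Up n m ∘ₗ Submodule.subtype _).coprod (Submodule.subtype _), fun x => rfl⟩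
      obtain ⟨B1, hB1⟩ : ∃ B1 : (↥(FINA_sup fun ω : Pr n m => Um (i - 1) ω.1 ∧ Um (i + 1) ω.2) ×
          ↥(FINA_sup (fun ω : Pr n m => P1 i ω))) →ₗ[ℂ] Y,
          ∀ x, ((B1 x : Y) : Fn2 n m) = FINA_b1 b (A x) :=
        ⟨LinearMap.codRestrict Y (FINA_b1 b ∘ₗ A) (fun x => hsec1 _ (by rw [hA]; exact hF x)),
          fun x => rfl⟩
      obtain ⟨B2, hB2⟩ : ∃ B2 : (↥(FINA_sup fun ω : Pr n m => Um (i - 1) ω.1 ∧ Um (i + 1) ω.2) ×
          ↥(FINA_sup (fun ω : Pr n m => P1 i ω))) →ₗ[ℂ] Y,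
          ∀ x, ((B2 x : Y) : Fn2 n m) = FINA_b2 b (A x) :=
        ⟨LinearMap.codRestrict Y (FINA_b2 b ∘ₗ A) (fun x => hsec2 _ (by rw [hA]; exact hF x)),
          fun x => rfl⟩
      refine ⟨((cc n m r i i) ∘ₗ A).prod (B1.prod B2), ?_, ?_⟩
      · refine (injective_iff_map_eq_zero _).2 ?_
        intro x hx
        have hx1 : cc n m r i i (A x) = 0 := congrArg Prod.fst hx
        have hx2 : B1 x = 0 := congrArg (fun z => z.2.1) hx
        have hx3 : B2 x = 0 := congrArg (fun z => z.2.2) hx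
        have hx2' : FINA_b1 b (A x) = 0 := by
          have := hB1 x
          rw [hx2] at this
          exact this.symm
        have hx3' : FINA_b2 b (A x) = 0 := by
          have := hB2 x
          rw [hx3] at this
          exact this.symm
        have h0 : A x = 0 := by
          refine hTJ n m r i b hbi (A x) (by rw [hA]; exact hF x) ?_ ?_ hx1
          · intro β
            funext α
            exact congrFun hx2' (α, β)
          · intro α
            funext β
            exact congrFun hx3' (β, α)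
        rw [hA] at h0
        have h1 : (x.1 : Fn2 n m) = 0 := by
          refine hFB n m i hi _ x.1.2 ?_
          intro ω hω
          have h2 : (x.2 : Fn2 n m) ω ≠ 0 := by
            intro h2
            have := congrFun h0 ω
            rw [Pi.add_apply, h2, add_zero] at this
            exact hω this
          exact x.2.2 ω h2
        have h2 : (x.2 : Fn2 n m) = 0 := by
          rw [h1, map_zero, zero_add] at h0
          exact h0
        exact Prod.ext (Subtype.ext h1) (Subtype.ext h2)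
      · intro g x
        have hAe : A (((FINA_sub (FINA_r2 n m)
            (FINA_sup fun ω : Pr n m => Um (i - 1) ω.1 ∧ Um (i + 1) ω.2) (FINA_stab hQ)).prod
            (FINA_sub (FINA_r2 n m) _ (FINA_stab hP))) g x) = rF2 g (A x) := by
          rw [hA, hA, map_add, ← hUe]
          rfl
        refine Prod.ext ?_ (Prod.ext (Subtype.ext ?_) (Subtype.ext ?_))
        · show cc n m r i i (A _) = _
          rw [hAe, (hCC n m r i i).1]
          rfl
        · show ((B1 _ : Y) : Fn2 n m) = rF2 g ((B1 x : Y) : Fn2 n m)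
          rw [hB1, hB1, hAe, FINA_b1_eqv hbe]
        · show ((B2 _ : Y) : Fn2 n m) = rF2 g ((B2 x : Y) : Fn2 n m)
          rw [hB2, hB2, hAe, FINA_b2_eqv hbe]
    · -- the small pairs embed in `P1`
      refine ⟨LinearMap.codRestrict _ (J ∘ₗ (LinearMap.prodMap (Submodule.subtype Y)
        (Submodule.subtype Y))) (fun x => hJs _), ?_, ?_⟩
      · refine (injective_iff_map_eq_zero _).2 ?_
        intro x hx
        have hx1 : J ((x.1 : Fn2 n m), (x.2 : Fn2 n m)) = 0 := congrArg Subtype.val hx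
        have h2 := hJi _ ((hYm _).1 x.1.2) ((hYm _).1 x.2.2) hx1
        exact Prod.ext (Subtype.ext (congrArg Prod.fst h2)) (Subtype.ext (congrArg Prod.snd h2))
      · intro g x
        apply Subtype.ext
        exact hJe g ((x.1 : Fn2 n m), (x.2 : Fn2 n m))

end Pool.RookLC.Lin
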