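import Pool.Agent.Work.MP_6f78fb_lin.Interface
import Pool.Agent.Work.MP_6f78fb_rk_helper49.EQV
import Pool.Agent.Work.MP_6f78fb_rk_helper70.ACT
import Pool.Agent.Work.MP_6f78fb_rk_helper94.COMPA
import Pool.Agent.Work.MP_6f78fb_rk_helper94.FM

/-!
# Block FLIPA: equivariance and support of `Up`, invariance of `P1`, `Um`, `Sm`
-/

open scoped BigOperators TensorProduct
open Classical

noncomputable section

namespace Pool.RookLC.Lin

open Pool.RookLC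

theorem FLIPA_dd1 {n m : ℕ} (κ : Finset (Fin n)) (ω : Pr n m) :
    (dd (fl κ ω).1 : ℤ) = dd ω.1 + (ch κ ω).1 := by
  have hd : ∀ α : Cf n m, (dd α : ℤ) = ∑ a, (if α a = none then (0 : ℤ) else 1) := by
    intro α
    rw [Finset.sum_ite, Finset.sum_const_zero, zero_add, Finset.sum_const, nsmul_eq_mul,
      mul_one]
    rfl
  rw [hd, hd]
  show _ = _ + ∑ a ∈ κ, ((if ω.2 a = none then (0 : ℤ) else 1) - (if ω.1 a = none then 0 else 1))
  have h1 : ∑ a ∈ κ, ((if ω.2 a = none then (0 : ℤ) else 1) - (if ω.1 a = none then 0 else 1)) =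
      ∑ a, if a ∈ κ then ((if ω.2 a = none then (0 : ℤ) else 1) -
        (if ω.1 a = none then 0 else 1)) else 0 := by
    rw [Finset.sum_ite_mem, Finset.univ_inter]
  rw [h1, ← Finset.sum_add_distrib]
  refine Finset.sum_congr rfl fun a _ => ?_
  by_cases h : a ∈ κ
  · simp only [fl, if_pos h]
    ring
  · simp only [fl, if_neg h]
    ring

theorem FLIPA_tt {n m : ℕ} {κ : Finset (Fin n)} {ω : Pr n m} (h1 : tt (fl κ ω).1 = 0)
    (h2 : tt (fl κ ω).2 = 0) : tt ω.1 = 0 ∧ tt ω.2 = 0 := by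
  have := helper94.tt_fl κ ω
  omega

theorem FLIPA_Um {n m : ℕ} (g : G n m) (i : ℕ) (α : Cf n m) : Um i (actC g α) ↔ Um i α := by
  have h := (helper70.stmt_ACT n m).2.2.1 g α
  unfold Um
  rw [h.1, h.2.1, h.2.2]

theorem FLIPA_Sm {n m : ℕ} (g : G n m) (i : ℕ) (α : Cf n m) : Sm i (actC g α) ↔ Sm i α := by
  have h := (helper70.stmt_ACT n m).2.2.1 g α
  unfold Sm
  rw [h.1, h.2.1, h.2.2]

theorem FLIPA_act {n m : ℕ} (g : G n m) (ω : Pr n m) (F : Pr n m → ℂ) :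
    ∑ κ ∈ (comps (helper49.ac2 g ω)).filter (fun κ => ch κ (helper49.ac2 g ω) = (-1, 0)),
      F (fl κ (helper49.ac2 g ω)) =
    ∑ κ ∈ (comps ω).filter (fun κ => ch κ ω = (-1, 0)), F (helper49.ac2 g (fl κ ω)) := by
  have h := helper49.sum_act g ω (1, 0) F
  have e : (-(1, 0) : ℤ × ℤ) = (-1, 0) := by simp
  rw [e] at h
  exact h

theorem stmt_FLIPA : Stmt_FLIPA := by
  intro n m
  refine ⟨?_, ?_, ?_, fun i g α h => (FLIPA_Um g i α).2 h, fun r g α h => (FLIPA_Sm g r α).2 h⟩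
  · intro g f
    funext ω
    show ∑ κ ∈ (comps ω).filter (fun κ => ch κ ω = (-1, 0)), f (helper49.ac2 g⁻¹ (fl κ ω)) =
      ∑ κ ∈ (comps (helper49.ac2 g⁻¹ ω)).filter (fun κ => ch κ (helper49.ac2 g⁻¹ ω) = (-1, 0)),
        f (fl κ (helper49.ac2 g⁻¹ ω))
    rw [FLIPA_act]
  · intro i hi f hf ω hω
    have h : ∑ κ ∈ (comps ω).filter (fun κ => ch κ ω = (-1, 0)), f (fl κ ω) ≠ 0 := hω
    obtain ⟨κ, hκ, hne⟩ := Finset.exists_ne_zero_of_sum_ne_zero h
    rw [Finset.mem_filter] at hκ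
    obtain ⟨h1, h2⟩ := hf _ hne
    obtain ⟨hv, -⟩ := helper94.comps_spec hκ.1
    obtain ⟨t1, t2⟩ := FLIPA_tt h1.2.1 h2.2.1
    have hd1 := FLIPA_dd1 κ ω
    have hd2 := helper94.dd_fl κ ω
    rw [hκ.2, h1.2.2] at hd1
    rw [h1.2.2, h2.2.2] at hd2
    simp only at hd1
    exact ⟨⟨hv.1, t1, by omega⟩, ⟨hv.2, t2, by omega⟩⟩
  · rintro i g ω ⟨h1, h2, h3, h4⟩
    have hc : comps (ac2 g ω) = (comps ω).image (fun κ => κ.map g.1.toEmbedding) :=
      helper49.comps_act g ω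
    refine ⟨(FLIPA_Um g i _).2 h1, (FLIPA_Um g i _).2 h2, ?_, ?_⟩
    · intro κ hκ hch
      rw [hc, Finset.mem_image] at hκ
      obtain ⟨κ', hκ', rfl⟩ := hκ
      have h5 : ch (κ'.map g.1.toEmbedding) (ac2 g ω) = ch κ' ω := helper49.ch_act g ω κ'
      rw [h5] at hch
      rw [Finset.card_map]
      exact h3 κ' hκ' hch
    · intro κ hκ hch
      rw [hc, Finset.mem_image] at hκ
      obtain ⟨κ', hκ', rfl⟩ := hκ
      have h5 : ch (κ'.map g.1.toEmbedding) (ac2 g ω) = ch κ' ω := helper49.ch_act g ω κ'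
      rw [h5] at hch
      rw [Finset.card_map]
      exact h4 κ' hκ' hch

end Pool.RookLC.Lin
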