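import Pool.Agent.Work.MP_6f78fb_lin.Interface
import Pool.Agent.Work.MP_6f78fb_rk_helper94.COMPA
import Pool.Agent.Work.MP_6f78fb_rk_helper98.COMPB
import Pool.Agent.Work.MP_6f78fb_rk_helper23.HL
import Pool.Agent.Work.MP_6f78fb_rk_helper23.FOPS

/-!
# Block FLIPB: the main injectivity (helper38)
-/

open scoped BigOperators TensorProduct
open Classical

noncomputable section

namespace Pool.RookLC.Lin

open Pool.RookLC

section abs

variable {Ω K : Type} (S : FS Ω K)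

/-- alternating sums over the flips of pairs -/
def FLIPB_D : List (K × K) → (Ω → ℂ) → Ω → ℂ
  | [], χ, ω => χ ω
  | p :: L, χ, ω => FLIPB_D L χ ω - FLIPB_D L χ (S.fl p.1 (S.fl p.2 ω))

/-- distinct pairs of components of charges `-v` and `v` -/
structure FLIPB_G (v : ℤ × ℤ) (L : List (K × K)) (ω : Ω) : Prop where
  c1 : ∀ p ∈ L, p.1 ∈ S.comps ω
  c2 : ∀ p ∈ L, p.2 ∈ S.comps ω
  h1 : ∀ p ∈ L, S.ch p.1 ω = -v
  h2 : ∀ p ∈ L, S.ch p.2 ω = v
  n1 : (L.map Prod.fst).Nodup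
  n2 : (L.map Prod.snd).Nodup

variable {S} {v : ℤ × ℤ}

theorem FLIPB_ne (hv : v ≠ 0) : v ≠ -v := by
  intro h
  apply hv
  have h1 := congrArg Prod.fst h
  have h2 := congrArg Prod.snd h
  simp only [Prod.fst_neg, Prod.snd_neg] at h1 h2
  ext
  · simp; omega
  · simp; omega

theorem FLIPB_12 (hv : v ≠ 0) {ω : Ω} {κ κ' : K} (h1 : S.ch κ ω = -v) (h2 : S.ch κ' ω = v) :
    κ ≠ κ' := by
  intro h
  rw [h, h2] at h1
  exact FLIPB_ne hv h1

theorem FLIPB_comps {ω : Ω} {κ κ' : K} (hc : κ ∈ S.comps ω) (hc' : κ' ∈ S.comps ω) :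
    S.comps (S.fl κ (S.fl κ' ω)) = S.comps ω := by
  have h1 := S.comps_fl ω κ' hc'
  rw [S.comps_fl (S.fl κ' ω) κ (by rw [h1]; exact hc), h1]

theorem FLIPB_ch {ω : Ω} {κ κ' l : K} (hc : κ ∈ S.comps ω) (hc' : κ' ∈ S.comps ω)
    (hl : l ∈ S.comps ω) (h1 : l ≠ κ) (h2 : l ≠ κ') :
    S.ch l (S.fl κ (S.fl κ' ω)) = S.ch l ω := by
  have h3 := S.comps_fl ω κ' hc'
  rw [S.ch_ne (S.fl κ' ω) κ l (by rw [h3]; exact hc) (by rw [h3]; exact hl) h1.symm,
    S.ch_ne ω κ' l hc' hl h2.symm]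

theorem FLIPB_ch1 {ω : Ω} {κ κ' : K} (hc : κ ∈ S.comps ω) (hc' : κ' ∈ S.comps ω)
    (h : κ ≠ κ') : S.ch κ (S.fl κ (S.fl κ' ω)) = - S.ch κ ω := by
  have h3 := S.comps_fl ω κ' hc'
  rw [S.ch_self (S.fl κ' ω) κ (by rw [h3]; exact hc), S.ch_ne ω κ' κ hc' hc h.symm]

theorem FLIPB_ch2 {ω : Ω} {κ κ' : K} (hc : κ ∈ S.comps ω) (hc' : κ' ∈ S.comps ω)
    (h : κ ≠ κ') : S.ch κ' (S.fl κ (S.fl κ' ω)) = - S.ch κ' ω := by
  rw [S.comm]
  exact FLIPB_ch1 hc' hc h.symm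

theorem FLIPB_tail {p : K × K} {L : List (K × K)} {ω : Ω} (h : FLIPB_G S v (p :: L) ω) :
    FLIPB_G S v L ω :=
  ⟨fun q hq => h.c1 q (List.mem_cons_of_mem _ hq), fun q hq => h.c2 q (List.mem_cons_of_mem _ hq),
    fun q hq => h.h1 q (List.mem_cons_of_mem _ hq), fun q hq => h.h2 q (List.mem_cons_of_mem _ hq),
    (List.nodup_cons.mp h.n1).2, (List.nodup_cons.mp h.n2).2⟩

theorem FLIPB_d1 {p : K × K} {L : List (K × K)} {ω : Ω} (h : FLIPB_G S v (p :: L) ω) :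
    ∀ q ∈ L, p.1 ≠ q.1 := by
  intro q hq he
  have := (List.nodup_cons.mp h.n1).1
  apply this
  rw [he]
  exact List.mem_map_of_mem hq

theorem FLIPB_d2 {p : K × K} {L : List (K × K)} {ω : Ω} (h : FLIPB_G S v (p :: L) ω) :
    ∀ q ∈ L, p.2 ≠ q.2 := by
  intro q hq he
  have := (List.nodup_cons.mp h.n2).1
  apply this
  rw [he]
  exact List.mem_map_of_mem hq

theorem FLIPB_step (hv : v ≠ 0) {p : K × K} {L : List (K × K)} {ω : Ω}
    (h : FLIPB_G S v (p :: L) ω) : FLIPB_G S v L (S.fl p.1 (S.fl p.2 ω)) := by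
  have hp1 := h.c1 p List.mem_cons_self
  have hp2 := h.c2 p List.mem_cons_self
  have k1 := h.h1 p List.mem_cons_self
  have k2 := h.h2 p List.mem_cons_self
  have ht := FLIPB_tail h
  refine ⟨?_, ?_, ?_, ?_, ht.n1, ht.n2⟩
  · intro q hq
    rw [FLIPB_comps hp1 hp2]
    exact ht.c1 q hq
  · intro q hq
    rw [FLIPB_comps hp1 hp2]
    exact ht.c2 q hq
  · intro q hq
    rw [FLIPB_ch hp1 hp2 (ht.c1 q hq) (FLIPB_d1 h q hq).symm (FLIPB_12 hv (ht.h1 q hq) k2)]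
    exact ht.h1 q hq
  · intro q hq
    rw [FLIPB_ch hp1 hp2 (ht.c2 q hq) (FLIPB_12 hv k1 (ht.h2 q hq)).symm (FLIPB_d2 h q hq).symm]
    exact ht.h2 q hq

/-- the flips commute with the alternating sum -/
theorem FLIPB_comm (L : List (K × K)) (χ : Ω → ℂ) (κ κ' : K) : ∀ ω : Ω,
    FLIPB_D S L χ (S.fl κ (S.fl κ' ω)) = FLIPB_D S L (fun ω' => χ (S.fl κ (S.fl κ' ω'))) ω := by
  induction L with
  | nil => intro ω; rfl
  | cons p L ih =>
    intro ω
    show FLIPB_D S L χ (S.fl κ (S.fl κ' ω)) -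
      FLIPB_D S L χ (S.fl p.1 (S.fl p.2 (S.fl κ (S.fl κ' ω)))) = _
    have e : S.fl p.1 (S.fl p.2 (S.fl κ (S.fl κ' ω))) =
        S.fl κ (S.fl κ' (S.fl p.1 (S.fl p.2 ω))) := by
      rw [S.comm p.2 κ, S.comm p.2 κ', S.comm p.1 κ, S.comm p.1 κ']
    rw [e, ih, ih]
    rfl

/-- the cancellation -/
theorem FLIPB_A (hv : v ≠ 0) (f : Ω → ℂ) (L : List (K × K)) : ∀ ω : Ω, FLIPB_G S v L ω →
    FLIPB_D S L (S.Op v f) ω =
      ∑ l ∈ (S.comps ω).filter (fun l => S.ch l ω = -v ∧ ∀ p ∈ L, l ≠ p.1),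
        FLIPB_D S L (fun ω' => f (S.fl l ω')) ω := by
  induction L with
  | nil =>
    intro ω _
    show ∑ κ ∈ (S.comps ω).filter (fun κ => S.ch κ ω = -v), f (S.fl κ ω) = _
    refine Finset.sum_congr ?_ fun _ _ => rfl
    ext l
    simp
  | cons p L ih =>
    intro ω h
    have hp1 := h.c1 p List.mem_cons_self
    have hp2 := h.c2 p List.mem_cons_self
    have k1 := h.h1 p List.mem_cons_self
    have k2 := h.h2 p List.mem_cons_self
    have hne := FLIPB_12 hv k1 k2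
    have ht := FLIPB_tail h
    set T := S.fl p.1 (S.fl p.2 ω) with hT
    set A := (S.comps ω).filter (fun l => S.ch l ω = -v ∧ ∀ q ∈ p :: L, l ≠ q.1) with hA
    have hA1 : (S.comps ω).filter (fun l => S.ch l ω = -v ∧ ∀ q ∈ L, l ≠ q.1) =
        insert p.1 A := by
      ext l
      rw [Finset.mem_insert, hA, Finset.mem_filter, Finset.mem_filter]
      constructor
      · rintro ⟨a1, a2, a3⟩
        by_cases hl : l = p.1
        · exact Or.inl hl
        · refine Or.inr ⟨a1, a2, fun q hq => ?_⟩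
          rcases List.mem_cons.mp hq with rfl | hq
          · exact hl
          · exact a3 q hq
      · rintro (rfl | ⟨a1, a2, a3⟩)
        · exact ⟨hp1, k1, FLIPB_d1 h⟩
        · exact ⟨a1, a2, fun q hq => a3 q (List.mem_cons_of_mem _ hq)⟩
    have hA2 : (S.comps T).filter (fun l => S.ch l T = -v ∧ ∀ q ∈ L, l ≠ q.1) =
        insert p.2 A := by
      rw [hT, FLIPB_comps hp1 hp2]
      ext l
      rw [Finset.mem_insert, hA, Finset.mem_filter, Finset.mem_filter]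
      constructor
      · rintro ⟨a1, a2, a3⟩
        by_cases hl2 : l = p.2
        · exact Or.inl hl2
        · have hl1 : l ≠ p.1 := by
            intro hl1
            rw [hl1, FLIPB_ch1 hp1 hp2 hne, k1, neg_neg] at a2
            exact FLIPB_ne hv a2
          rw [FLIPB_ch hp1 hp2 a1 hl1 hl2] at a2
          refine Or.inr ⟨a1, a2, fun q hq => ?_⟩
          rcases List.mem_cons.mp hq with rfl | hq
          · exact hl1
          · exact a3 q hq
      · rintro (rfl | ⟨a1, a2, a3⟩)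
        · refine ⟨hp2, ?_, ?_⟩
          · rw [FLIPB_ch2 hp1 hp2 hne, k2]
          · intro q hq
            exact (FLIPB_12 hv (ht.h1 q hq) k2).symm
        · refine ⟨a1, ?_, fun q hq => a3 q (List.mem_cons_of_mem _ hq)⟩
          rw [FLIPB_ch hp1 hp2 a1 (a3 p List.mem_cons_self) (FLIPB_12 hv a2 k2)]
          exact a2
    have hn1 : p.1 ∉ A := by
      rw [hA, Finset.mem_filter]
      rintro ⟨-, -, a3⟩
      exact a3 p List.mem_cons_self rfl
    have hn2 : p.2 ∉ A := by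
      rw [hA, Finset.mem_filter]
      rintro ⟨-, a2, -⟩
      rw [k2] at a2
      exact FLIPB_ne hv a2
    show FLIPB_D S L (S.Op v f) ω - FLIPB_D S L (S.Op v f) T = _
    rw [ih ω ht, ih T (FLIPB_step hv h), hA1, hA2, Finset.sum_insert hn1, Finset.sum_insert hn2]
    have e1 : FLIPB_D S L (fun ω' => f (S.fl p.2 ω')) T =
        FLIPB_D S L (fun ω' => f (S.fl p.1 ω')) ω := by
      rw [hT, FLIPB_comm]
      congr 1
      funext ω'
      rw [S.comm p.2 p.1, S.fl_fl]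
    have e2 : ∑ l ∈ A, FLIPB_D S (p :: L) (fun ω' => f (S.fl l ω')) ω =
        ∑ l ∈ A, FLIPB_D S L (fun ω' => f (S.fl l ω')) ω -
          ∑ l ∈ A, FLIPB_D S L (fun ω' => f (S.fl l ω')) T := by
      rw [← Finset.sum_sub_distrib]
      rfl
    rw [e1, e2]
    ring

/-- bad configurations -/
theorem FLIPB_2a (hv : v ≠ 0) (Q : K → Prop) (χ : Ω → ℂ)
    (hχ : ∀ ω, (∃ l ∈ S.comps ω, S.ch l ω = v ∧ Q l) → χ ω = 0) (L : List (K × K)) :
    ∀ (ω : Ω) (l : K), FLIPB_G S v L ω → l ∈ S.comps ω → S.ch l ω = v → Q l →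
    (∀ p ∈ L, l ≠ p.1 ∧ l ≠ p.2) → FLIPB_D S L χ ω = 0 := by
  induction L with
  | nil => intro ω l _ h1 h2 h3 _; exact hχ ω ⟨l, h1, h2, h3⟩
  | cons p L ih =>
    intro ω l h h1 h2 h3 h4
    have hp1 := h.c1 p List.mem_cons_self
    have hp2 := h.c2 p List.mem_cons_self
    have h5 := h4 p List.mem_cons_self
    have h6 : ∀ q ∈ L, l ≠ q.1 ∧ l ≠ q.2 := fun q hq => h4 q (List.mem_cons_of_mem _ hq)
    show FLIPB_D S L χ ω - FLIPB_D S L χ (S.fl p.1 (S.fl p.2 ω)) = 0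
    rw [ih ω l (FLIPB_tail h) h1 h2 h3 h6, ih _ l (FLIPB_step hv h)
      (by rw [FLIPB_comps hp1 hp2]; exact h1)
      (by rw [FLIPB_ch hp1 hp2 h1 h5.1 h5.2]; exact h2) h3 h6, sub_zero]

theorem FLIPB_2b (hv : v ≠ 0) (Q : K → Prop) (χ : Ω → ℂ)
    (hχ : ∀ ω, (∃ l ∈ S.comps ω, S.ch l ω = v ∧ Q l) → χ ω = 0) (L : List (K × K)) :
    ∀ (ω : Ω), FLIPB_G S v L ω → (∀ p ∈ L, Q p.1) → FLIPB_D S L χ ω = χ ω := by
  induction L with
  | nil => intro ω _ _; rfl
  | cons p L ih =>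
    intro ω h h3
    have hp1 := h.c1 p List.mem_cons_self
    have hp2 := h.c2 p List.mem_cons_self
    have k1 := h.h1 p List.mem_cons_self
    have k2 := h.h2 p List.mem_cons_self
    show FLIPB_D S L χ ω - FLIPB_D S L χ (S.fl p.1 (S.fl p.2 ω)) = χ ω
    rw [ih ω (FLIPB_tail h) (fun q hq => h3 q (List.mem_cons_of_mem _ hq)),
      FLIPB_2a hv Q χ hχ L _ p.1 (FLIPB_step hv h) (by rw [FLIPB_comps hp1 hp2]; exact hp1)
      (by rw [FLIPB_ch1 hp1 hp2 (FLIPB_12 hv k1 k2), k1, neg_neg]) (h3 p List.mem_cons_self)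
      (fun q hq => ⟨FLIPB_d1 h q hq, FLIPB_12 hv k1 ((FLIPB_tail h).h2 q hq)⟩), sub_zero]

/-- the abstract vanishing -/
theorem FLIPB_abs (hv : v ≠ 0) (Q : K → Prop) (f : Ω → ℂ)
    (hχ : ∀ ω, (∃ l ∈ S.comps ω, S.ch l ω = v ∧ Q l) → S.Op v f ω = 0) (ω : Ω)
    (hQ : ∀ l ∈ S.comps ω, S.ch l ω = -v → Q l)
    (hcard : ((S.comps ω).filter fun l => S.ch l ω = -v).card =
      ((S.comps ω).filter fun l => S.ch l ω = v).card) : S.Op v f ω = 0 := by
  set X := (S.comps ω).filter fun l => S.ch l ω = -v with hX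
  set Y := (S.comps ω).filter fun l => S.ch l ω = v with hY
  have hlen : X.toList.length = Y.toList.length := by
    rw [Finset.length_toList, Finset.length_toList, hcard]
  have hfst : (X.toList.zip Y.toList).map Prod.fst = X.toList :=
    List.map_fst_zip (le_of_eq hlen)
  have hsnd : (X.toList.zip Y.toList).map Prod.snd = Y.toList :=
    List.map_snd_zip (le_of_eq hlen.symm)
  have m1 : ∀ p ∈ X.toList.zip Y.toList, p.1 ∈ X := by
    intro p hp
    have : p.1 ∈ (X.toList.zip Y.toList).map Prod.fst := List.mem_map_of_mem hp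
    rw [hfst, Finset.mem_toList] at this
    exact this
  have m2 : ∀ p ∈ X.toList.zip Y.toList, p.2 ∈ Y := by
    intro p hp
    have : p.2 ∈ (X.toList.zip Y.toList).map Prod.snd := List.mem_map_of_mem hp
    rw [hsnd, Finset.mem_toList] at this
    exact this
  have hG : FLIPB_G S v (X.toList.zip Y.toList) ω := by
    refine ⟨fun p hp => (Finset.mem_filter.mp (m1 p hp)).1,
      fun p hp => (Finset.mem_filter.mp (m2 p hp)).1,
      fun p hp => (Finset.mem_filter.mp (m1 p hp)).2,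
      fun p hp => (Finset.mem_filter.mp (m2 p hp)).2, ?_, ?_⟩
    · rw [hfst]
      exact X.nodup_toList
    · rw [hsnd]
      exact Y.nodup_toList
  have e1 := FLIPB_2b hv Q (S.Op v f) hχ _ ω hG
    (fun p hp => hQ p.1 (hG.c1 p hp) (hG.h1 p hp))
  have e2 := FLIPB_A hv f _ ω hG
  rw [← e1, e2]
  apply Finset.sum_eq_zero
  intro l hl
  exfalso
  rw [Finset.mem_filter] at hl
  have hlX : l ∈ X := by
    rw [hX, Finset.mem_filter]
    exact ⟨hl.1, hl.2.1⟩
  have h3 : l ∈ (X.toList.zip Y.toList).map Prod.fst := by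
    rw [hfst, Finset.mem_toList]
    exact hlX
  obtain ⟨p, hp, hpl⟩ := List.mem_map.mp h3
  exact hl.2.2 p hp hpl.symm

end abs

/-- charges of unmarked pairs -/
theorem FLIPB_ch3 {n m : ℕ} (ω : Pr n m) (t1 : tt ω.1 = 0) (t2 : tt ω.2 = 0)
    (κ : Finset (Fin n)) (hκ : κ ∈ comps ω) :
    ch κ ω = 0 ∨ ch κ ω = (1, 0) ∨ ch κ ω = (-1, 0) := by
  have h0 : ∀ α : Cf n m, tt α = 0 → ∀ a, α a ≠ some none := by
    intro α hα a ha
    unfold tt at hα
    rw [Finset.card_eq_zero] at hα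
    have : a ∈ Finset.univ.filter fun a => α a = some none := by simp [ha]
    rw [hα] at this
    simp at this
  have h2 : (ch κ ω).2 = 0 := by
    unfold ch
    apply Finset.sum_eq_zero
    intro a _
    rw [if_neg (h0 _ t2 a), if_neg (h0 _ t1 a), sub_self]
  rcases (helper98.stmt_COMPB n m ω).1 κ hκ with h | h | h | h | h | h | h
  · exact Or.inl h
  · exact Or.inr (Or.inl h)
  · exact Or.inr (Or.inr h)
  all_goals
    rw [h] at h2
    simp at h2

theorem FLIPB_count {n m : ℕ} (ω : Pr n m) (hv : Valid2 ω) (t1 : tt ω.1 = 0)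
    (t2 : tt ω.2 = 0) :
    (((comps ω).filter fun l => ch l ω = (1, 0)).card : ℤ) -
      ((comps ω).filter fun l => ch l ω = (-1, 0)).card = (dd ω.2 : ℤ) - dd ω.1 := by
  have h1 := congrArg Prod.fst ((helper98.stmt_COMPB n m ω).2 hv)
  rw [Prod.fst_sum] at h1
  simp only at h1
  rw [← h1]
  have h2 : ∀ κ ∈ comps ω, (ch κ ω).1 = (if ch κ ω = (1, 0) then (1 : ℤ) else 0) -
      (if ch κ ω = (-1, 0) then (1 : ℤ) else 0) := by
    intro κ hκ
    rcases FLIPB_ch3 ω t1 t2 κ hκ with h | h | h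
    · rw [h, if_neg (fun hc => absurd (congrArg Prod.fst hc) (by simp)),
        if_neg (fun hc => absurd (congrArg Prod.fst hc) (by simp))]
      simp
    · rw [h]
      simp
    · rw [h]
      simp
  rw [Finset.sum_congr rfl h2, Finset.sum_sub_distrib, Finset.sum_boole, Finset.sum_boole]

theorem stmt_FLIPB : Stmt_FLIPB := by
  intro n m i hi f hf hUp
  have hneg : (-(1, 0) : ℤ × ℤ) = (-1, 0) := by simp
  have hv0 : ((1, 0) : ℤ × ℤ) ≠ 0 := by simp
  set S := helper94.sys n m with hS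
  have hOp : ∀ ω, S.Op (1, 0) f ω = Up n m f ω := by
    intro ω
    show ∑ κ ∈ (comps ω).filter (fun κ => ch κ ω = -(1, 0)), f (fl κ ω) =
      ∑ κ ∈ (comps ω).filter (fun κ => ch κ ω = (-1, 0)), f (fl κ ω)
    rw [hneg]
  have hbad : ∀ ω, (∃ l ∈ S.comps ω, S.ch l ω = (1, 0) ∧ l.card ≠ 1) →
      S.Op (1, 0) f ω = 0 := by
    rintro ω ⟨l, h1, h2, h3⟩
    rw [hOp]
    by_contra hc
    exact h3 ((hUp ω hc).2.2.1 l h1 h2)
  have hzero : ∀ ω, S.Op (1, 0) f ω = 0 := by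
    intro ω
    by_contra hc
    have hP := hUp ω (by rw [← hOp]; exact hc)
    apply hc
    refine FLIPB_abs hv0 (fun l => l.card ≠ 1) f hbad ω ?_ ?_
    · intro l h1 h2
      rw [hneg] at h2
      exact hP.2.2.2 l h1 h2
    · have h3 := FLIPB_count ω ⟨hP.1.1, hP.2.1.1⟩ hP.1.2.1 hP.2.1.2.1
      rw [hP.1.2.2, hP.2.1.2.2, sub_self] at h3
      rw [hneg]
      show ((comps ω).filter fun l => ch l ω = (-1, 0)).card =
        ((comps ω).filter fun l => ch l ω = (1, 0)).card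
      omega
  refine helper23.stmt_HL (Pr n m) (Finset (Fin n)) S (1, 0) 2 1 hv0 (by norm_num) f ?_ ?_
  · intro ω hω
    obtain ⟨h1, h2⟩ := hf ω hω
    have h3 := FLIPB_count ω ⟨h1.1, h2.1⟩ h1.2.1 h2.2.1
    rw [h1.2.2, h2.2.2] at h3
    show (((comps ω).filter fun l => ch l ω = (1, 0)).card : ℤ) -
      ((comps ω).filter fun l => ch l ω = -(1, 0)).card = 2
    rw [hneg, h3]
    omega
  · rw [pow_one]
    funext ω
    exact hzero ω

end Pool.RookLC.Lin
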