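import Pool.Agent.Work.MP_6f78fb_lin.Interface
import Pool.Agent.Work.MP_6f78fb_rk_helper83.THIa
import Pool.Agent.Work.MP_6f78fb_rk_helper83.RG

/-! Block INJ0: no relations in degrees `i ≤ min n m - r`. -/

open scoped BigOperators TensorProduct
open Classical

noncomputable section

namespace Pool.RookLC.Lin

open Pool.RookLC Pool.RookLC.helper83

theorem INJ0_unm {n m : ℕ} {α : Cf n m} (h : tt α = 0) (a : Fin n) : α a ≠ some none := by
  intro ha
  unfold tt at h
  rw [Finset.card_eq_zero] at h
  have : a ∈ Finset.univ.filter (fun a => α a = some none) :=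
    Finset.mem_filter.2 ⟨Finset.mem_univ _, ha⟩
  rw [h] at this
  exact absurd this (Finset.notMem_empty a)

theorem stmt_INJ0 (hRG : Stmt_RG) : Stmt_INJ0 := by
  intro n m r i φ hn hm hsup hTh
  by_contra hφ0
  obtain ⟨α0, hα0⟩ : ∃ α, φ α ≠ 0 := by
    by_contra h
    push Not at h
    exact hφ0 (funext h)
  obtain ⟨hv0, ht0, hd0⟩ := hsup α0 hα0
  obtain ⟨q, hq, hv⟩ := (hRG n m (UZ n m r) i (Th n m φ)
    (Th_homog φ i (fun α h => (hsup α h).2.2))).1 hTh
  obtain ⟨N, hN⟩ : ∃ N, N = supp α0 := ⟨_, rfl⟩
  have hNmem : ∀ a, a ∈ N ↔ α0 a ≠ none := by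
    intro a
    rw [hN]
    simp [supp]
  have hNcard : N.card = i := by
    rw [hN]
    exact hd0
  have hunm0 := INJ0_unm ht0
  -- the columns of `α0`
  have hcols : (cols α0).card ≤ i := by
    have h1 : cols α0 ⊆ N.biUnion (fun a => Finset.univ.filter (fun j => α0 a = some (some j))) := by
      intro j hj
      obtain ⟨a, ha⟩ := (Finset.mem_filter.1 hj).2
      rw [Finset.mem_biUnion]
      refine ⟨a, (hNmem a).2 (by rw [ha]; simp), Finset.mem_filter.2 ⟨Finset.mem_univ _, ha⟩⟩
    refine (Finset.card_le_card h1).trans ?_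
    have h2 := Finset.card_biUnion_le_card_mul N
      (fun a => Finset.univ.filter (fun j => α0 a = some (some j))) 1 (by
        intro a _
        rw [Finset.card_le_one]
        intro j hj k hk
        have e1 := (Finset.mem_filter.1 hj).2
        have e2 := (Finset.mem_filter.1 hk).2
        rw [e1] at e2
        simpa using e2)
    omega
  -- the additional rows
  obtain ⟨A, hA1, hA2⟩ := Finset.exists_subset_card_eq (s := Nᶜ) (n := r) (by
    rw [Finset.card_compl, Fintype.card_fin, hNcard]
    omega)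
  obtain ⟨zz, hz1, hz2, hz3⟩ := exists_zz A (cols α0) (by rw [hA2]; omega)
  obtain ⟨s1, hs1N, hs1C⟩ : ∃ s1 : Fin n → St m, (∀ a ∈ N, s1 a = α0 a) ∧
      ∀ a, a ∉ N → s1 a = (zz a).map some :=
    ⟨fun a => if a ∈ N then α0 a else (zz a).map some, fun a h => by simp [h],
      fun a h => by simp [h]⟩
  obtain ⟨s2, hs2N, hs2C⟩ : ∃ s2 : Fin n → St m, (∀ a ∈ N, s2 a = none) ∧
      ∀ a, a ∉ N → s2 a = (zz a).map some :=
    ⟨fun a => if a ∈ N then none else (zz a).map some, fun a h => by simp [h],
      fun a h => by simp [h]⟩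
  have hst : ∀ S a j, tog s1 s2 S a = some (some j) →
      (a ∈ N ∧ α0 a = some (some j)) ∨ (a ∉ N ∧ zz a = some j) := by
    intro S a j h
    unfold tog at h
    by_cases haN : a ∈ N
    · refine Or.inl ⟨haN, ?_⟩
      split_ifs at h
      · rw [hs2N a haN] at h
        simp at h
      · rw [hs1N a haN] at h
        exact h
    · refine Or.inr ⟨haN, ?_⟩
      split_ifs at h
      · rw [hs2C a haN] at h
        simpa using h
      · rw [hs1C a haN] at h
        simpa using h
  have hcol : ∀ a j, α0 a = some (some j) → j ∈ cols α0 := fun a j h =>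
    Finset.mem_filter.2 ⟨Finset.mem_univ _, a, h⟩
  have hvalid : ∀ S, Valid (tog s1 s2 S) := by
    intro S a b j ha hb
    rcases hst S a j ha with ⟨_, h1⟩ | ⟨_, h1⟩
    · rcases hst S b j hb with ⟨_, h2⟩ | ⟨_, h2⟩
      · exact hv0 a b j h1 h2
      · exact absurd (hcol a j h1) (hz3 b j h2)
    · rcases hst S b j hb with ⟨_, h2⟩ | ⟨_, h2⟩
      · exact absurd (hcol b j h2) (hz3 a j h1)
      · exact hz2 a b j h1 h2
  have hunm : ∀ S a, tog s1 s2 S a ≠ some none := by
    intro S a h
    unfold tog at h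
    by_cases haN : a ∈ N
    · split_ifs at h
      · rw [hs2N a haN] at h; simp at h
      · rw [hs1N a haN] at h; exact hunm0 a h
    · split_ifs at h
      · rw [hs2C a haN] at h
        rcases hza : zz a with _ | j
        · rw [hza] at h; simp at h
        · rw [hza] at h; simp at h
      · rw [hs1C a haN] at h
        rcases hza : zz a with _ | j
        · rw [hza] at h; simp at h
        · rw [hza] at h; simp at h
  have hdd : ∀ S, r ≤ dd (tog s1 s2 S) := by
    intro S
    rw [← hA2]
    unfold dd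
    refine Finset.card_le_card ?_
    intro a ha
    have haN : a ∉ N := Finset.mem_compl.1 (hA1 ha)
    have h2 := (hz1 a).1 ha
    rw [Finset.mem_filter]
    refine ⟨Finset.mem_univ _, ?_⟩
    unfold tog
    split_ifs
    · rw [hs2C a haN]
      intro h3
      exact h2 (by simpa using h3)
    · rw [hs1C a haN]
      intro h3
      exact h2 (by simpa using h3)
  have hmem : ∀ S, mat (tog s1 s2 S) ∈ UZ n m r := fun S => mat_mem _ r (hvalid S) (hunm S) (hdd S)
  -- the alternating sum
  have hsum : ∑ S ∈ N.powerset, (-1 : ℂ) ^ S.card *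
      MvPolynomial.eval (mat (tog s1 s2 S)) (Th n m φ) = 0 := by
    have h1 : ∀ S ∈ N.powerset, (-1 : ℂ) ^ S.card *
        MvPolynomial.eval (mat (tog s1 s2 S)) (Th n m φ) =
        - ((-1 : ℂ) ^ S.card * MvPolynomial.eval (mat (tog s1 s2 S)) q) := by
      intro S _
      have h2 := hv _ (hmem S)
      rw [map_add] at h2
      rw [eq_neg_of_add_eq_zero_left h2]
      ring
    rw [Finset.sum_congr rfl h1, Finset.sum_neg_distrib, neg_eq_zero]
    rcases hq with rfl | hq
    · simp
    · exact alt_poly N s1 s2 q (by rw [hNcard]; exact hq)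
  have hsum2 : ∑ α : Cf n m, φ α * ((∏ a ∈ Nᶜ, ev (α a) (s1 a)) *
      ∏ a ∈ N, (ev (α a) (s1 a) - ev (α a) (s2 a))) = 0 := by
    rw [← hsum]
    have h1 : ∀ S ∈ N.powerset, (-1 : ℂ) ^ S.card *
        MvPolynomial.eval (mat (tog s1 s2 S)) (Th n m φ) =
        ∑ α : Cf n m, φ α * ((-1 : ℂ) ^ S.card *
          ∏ a, (if a ∈ S then ev (α a) (s2 a) else ev (α a) (s1 a))) := by
      intro S _
      rw [eval_Th, Finset.mul_sum]
      refine Finset.sum_congr rfl (fun α _ => ?_)
      have h2 : ∏ a, ev (α a) (tog s1 s2 S a) =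
          ∏ a, (if a ∈ S then ev (α a) (s2 a) else ev (α a) (s1 a)) := by
        refine Finset.prod_congr rfl (fun a _ => ?_)
        unfold tog
        split_ifs <;> rfl
      rw [h2]
      ring
    rw [Finset.sum_congr rfl h1, Finset.sum_comm]
    refine Finset.sum_congr rfl (fun α _ => ?_)
    rw [← Finset.mul_sum, alt_prod]
  rw [Finset.sum_eq_single α0] at hsum2
  · -- the coefficient of `α0` is one
    have h1 : ∏ a ∈ Nᶜ, ev (α0 a) (s1 a) = 1 := by
      refine Finset.prod_eq_one (fun a ha => ?_)
      have h2 : α0 a = none := by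
        by_contra h3
        exact Finset.mem_compl.1 ha ((hNmem a).2 h3)
      rw [h2, ev_none]
    have h2 : ∏ a ∈ N, (ev (α0 a) (s1 a) - ev (α0 a) (s2 a)) = 1 := by
      refine Finset.prod_eq_one (fun a ha => ?_)
      rw [hs1N a ha, hs2N a ha]
      rcases hs : α0 a with _ | _ | j
      · exact absurd hs ((hNmem a).1 ha)
      · exact absurd hs (hunm0 a)
      · rw [ev_rook, ev_rook]
        simp
    rw [h1, h2, one_mul, mul_one] at hsum2
    exact hα0 hsum2
  · intro α _ hne
    by_contra hne0
    have hg0 : φ α ≠ 0 := fun h => hne0 (by rw [h, zero_mul])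
    obtain ⟨_, ht, hd⟩ := hsup α hg0
    have hp0 : ∏ a ∈ N, (ev (α a) (s1 a) - ev (α a) (s2 a)) ≠ 0 :=
      fun h => hne0 (by rw [h, mul_zero, mul_zero])
    rw [Finset.prod_ne_zero_iff] at hp0
    have hnn : ∀ a ∈ N, α a ≠ none := by
      intro a ha h
      apply hp0 a ha
      rw [h, ev_none, ev_none, sub_self]
    have hsupp : supp α = N := by
      symm
      refine Finset.eq_of_subset_of_card_le ?_ ?_
      · intro a ha
        exact Finset.mem_filter.2 ⟨Finset.mem_univ _, hnn a ha⟩
      · rw [hNcard, ← hd]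
        exact le_rfl
    apply hne
    funext a
    by_cases haN : a ∈ N
    · have h1 := hp0 a haN
      rw [hs1N a haN, hs2N a haN] at h1
      rcases hs : α a with _ | _ | j
      · exact absurd hs (hnn a haN)
      · exact absurd hs (INJ0_unm ht a)
      · rw [hs, ev_rook, ev_rook] at h1
        by_cases h2 : α0 a = some (some j)
        · exact h2.symm
        · exfalso
          apply h1
          rw [if_neg h2]
          simp
    · have h1 : α0 a = none := by
        by_contra h3
        exact haN ((hNmem a).2 h3)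
      rw [h1]
      by_contra h3
      have h4 : a ∈ supp α := Finset.mem_filter.2 ⟨Finset.mem_univ _, h3⟩
      rw [hsupp] at h4
      exact haN h4
  · intro h
    exact absurd (Finset.mem_univ α0) h

end Pool.RookLC.Lin
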