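import Pool.Agent.Work.MP_6f78fb_lin.B_PIA

/-!
# MP_6f78fb_co, linear range: block MXT
-/

open Classical

noncomputable section

namespace Pool.RookLC.Lin

section MXT

variable {E K L : Type} {M q : ℕ} {g : GR E K L} {s : Fin M → E} {f : L → E} {I : Finset E}
  {θ : Equiv.Perm E} {k0 : K}

/-- a closed set of an injective graph is mapped onto itself -/
theorem MXT_onto {A : GR E K L} (hA : PInj A) {T : Finset E} (hT : Clo A T) :
    ∀ y ∈ T, ∃ x ∈ T, A (Sum.inl x) = some (Sum.inl y) := by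
  have hex : ∀ x : E, ∃ y : E, x ∈ T → y ∈ T ∧ A (Sum.inl x) = some (Sum.inl y) := by
    intro x
    by_cases hx : x ∈ T
    · obtain ⟨y, hy, h⟩ := hT x hx
      exact ⟨y, fun _ => ⟨hy, h⟩⟩
    · exact ⟨x, fun h => absurd h hx⟩
  choose φ hφ using hex
  intro y hy
  have h1 : Set.SurjOn φ (T : Set E) (T : Set E) := by
    have hmaps : Set.MapsTo φ (T : Set E) (T : Set E) := fun x hx => (hφ x hx).1
    have hinj : Set.InjOn φ (T : Set E) := by
      intro a ha b hb hab
      have h2 := (hφ a ha).2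
      have h3 := (hφ b hb).2
      rw [← hab] at h3
      exact Sum.inl.inj (hA _ _ _ h2 h3)
    exact Finset.surjOn_of_injOn_of_card_le φ hmaps hinj le_rfl
  obtain ⟨x, hx, rfl⟩ := h1 hy
  exact ⟨x, hx, (hφ x hx).2⟩

variable [Fintype E] [Fintype K] [Fintype L]

theorem MXT_s (hd : Dat M q g s f I θ) {T : Finset E} (hT : Clo (AA M g k0 s f I θ) T) :
    ∀ (n : ℕ) (l : Fin M), l.val = n → s l ∉ T := by
  intro n
  induction n with
  | zero =>
    intro l hl hs
    obtain ⟨x, -, hx⟩ := MXT_onto (PIA_main hd) hT _ hs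
    have h1 : AA M g k0 s f I θ (Sum.inr k0) = some (Sum.inl (s l)) := by
      rw [AA_k0 (M_pos hd)]
      congr 3
      exact Fin.ext hl.symm
    exact absurd (PIA_main hd _ _ _ hx h1) (by simp)
  | succ n ih =>
    intro l hl hs
    obtain ⟨x, hxT, hx⟩ := MXT_onto (PIA_main hd) hT _ hs
    have hn : n < M := by
      have := l.isLt
      omega
    have h1 : AA M g k0 s f I θ (Sum.inl (s ⟨n, hn⟩)) = some (Sum.inl (s l)) := by
      have h2 : (⟨n, hn⟩ : Fin M).val + 1 < M := by
        have := l.isLt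
        simp only
        omega
      rw [AA_s hd _ h2]
      congr 3
      exact Fin.ext hl.symm
    have h2 := Sum.inl.inj (PIA_main hd _ _ _ hx h1)
    rw [h2] at hxT
    exact ih _ rfl hxT

theorem MXT_f (hd : Dat M q g s f I θ) {T : Finset E} (hT : Clo (AA M g k0 s f I θ) T) {l : L}
    (hl : l ∈ sinks g) : f l ∉ T := by
  intro h
  obtain ⟨y, -, hy⟩ := hT _ h
  rw [AA_f hd hl] at hy
  simp at hy

theorem MXT_lds (hd : Dat M q g s f I θ) {T : Finset E} (hT : Clo (AA M g k0 s f I θ) T) {x : E}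
    (h : Lds g x) : x ∉ T := by
  induction h with
  | base x l h =>
    intro hx
    obtain ⟨y, hyT, hy⟩ := hT _ hx
    rw [AA_V (SPLIT_snk h), h] at hy
    simp only [md, Option.some.injEq, Sum.inl.injEq] at hy
    rw [← hy] at hyT
    exact MXT_f hd hT (mem_sinks.2 ⟨_, h⟩) hyT
  | step x y h h1 ih =>
    intro hx
    obtain ⟨y', hyT, hy⟩ := hT _ hx
    have hV : x ∈ VV g := SPLIT_mem.2 (Or.inr (Lds.step x y h h1))
    rw [AA_V hV, h] at hy
    simp only [md, Option.some.injEq, Sum.inl.injEq] at hy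
    rw [← hy] at hyT
    exact ih hyT

theorem MXT_rch (hd : Dat M q g s f I θ) {T : Finset E} (hT : Clo (AA M g k0 s f I θ) T) {x : E}
    {k : K} (h : Rch g k x) : x ∉ T := by
  induction h with
  | base x h =>
    intro hx
    obtain ⟨x', hxT, hx'⟩ := MXT_onto (PIA_main hd) hT _ hx
    by_cases hk : k = k0
    · subst hk
      have h1 : AA M g k s f I θ (Sum.inl (s (lastI hd))) = some (Sum.inl x) := by
        rw [AA_last hd _ (lastI_val hd), h]
        rfl
      have h2 := Sum.inl.inj (PIA_main hd _ _ _ hx' h1)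
      rw [h2] at hxT
      exact MXT_s hd hT _ _ rfl hxT
    · have h1 : AA M g k0 s f I θ (Sum.inr k) = some (Sum.inl x) := by
        rw [AA_k hk, h]
        rfl
      exact absurd (PIA_main hd _ _ _ hx' h1) (by simp)
  | step x y h1 h ih =>
    intro hx
    obtain ⟨x', hxT, hx'⟩ := MXT_onto (PIA_main hd) hT _ hx
    have h2 : AA M g k0 s f I θ (Sum.inl x) = some (Sum.inl y) := by
      rw [AA_V (SPLIT_mem.2 (Or.inl ⟨k, h1⟩)), h]
      rfl
    have h3 := Sum.inl.inj (PIA_main hd _ _ _ hx' h2)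
    rw [h3] at hxT
    exact ih hxT

theorem MXT_main (hd : Dat M q g s f I θ) {T : Finset E} (hT : Clo (AA M g k0 s f I θ) T) :
    T ⊆ TT M g s f I := by
  intro x hx
  rcases kinds M g s f I x with h | ⟨l, rfl⟩ | ⟨l, hl, rfl⟩ | h | h
  · rcases SPLIT_mem.1 h with ⟨k, h1⟩ | h1
    · exact absurd hx (MXT_rch hd hT h1)
    · exact absurd hx (MXT_lds hd hT h1)
  · exact absurd hx (MXT_s hd hT _ _ rfl)
  · exact absurd hx (MXT_f hd hT hl)
  · obtain ⟨y, -, hy⟩ := hT _ hx
    rw [AA_I hd h] at hy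
    simp at hy
  · exact h

end MXT

theorem stmt_MXT : Stmt_MXT := by
  intro E K L _ _ _ M q g s f I θ k0 hd T' hT
  exact MXT_main hd hT

end Pool.RookLC.Lin
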