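import Pool.Agent.Work.MP_6f78fb_lin.Interface

/-!
# MP_6f78fb_co, linear range: block SPLIT
-/

open Classical

noncomputable section

namespace Pool.RookLC.Lin

section SPLIT

variable {E K L : Type} {g : GR E K L}

theorem SPLIT_in {x : E} {k : K} (h : Rch g k x) : ∃ y, g y = some (Sum.inl x) := by
  cases h with
  | base _ h => exact ⟨_, h⟩
  | step x' _ _ h => exact ⟨_, h⟩

theorem SPLIT_out {x : E} (h : Lds g x) : g (Sum.inl x) ≠ none := by
  cases h with
  | base _ l h => rw [h]; simp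
  | step _ y h _ => rw [h]; simp

theorem SPLIT_back (hg : PInj g) {x y : E} {k : K} (h : Rch g k y)
    (hxy : g (Sum.inl x) = some (Sum.inl y)) : Rch g k x := by
  cases h with
  | base _ h => exact absurd (hg _ _ _ h hxy) (by simp)
  | step x' _ h1 h =>
    have := hg _ _ _ h hxy
    rw [Sum.inl.injEq] at this
    rwa [this] at h1

theorem SPLIT_fwd {x y : E} (h : Lds g x) (hxy : g (Sum.inl x) = some (Sum.inl y)) :
    Lds g y := by
  cases h with
  | base _ l h => rw [hxy] at h; simp at h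
  | step _ y' h h1 =>
    rw [hxy] at h
    simp only [Option.some.injEq, Sum.inl.injEq] at h
    rwa [h]

variable [Fintype E]

theorem SPLIT_mem {x : E} : x ∈ VV g ↔ (∃ k, Rch g k x) ∨ Lds g x := by
  simp [VV]

theorem SPLIT_iff (hg : PInj g) {x y : E} (hxy : g (Sum.inl x) = some (Sum.inl y)) :
    x ∈ VV g ↔ y ∈ VV g := by
  rw [SPLIT_mem, SPLIT_mem]
  constructor
  · rintro (⟨k, h⟩ | h)
    · exact Or.inl ⟨k, Rch.step x y h hxy⟩
    · exact Or.inr (SPLIT_fwd h hxy)
  · rintro (⟨k, h⟩ | h)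
    · exact Or.inl ⟨k, SPLIT_back hg h hxy⟩
    · exact Or.inr (Lds.step x y hxy h)

theorem SPLIT_src {k : K} {y : E} (h : g (Sum.inr k) = some (Sum.inl y)) : y ∈ VV g :=
  SPLIT_mem.2 (Or.inl ⟨k, Rch.base y h⟩)

theorem SPLIT_snk {x : E} {l : L} (h : g (Sum.inl x) = some (Sum.inr l)) : x ∈ VV g :=
  SPLIT_mem.2 (Or.inr (Lds.base x l h))

theorem SPLIT_g2V {x : E} (hx : x ∈ VV g) : g2 g x = none := by
  simp [g2, hx]

theorem SPLIT_g2 {x : E} (hx : x ∉ VV g) : g (Sum.inl x) = (g2 g x).map Sum.inl := by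
  rcases h : g (Sum.inl x) with _ | y | l
  · simp [g2, hx, h]
  · simp [g2, hx, h]
  · exact absurd (SPLIT_snk h) hx

theorem SPLIT_g2s {x y : E} (h : g2 g x = some y) : x ∉ VV g ∧ g (Sum.inl x) = some (Sum.inl y) := by
  have hx : x ∉ VV g := by
    intro hx
    rw [SPLIT_g2V hx] at h
    simp at h
  refine ⟨hx, ?_⟩
  rw [SPLIT_g2 hx, h]
  rfl

theorem SPLIT_pinj (hg : PInj g) : PInj (g2 g) := by
  intro a b c ha hb
  have := hg _ _ _ (SPLIT_g2s ha).2 (SPLIT_g2s hb).2
  rwa [Sum.inl.injEq] at this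

theorem SPLIT_touched (hg : PInj g) {x : E} (hx : x ∈ touched (g2 g)) : x ∉ VV g := by
  simp only [touched, Finset.mem_filter, Finset.mem_univ, true_and] at hx
  rcases hx with h | ⟨y, h⟩
  · intro hV
    exact h (SPLIT_g2V hV)
  · obtain ⟨h1, h2⟩ := SPLIT_g2s h
    rwa [← SPLIT_iff hg h2]

variable [Fintype K] [Fintype L]

theorem SPLIT_card (g : GR E K L) : arcs (g2 g) + arcsV g (VV g) = arcs g := by
  unfold arcs arcsV
  rw [← Finset.card_image_of_injective (Finset.univ.filter fun a => g2 g a ≠ none)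
    (Sum.inl_injective (α := E) (β := K)), ← Finset.card_union_of_disjoint]
  · congr 1
    ext z
    simp only [Finset.mem_union, Finset.mem_image, Finset.mem_filter, Finset.mem_univ, true_and]
    constructor
    · rintro (⟨x, hx, rfl⟩ | ⟨h, -⟩)
      · obtain ⟨y, hy⟩ := Option.ne_none_iff_exists'.1 hx
        rw [(SPLIT_g2s hy).2]
        simp
      · exact h
    · intro h
      by_cases hP : ∀ x, z = Sum.inl x → x ∈ VV g
      · exact Or.inr ⟨h, hP⟩
      · push Not at hP
        obtain ⟨x, rfl, hx⟩ := hP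
        refine Or.inl ⟨x, ?_, rfl⟩
        intro h0
        rw [SPLIT_g2 hx, h0] at h
        exact h rfl
  · rw [Finset.disjoint_left]
    intro z hz hz'
    simp only [Finset.mem_image, Finset.mem_filter, Finset.mem_univ, true_and] at hz hz'
    obtain ⟨x, hx, rfl⟩ := hz
    exact hx (SPLIT_g2V (hz'.2 x rfl))

theorem SPLIT_V (hg : PInj g) : (VV g).card ≤ arcsV g (VV g) := by
  unfold arcsV
  have hex : ∀ x : E, ∃ z : E ⊕ K, ((∃ k, Rch g k x) → g z = some (Sum.inl x)) ∧
      ((¬ ∃ k, Rch g k x) → z = Sum.inl x) := by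
    intro x
    by_cases h : ∃ k, Rch g k x
    · obtain ⟨k, hk⟩ := h
      obtain ⟨z, hz⟩ := SPLIT_in hk
      exact ⟨z, fun _ => hz, fun h => absurd ⟨k, hk⟩ h⟩
    · exact ⟨Sum.inl x, fun h' => absurd h' h, fun _ => rfl⟩
  choose z hz1 hz2 using hex
  refine Finset.card_le_card_of_injOn z ?_ ?_
  · intro x hx
    rw [Finset.mem_coe] at hx
    simp only [Finset.coe_filter, Finset.mem_univ, true_and, Set.mem_setOf_eq]
    by_cases h : ∃ k, Rch g k x
    · have h1 := hz1 x h
      refine ⟨by rw [h1]; simp, fun y hy => ?_⟩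
      rw [hy] at h1
      exact (SPLIT_iff hg h1).2 hx
    · have h1 := hz2 x h
      rw [h1]
      refine ⟨?_, fun y hy => ?_⟩
      · rcases SPLIT_mem.1 hx with h2 | h2
        · exact absurd h2 h
        · exact SPLIT_out h2
      · rw [Sum.inl.injEq] at hy
        rwa [← hy]
  · have key : ∀ x y : E, (∃ k, Rch g k x) → (¬ ∃ k, Rch g k y) → z x = z y → False := by
      rintro x y ⟨k, hk⟩ hy hxy
      have h1 := hz1 x ⟨k, hk⟩
      rw [hxy, hz2 y hy] at h1
      exact hy ⟨k, SPLIT_back hg hk h1⟩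
    intro x _ y _ hxy
    by_cases h : ∃ k, Rch g k x
    · by_cases h' : ∃ k, Rch g k y
      · have h1 := hz1 x h
        rw [hxy, hz1 y h'] at h1
        simpa using h1.symm
      · exact (key x y h h' hxy).elim
    · by_cases h' : ∃ k, Rch g k y
      · exact (key y x h' h hxy.symm).elim
      · rw [hz2 x h, hz2 y h'] at hxy
        simpa using hxy

theorem SPLIT_sinks (g : GR E K L) : (sinks g).card ≤ arcsV g (VV g) := by
  unfold arcsV
  have hex : ∀ l : L, ∃ z : Option (E ⊕ K), l ∈ sinks g → ∃ y, z = some y ∧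
      g y = some (Sum.inr l) := by
    intro l
    by_cases h : l ∈ sinks g
    · simp only [sinks, Finset.mem_filter, Finset.mem_univ, true_and] at h
      obtain ⟨y, hy⟩ := h
      exact ⟨some y, fun _ => ⟨y, rfl, hy⟩⟩
    · exact ⟨none, fun h' => absurd h' h⟩
  choose z hz using hex
  rw [← Finset.card_image_of_injective (Finset.univ.filter fun z : E ⊕ K =>
    g z ≠ none ∧ ∀ x, z = Sum.inl x → x ∈ VV g) (Option.some_injective _)]
  refine Finset.card_le_card_of_injOn z ?_ ?_
  · intro l hl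
    rw [Finset.mem_coe] at hl
    obtain ⟨y, hy, hgy⟩ := hz l hl
    rw [Finset.mem_coe, hy]
    refine Finset.mem_image_of_mem _ ?_
    simp only [Finset.mem_filter, Finset.mem_univ, true_and]
    refine ⟨by rw [hgy]; simp, ?_⟩
    rintro x rfl
    exact SPLIT_snk hgy
  · intro l hl l' hl' h
    rw [Finset.mem_coe] at hl hl'
    obtain ⟨y, hy, hgy⟩ := hz l hl
    obtain ⟨y', hy', hgy'⟩ := hz l' hl'
    rw [hy, hy'] at h
    rw [Option.some.injEq] at h
    rw [h, hgy'] at hgy
    simpa using hgy.symm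

end SPLIT

theorem stmt_SPLIT : Stmt_SPLIT := by
  intro E K L _ _ _ g hg
  refine ⟨fun x y h => SPLIT_iff hg h, fun k y h => SPLIT_src h, fun x l h => SPLIT_snk h,
    fun x hx => SPLIT_g2 hx, SPLIT_pinj hg, fun x hx => SPLIT_touched hg hx, SPLIT_card g,
    SPLIT_V hg, SPLIT_sinks g, ?_⟩
  intro x hx
  rcases SPLIT_mem.1 hx with ⟨k, h⟩ | h
  · exact Or.inr (SPLIT_in h)
  · exact Or.inl (SPLIT_out h)

end Pool.RookLC.Lin
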