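import Pool.Agent.Work.MP_6f78fb_lin.Eval
import Pool.Agent.Work.MP_6f78fb_lin.B_SPLIT

/-!
# MP_6f78fb_co, linear range: block PIA
-/

open Classical

noncomputable section

namespace Pool.RookLC.Lin

section PIA

variable {E K L : Type} {M q : ℕ} {g : GR E K L} {s : Fin M → E} {f : L → E} {I : Finset E}
  {θ : Equiv.Perm E} {k0 : K} [Fintype E] [Fintype K] [Fintype L]

/-- the vertex `z` of the encoding graph plays the role of the vertex `z'` of `g` -/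
def PIA_rel (hd : Dat M q g s f I θ) (k0 : K) (z z' : E ⊕ K) : Prop :=
  (z' = Sum.inr k0 ∧ z = Sum.inl (s (lastI hd))) ∨
  (∃ k, k ≠ k0 ∧ z = Sum.inr k ∧ z' = Sum.inr k) ∨ (∃ x ∈ VV g, z = Sum.inl x ∧ z' = Sum.inl x)

/-- the arcs of the encoding graph -/
theorem PIA_arc (hd : Dat M q g s f I θ) {z : E ⊕ K} {c : E ⊕ L}
    (h : AA M g k0 s f I θ z = some c) :
    (z = Sum.inr k0 ∧ c = Sum.inl (s ⟨0, M_pos hd⟩)) ∨
    (∃ (l : Fin M) (hl : l.val + 1 < M), z = Sum.inl (s l) ∧ c = Sum.inl (s ⟨l.val + 1, hl⟩)) ∨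
    (∃ z', md f (g z') = some c ∧ PIA_rel hd k0 z z') ∨
    (∃ l ∈ sinks g, z = Sum.inl (f l) ∧ c = Sum.inr l) ∨
    (∃ x ∈ TT M g s f I, z = Sum.inl x ∧ c = Sum.inl (θ x)) := by
  rcases z with x | k
  · rcases kinds M g s f I x with hx | ⟨l, rfl⟩ | ⟨l, hl, rfl⟩ | hx | hx
    · rw [AA_V hx] at h
      exact Or.inr (Or.inr (Or.inl ⟨_, h, Or.inr (Or.inr ⟨x, hx, rfl, rfl⟩)⟩))
    · rcases last_or hd l with hl | rfl
      · rw [AA_s hd l hl] at h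
        exact Or.inr (Or.inl ⟨l, hl, rfl, (Option.some.inj h).symm⟩)
      · rw [AA_last hd _ (lastI_val hd)] at h
        exact Or.inr (Or.inr (Or.inl ⟨_, h, Or.inl ⟨rfl, rfl⟩⟩))
    · rw [AA_f hd hl] at h
      exact Or.inr (Or.inr (Or.inr (Or.inl ⟨l, hl, rfl, (Option.some.inj h).symm⟩)))
    · rw [AA_I hd hx] at h
      simp at h
    · rw [AA_T hx] at h
      exact Or.inr (Or.inr (Or.inr (Or.inr ⟨x, hx, rfl, (Option.some.inj h).symm⟩)))
  · by_cases hk : k = k0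
    · subst hk
      rw [AA_k0 (M_pos hd)] at h
      exact Or.inl ⟨rfl, (Option.some.inj h).symm⟩
    · rw [AA_k hk] at h
      exact Or.inr (Or.inr (Or.inl ⟨_, h, Or.inr (Or.inl ⟨k, hk, rfl, rfl⟩)⟩))

/-- a vertex of the encoding graph which plays a role has the corresponding arc -/
theorem PIA_rel_eq (hd : Dat M q g s f I θ) {z z' : E ⊕ K} (h : PIA_rel hd k0 z z') :
    AA M g k0 s f I θ z = md f (g z') := by
  rcases h with ⟨rfl, rfl⟩ | ⟨k, hk, rfl, rfl⟩ | ⟨x, hx, rfl, rfl⟩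
  · exact AA_last hd _ (lastI_val hd)
  · exact AA_k hk
  · exact AA_V hx

/-- the value of an arc of the third kind -/
theorem PIA_val (hd : Dat M q g s f I θ) {z z' : E ⊕ K} {c : E ⊕ L}
    (h : PIA_rel hd k0 z z') (hc : md f (g z') = some c) :
    (∃ e ∈ VV g, c = Sum.inl e ∧ g z' = some (Sum.inl e)) ∨
      ∃ l ∈ sinks g, c = Sum.inl (f l) ∧ g z' = some (Sum.inr l) := by
  rcases c with e | l
  · rcases md_inl.1 hc with h1 | ⟨l, h1, rfl⟩
    · refine Or.inl ⟨e, ?_, rfl, h1⟩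
      rcases h with ⟨rfl, rfl⟩ | ⟨k, hk, rfl, rfl⟩ | ⟨x, hx, rfl, rfl⟩
      · exact SPLIT_src h1
      · exact SPLIT_src h1
      · exact (SPLIT_iff hd.ginj h1).1 hx
    · exact Or.inr ⟨l, mem_sinks.2 ⟨_, h1⟩, rfl, h1⟩
  · exact absurd hc md_inr

theorem PIA_rel_inj (hd : Dat M q g s f I θ) {z₁ z₂ z' : E ⊕ K} (h₁ : PIA_rel hd k0 z₁ z')
    (h₂ : PIA_rel hd k0 z₂ z') : z₁ = z₂ := by
  rcases h₁ with ⟨rfl, rfl⟩ | ⟨k, hk, rfl, rfl⟩ | ⟨x, hx, rfl, rfl⟩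
  · rcases h₂ with ⟨-, rfl⟩ | ⟨k', hk', rfl, h⟩ | ⟨x', hx', rfl, h⟩
    · rfl
    · exact absurd (Sum.inr.inj h).symm hk'
    · simp at h
  · rcases h₂ with ⟨h, rfl⟩ | ⟨k', hk', rfl, h⟩ | ⟨x', hx', rfl, h⟩
    · exact absurd (Sum.inr.inj h) hk
    · exact h
    · simp at h
  · rcases h₂ with ⟨h, rfl⟩ | ⟨k', hk', rfl, h⟩ | ⟨x', hx', rfl, h⟩
    · simp at h
    · simp at h
    · exact h

/-- the kinds of the inner vertices are disjoint -/
theorem PIA_disj (hd : Dat M q g s f I θ) {e : E} (h1 : e ∈ VV g ∨ ∃ l ∈ sinks g, f l = e) :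
    (∀ l, s l ≠ e) ∧ e ∉ TT M g s f I := by
  rw [mem_TT]
  rcases h1 with h1 | ⟨l, hl, rfl⟩
  · exact ⟨fun l h => hd.s_V l (by rw [h]; exact h1), fun h => h.1 h1⟩
  · exact ⟨hd.f_s l hl, fun h => h.2.2.1 l hl rfl⟩

theorem PIA_main (hd : Dat M q g s f I θ) : PInj (AA M g k0 s f I θ) := by
  intro a b c ha hb
  have hsT : ∀ l, s l ∉ TT M g s f I := fun l h => (mem_TT.1 h).2.1 l rfl
  have hval : ∀ {z z' : E ⊕ K} {c : E ⊕ L}, PIA_rel hd k0 z z' → md f (g z') = some c →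
      ∃ e, c = Sum.inl e ∧ (∀ l, s l ≠ e) ∧ e ∉ TT M g s f I := by
    intro z z' c h hc
    rcases PIA_val hd h hc with ⟨e, he, rfl, -⟩ | ⟨l, hl, rfl, -⟩
    · exact ⟨e, rfl, PIA_disj hd (Or.inl he)⟩
    · exact ⟨f l, rfl, PIA_disj hd (Or.inr ⟨l, hl, rfl⟩)⟩
  rcases PIA_arc hd ha with ⟨rfl, hc⟩ | ⟨l, hl, rfl, hc⟩ | ⟨z, hz, hr⟩ | ⟨l, hl, rfl, hc⟩ |
    ⟨x, hx, rfl, hc⟩ <;>
  rcases PIA_arc hd hb with ⟨rfl, hc'⟩ | ⟨l', hl', rfl, hc'⟩ | ⟨z', hz', hr'⟩ | ⟨l', hl', rfl, hc'⟩ |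
    ⟨x', hx', rfl, hc'⟩
  · rfl
  · rw [hc, Sum.inl.injEq] at hc'
    have := congrArg Fin.val (hd.s_inj hc')
    simp at this
  · obtain ⟨e, he, h1, h2⟩ := hval hr' hz'
    rw [hc, Sum.inl.injEq] at he
    exact absurd he (h1 _)
  · rw [hc] at hc'
    simp at hc'
  · rw [hc, Sum.inl.injEq] at hc'
    exact absurd (by rw [hc']; exact theta_mem hd hx') (hsT ⟨0, M_pos hd⟩)
  · rw [hc', Sum.inl.injEq] at hc
    have := congrArg Fin.val (hd.s_inj hc)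
    simp at this
  · rw [hc, Sum.inl.injEq] at hc'
    have := congrArg Fin.val (hd.s_inj hc')
    simp only [Nat.add_right_cancel_iff] at this
    rw [Fin.ext this]
  · obtain ⟨e, he, h1, h2⟩ := hval hr' hz'
    rw [hc, Sum.inl.injEq] at he
    exact absurd he (h1 _)
  · rw [hc] at hc'
    simp at hc'
  · rw [hc, Sum.inl.injEq] at hc'
    exact absurd (by rw [hc']; exact theta_mem hd hx') (hsT ⟨l.val + 1, hl⟩)
  · obtain ⟨e, he, h1, h2⟩ := hval hr hz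
    rw [hc', Sum.inl.injEq] at he
    exact absurd he (h1 _)
  · obtain ⟨e, he, h1, h2⟩ := hval hr hz
    rw [hc', Sum.inl.injEq] at he
    exact absurd he (h1 _)
  · have hzz : z = z' := by
      rcases PIA_val hd hr hz with ⟨e, he, rfl, h1⟩ | ⟨l, hl, rfl, h1⟩ <;>
      rcases PIA_val hd hr' hz' with ⟨e', he', h3, h2⟩ | ⟨l', hl', h3, h2⟩
      · rw [Sum.inl.injEq] at h3
        rw [← h3] at h2
        exact hd.ginj _ _ _ h1 h2
      · rw [Sum.inl.injEq] at h3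
        exact absurd (by rw [← h3]; exact he) (hd.f_V l' hl')
      · rw [Sum.inl.injEq] at h3
        exact absurd (by rw [h3]; exact he') (hd.f_V l hl)
      · rw [Sum.inl.injEq] at h3
        rw [← hd.f_inj l hl l' hl' h3] at h2
        exact hd.ginj _ _ _ h1 h2
    subst hzz
    exact PIA_rel_inj hd hr hr'
  · obtain ⟨e, he, h1, h2⟩ := hval hr hz
    rw [hc'] at he
    simp at he
  · obtain ⟨e, he, h1, h2⟩ := hval hr hz
    rw [hc', Sum.inl.injEq] at he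
    exact absurd (by rw [← he]; exact theta_mem hd hx') h2
  · rw [hc] at hc'
    simp at hc'
  · rw [hc] at hc'
    simp at hc'
  · obtain ⟨e, he, h1, h2⟩ := hval hr' hz'
    rw [hc] at he
    simp at he
  · rw [hc, Sum.inr.injEq] at hc'
    rw [hc']
  · rw [hc] at hc'
    simp at hc'
  · rw [hc', Sum.inl.injEq] at hc
    exact absurd (by rw [hc]; exact theta_mem hd hx) (hsT ⟨0, M_pos hd⟩)
  · rw [hc', Sum.inl.injEq] at hc
    exact absurd (by rw [hc]; exact theta_mem hd hx) (hsT ⟨l'.val + 1, hl'⟩)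
  · obtain ⟨e, he, h1, h2⟩ := hval hr' hz'
    rw [hc, Sum.inl.injEq] at he
    exact absurd (by rw [← he]; exact theta_mem hd hx) h2
  · rw [hc] at hc'
    simp at hc'
  · rw [hc, Sum.inl.injEq] at hc'
    rw [θ.injective hc']

end PIA

theorem stmt_PIA : Stmt_PIA := by
  intro E K L _ _ _ M q g s f I θ k0 hd
  exact PIA_main hd

end Pool.RookLC.Lin
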