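import Pool.Agent.Work.MP_6f78fb_lin.Interface
import Pool.Agent.Work.MP_6f78fb_rk_helper94.COMPA
import Pool.Agent.Work.MP_6f78fb_rk_helper98.COMPB

/-!
# Block PONE: the pairs of the encoding lie in `P1` (helper38)
-/

open scoped BigOperators TensorProduct
open Classical

noncomputable section

namespace Pool.RookLC.Lin

open Pool.RookLC

section

variable {n m i : ℕ} {K L : Type} [Fintype K] [Fintype L]
  (ψ : Fin n ≃ Fin i ⊕ K) (χ : Fin m ≃ Fin i ⊕ L) (A : GR (Fin i) K L)

theorem PONE_val (a : Fin n) (c : Fin i ⊕ L) (h : A (ψ a) = some c) :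
    toCf ψ χ A a = some (some (χ.symm c)) := by
  unfold toCf
  rw [h]
  rfl

theorem PONE_none (a : Fin n) : toCf ψ χ A a = none ↔ A (ψ a) = none := by
  unfold toCf
  cases A (ψ a) <;> simp

theorem PONE_std (a : Fin n) (x : Fin i) (h : ψ a = Sum.inl x) :
    toCf ψ χ (stdG (Fin i) K L) a = some (some (χ.symm (Sum.inl x))) := by
  apply PONE_val
  rw [h]
  rfl

theorem PONE_stdn (a : Fin n) (k : K) (h : ψ a = Sum.inr k) :
    toCf ψ χ (stdG (Fin i) K L) a = none := by
  rw [PONE_none, h]
  rfl

/-- rows joined by an arc -/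
theorem PONE_shr (a b : Fin n) (y : Fin i) (h : A (ψ a) = some (Sum.inl y))
    (hb : ψ b = Sum.inl y) : Shr (toCf ψ χ A, toCf ψ χ (stdG (Fin i) K L)) a b :=
  ⟨χ.symm (Sum.inl y), Or.inl ⟨PONE_val ψ χ A a _ h, PONE_std ψ χ b y hb⟩⟩

theorem PONE_shrsym {ω : Pr n m} {a b : Fin n} (h : Shr ω a b) : Shr ω b a := by
  obtain ⟨j, h | h⟩ := h
  · exact ⟨j, Or.inr ⟨h.2, h.1⟩⟩
  · exact ⟨j, Or.inl ⟨h.2, h.1⟩⟩

/-- the row of a source is in the component of every vertex reachable from it -/
theorem PONE_rch (κ : Finset (Fin n))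
    (hκ : κ ∈ comps (toCf ψ χ A, toCf ψ χ (stdG (Fin i) K L))) (k : K) (x : Fin i)
    (h : Rch A k x) : ψ.symm (Sum.inl x) ∈ κ → ψ.symm (Sum.inr k) ∈ κ := by
  induction h with
  | base x h =>
    intro hx
    refine helper94.closed hκ hx (PONE_shrsym ?_)
    exact PONE_shr ψ χ A _ _ x (by rw [Equiv.apply_symm_apply]; exact h)
      (Equiv.apply_symm_apply _ _)
  | step x y _ h ih =>
    intro hy
    apply ih
    refine helper94.closed hκ hy (PONE_shrsym ?_)
    exact PONE_shr ψ χ A _ _ y (by rw [Equiv.apply_symm_apply]; exact h)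
      (Equiv.apply_symm_apply _ _)

end

theorem stmt_PONE (hT : Stmt_TRA2) : Stmt_PONE := by
  intro n m i K L _ _ ψ χ A hinj harcs hgood
  obtain ⟨h1, -, -⟩ := hT n m (Fin i) K L ψ χ
  set B := toCf ψ χ (stdG (Fin i) K L) with hB
  set ω : Pr n m := (toCf ψ χ A, B) with hω
  have hA1 : Um i (toCf ψ χ A) :=
    ⟨(h1 A).1.mpr hinj, (h1 A).2.1, by rw [(h1 A).2.2, harcs]⟩
  have hstd : PInj (stdG (Fin i) K L) := by
    intro a b c ha hb
    rcases a with a | a
    · rcases b with b | b
      · have e1 : some (Sum.inl a) = some c := ha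
        have e2 : some (Sum.inl b) = some c := hb
        rw [← e2] at e1
        simpa using e1
      · exact absurd hb (by simp [stdG])
    · exact absurd ha (by simp [stdG])
  have harcB : arcs (stdG (Fin i) K L) = i := by
    unfold arcs
    have : (Finset.univ.filter fun a => stdG (Fin i) K L a ≠ none) =
        (Finset.univ : Finset (Fin i)).map ⟨Sum.inl, Sum.inl_injective⟩ := by
      ext a
      rcases a with a | a
      · simp [stdG]
      · simp [stdG]
    rw [this, Finset.card_map, Finset.card_univ, Fintype.card_fin]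
  have hB1 : Um i B :=
    ⟨(h1 _).1.mpr hstd, (h1 _).2.1, by rw [hB, (h1 _).2.2, harcB]⟩
  have hch : ∀ κ : Finset (Fin n), (ch κ ω).1 =
      ((κ.filter fun a => ω.1 a = none).card : ℤ) - (κ.filter fun a => ω.2 a = none).card := by
    intro κ
    unfold ch
    rw [← Finset.sum_boole, ← Finset.sum_boole, ← Finset.sum_sub_distrib]
    apply Finset.sum_congr rfl
    intro a _
    by_cases e1 : ω.1 a = none <;> by_cases e2 : ω.2 a = none <;> simp [e1, e2]
  refine ⟨hA1, hB1, ?_, ?_⟩
  · intro κ hκ hc
    have h2 := congrArg Prod.fst hc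
    rw [hch] at h2
    simp only at h2
    obtain ⟨hv, r, hr⟩ := helper94.comps_spec hκ
    have h3 : (κ.filter fun a => ω.1 a = none).card ≤ 1 := by
      refine le_trans (Finset.card_le_card ?_) (helper98.card_notReal (gr ω) r (cmp ω r) ω.1 ω.2
        hv.2 (helper98.mem_cmp ω r) (fun a b hab => hab.2))
      intro a ha
      rw [Finset.mem_filter] at ha
      rw [Finset.mem_sdiff, ← hr]
      refine ⟨ha.1, ?_⟩
      unfold helper98.real
      rw [Finset.mem_filter]
      rintro ⟨-, j, hj⟩
      rw [ha.2] at hj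
      exact absurd hj (by simp)
    have h4 : (κ.filter fun a => ω.1 a = none).card = 1 := by omega
    have h5 : (κ.filter fun a => ω.2 a = none).card = 0 := by omega
    obtain ⟨x, hx⟩ := Finset.card_eq_one.mp h4
    have hx1 : x ∈ κ.filter fun a => ω.1 a = none := by rw [hx]; exact Finset.mem_singleton_self x
    rw [Finset.mem_filter] at hx1
    have hx2 : ω.2 x ≠ none := by
      intro h6
      have h7 : x ∈ κ.filter fun a => ω.2 a = none := Finset.mem_filter.mpr ⟨hx1.1, h6⟩
      rw [Finset.card_eq_zero] at h5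
      rw [h5] at h7
      exact absurd h7 (Finset.notMem_empty x)
    obtain ⟨x', hx'⟩ : ∃ x', ψ x = Sum.inl x' := by
      rcases h6 : ψ x with x' | k
      · exact ⟨x', rfl⟩
      · exact absurd (PONE_stdn ψ χ x k h6) hx2
    have hAx : A (Sum.inl x') = none := by
      rw [← hx']
      exact (PONE_none ψ χ A x).mp hx1.2
    rcases hgood.2 x' hAx with h6 | ⟨k, h6⟩
    · refine Finset.card_eq_one.mpr ⟨x, ?_⟩
      ext b
      rw [Finset.mem_singleton]
      constructor
      · intro hb
        have h7 : (gr ω).Reachable x b := by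
          have h8 := hx1.1
          rw [hr, helper98.mem_cmp] at h8 hb
          exact h8.symm.trans hb
        obtain ⟨w⟩ := h7
        cases w with
        | nil => rfl
        | cons hadj _ =>
          exfalso
          obtain ⟨-, j, h8 | h8⟩ := hadj
          · rw [hx1.2] at h8
            exact absurd h8.1 (by simp)
          · obtain ⟨h9, h10⟩ := h8
            have h11 : ω.2 x = some (some (χ.symm (Sum.inl x'))) := PONE_std ψ χ x x' hx'
            rw [h11] at h9
            have h12 : χ.symm (Sum.inl x') = j := by simpa using h9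
            rename_i c _
            have h13 : (A (ψ c)).map (fun c => some (χ.symm c)) = some (some j) := h10
            rw [Option.map_eq_some_iff] at h13
            obtain ⟨d, hd1, hd2⟩ := h13
            rw [← h12] at hd2
            have hd3 : d = Sum.inl x' := χ.symm.injective (by simpa using hd2)
            rw [hd3] at hd1
            exact h6 _ hd1
      · rintro rfl
        exact hx1.1
    · exfalso
      have h7 : ψ.symm (Sum.inr k) ∈ κ := by
        apply PONE_rch ψ χ A κ hκ k x' h6
        rw [← hx', Equiv.symm_apply_apply]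
        exact hx1.1
      have h8 : ψ.symm (Sum.inr k) ∈ κ.filter fun a => ω.2 a = none :=
        Finset.mem_filter.mpr ⟨h7, PONE_stdn ψ χ _ k (Equiv.apply_symm_apply _ _)⟩
      rw [Finset.card_eq_zero] at h5
      rw [h5] at h8
      exact absurd h8 (Finset.notMem_empty _)
  · intro κ hκ hc h0
    obtain ⟨a, rfl⟩ := Finset.card_eq_one.mp h0
    have h2 := congrArg Prod.fst hc
    rw [hch] at h2
    simp only at h2
    have h3 : ω.1 a ≠ none ∧ ω.2 a = none := by
      rw [Finset.filter_singleton, Finset.filter_singleton] at h2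
      by_cases e1 : ω.1 a = none <;> by_cases e2 : ω.2 a = none <;> simp [e1, e2] at h2 ⊢
    obtain ⟨k, hk⟩ : ∃ k, ψ a = Sum.inr k := by
      rcases h6 : ψ a with x' | k
      · have := PONE_std ψ χ a x' h6
        have h7 : B a = none := h3.2
        rw [hB, this] at h7
        exact absurd h7 (by simp)
      · exact ⟨k, rfl⟩
    have h4 : A (ψ a) ≠ none := fun h5 => h3.1 ((PONE_none ψ χ A a).mpr h5)
    obtain ⟨c, hc'⟩ := Option.ne_none_iff_exists'.mp h4
    rcases c with y | l
    · have h5 : ψ.symm (Sum.inl y) ∈ ({a} : Finset (Fin n)) :=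
        helper94.closed hκ (Finset.mem_singleton_self a)
          (PONE_shr ψ χ A a _ y hc' (Equiv.apply_symm_apply _ _))
      rw [Finset.mem_singleton] at h5
      have h6 := congrArg ψ h5
      rw [Equiv.apply_symm_apply, hk] at h6
      exact absurd h6 (by simp)
    · rw [hk] at hc'
      exact hgood.1 k l hc'

end Pool.RookLC.Lin
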