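import Pool.Agent.Work.MP_6f78fb_lin.Interface

/-! # Block RETR (helper96): Maschke retraction -/

open scoped BigOperators TensorProduct
open Classical

noncomputable section

namespace Pool.RookLC.Lin

open Pool.RookLC

theorem stmt_RETR : Stmt_RETR := by
  intro Γ Q V _ _ _ _ _ _ _ _ ρQ ρV ⟨e, he, heq⟩
  obtain ⟨s, hs⟩ := e.exists_leftInverse_of_injective (LinearMap.ker_eq_bot.mpr he)
  have hs' : ∀ x, s (e x) = x := fun x => by
    have := congrArg (fun l : Q →ₗ[ℂ] Q => l x) hs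
    simpa using this
  have hinvQ : ∀ (g : Γ) (x : Q), ρQ g⁻¹ (ρQ g x) = x := fun g x => by
    rw [← Module.End.mul_apply, ← map_mul, inv_mul_cancel, map_one, Module.End.one_apply]
  set c : ℂ := ((Fintype.card Γ : ℕ) : ℂ)⁻¹ with hc
  have hcard : ((Fintype.card Γ : ℕ) : ℂ) ≠ 0 := Nat.cast_ne_zero.mpr Fintype.card_ne_zero
  set f : V →ₗ[ℂ] Q := c • ∑ g : Γ, (ρQ g⁻¹) ∘ₗ s ∘ₗ (ρV g) with hf
  have hfa : ∀ v, f v = c • ∑ g : Γ, ρQ g⁻¹ (s (ρV g v)) := by
    intro v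
    rw [hf]
    simp [LinearMap.sum_apply]
  refine ⟨f, fun x => ⟨e x, ?_⟩, ?_⟩
  · rw [hfa]
    have h1 : ∀ g : Γ, ρQ g⁻¹ (s (ρV g (e x))) = x := by
      intro g
      rw [← heq, hs', hinvQ]
    simp only [h1, Finset.sum_const, Finset.card_univ]
    rw [← Nat.cast_smul_eq_nsmul ℂ, smul_smul, hc, inv_mul_cancel₀ hcard, one_smul]
  · intro g v
    rw [hfa, hfa, map_smul, map_sum]
    congr 1
    refine Fintype.sum_equiv (Equiv.mulRight g) _ _ fun h => ?_
    simp only [Equiv.coe_mulRight]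
    rw [← Module.End.mul_apply, ← map_mul, ← Module.End.mul_apply (ρQ g), ← map_mul]
    congr 2
    group

end Pool.RookLC.Lin
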