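import Pool.Agent.Work.MP_6f78fb_lin.Interface

/-!
# MP_6f78fb_co, linear range: block RIG
-/

open Classical

noncomputable section

namespace Pool.RookLC.Lin

section RIG

variable {E K L : Type}

/-- `A'` is the image of `A` -/
def RIG_rel (σ : Equiv.Perm E) (κ : Equiv.Perm K) (τ : Equiv.Perm L) (A A' : GR E K L) : Prop :=
  ∀ z, A' (Sum.map σ κ z) = (A z).map (Sum.map σ τ)

variable {σ : Equiv.Perm E} {κ : Equiv.Perm K} {τ : Equiv.Perm L} {A A' : GR E K L}

theorem RIG_map_symm (z : E ⊕ K) : Sum.map σ κ (Sum.map σ.symm κ.symm z) = z := by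
  rcases z with x | k <;> simp

theorem RIG_map_symm' (z : E ⊕ K) : Sum.map σ.symm κ.symm (Sum.map σ κ z) = z := by
  rcases z with x | k <;> simp

theorem RIG_of (h : actG σ κ τ A = A') : RIG_rel σ κ τ A A' := by
  intro z
  rw [← h]
  show (A (Sum.map σ.symm κ.symm (Sum.map σ κ z))).map (Sum.map σ τ) = _
  rw [RIG_map_symm']

theorem RIG_to (h : RIG_rel σ κ τ A A') : actG σ κ τ A = A' := by
  funext z
  show (A (Sum.map σ.symm κ.symm z)).map (Sum.map σ τ) = A' z
  rw [← h, RIG_map_symm]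

theorem RIG_symm (h : RIG_rel σ κ τ A A') : RIG_rel σ.symm κ.symm τ.symm A' A := by
  intro z
  have h1 := h (Sum.map σ.symm κ.symm z)
  rw [RIG_map_symm] at h1
  rw [h1, Option.map_map]
  have h2 : (Sum.map σ.symm τ.symm : E ⊕ L → E ⊕ L) ∘ Sum.map σ τ = id := by
    funext c
    exact RIG_map_symm' c
  rw [h2, Option.map_id]
  rfl

theorem RIG_some (h : RIG_rel σ κ τ A A') {z : E ⊕ K} {c : E ⊕ L} (hz : A z = some c) :
    A' (Sum.map σ κ z) = some (Sum.map σ τ c) := by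
  rw [h z, hz]
  rfl

theorem RIG_rch (h : RIG_rel σ κ τ A A') {k : K} {x : E} (hx : Rch A k x) : Rch A' (κ k) (σ x) := by
  induction hx with
  | base x hx => exact Rch.base _ (RIG_some h hx)
  | step x y _ hxy ih => exact Rch.step _ _ ih (RIG_some h hxy)

theorem RIG_clo (h : RIG_rel σ κ τ A A') {T : Finset E} (hT : Clo A T) : Clo A' (T.image σ) := by
  intro x' hx'
  obtain ⟨x, hx, rfl⟩ := Finset.mem_image.1 hx'
  obtain ⟨y, hy, hxy⟩ := hT x hx
  exact ⟨σ y, Finset.mem_image_of_mem _ hy, RIG_some h hxy⟩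

variable [Fintype E] {M : ℕ} {π : Multiset ℕ → PF (Fin M) (Fin M)} {g g' : GR E K L}
  {ε ε' : Bool} {μ μ' : Multiset ℕ} {k0 k0' : K} {s s' : Fin M → E} {V F T I V' F' T' I' : Finset E}
  {θ θ' : Equiv.Perm E}

theorem RIG_s (h1 : Enc M π g A ε μ k0 s V F T I θ) : ∀ (n : ℕ) (l : Fin M), l.val = n →
    Rch A k0 (s l) := by
  intro n
  induction n with
  | zero =>
    intro l hl
    exact Rch.base _ (h1.a_k0 l hl)
  | succ n ih =>
    intro l hl
    have hn : n < M := by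
      have := l.isLt
      omega
    exact Rch.step (s ⟨n, hn⟩) _ (ih _ rfl) (h1.a_s _ _ hl)

theorem RIG_k0 (hM : 1 ≤ M) (h1 : Enc M π g A ε μ k0 s V F T I θ)
    (h2 : Enc M π g' A' ε' μ' k0' s' V' F' T' I' θ') (h : RIG_rel σ κ τ A A') : κ k0 = k0' := by
  by_contra hk
  have h3 := h2.small (κ k0) hk
  have h4 : (Finset.univ.image fun l => σ (s l)) ⊆ Finset.univ.filter fun x => Rch A' (κ k0) x := by
    intro x hx
    obtain ⟨l, -, rfl⟩ := Finset.mem_image.1 hx
    simp only [Finset.mem_filter, Finset.mem_univ, true_and]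
    exact RIG_rch h (RIG_s h1 _ _ rfl)
  have h5 := Finset.card_le_card h4
  have h6 : (Finset.univ.image fun l => σ (s l)).card = M := by
    rw [Finset.card_image_of_injective (f := fun l => σ (s l)) Finset.univ
      (fun a b hab => h1.s_inj (σ.injective hab)), Finset.card_univ, Fintype.card_fin]
  omega

theorem RIG_ss (h1 : Enc M π g A ε μ k0 s V F T I θ)
    (h2 : Enc M π g' A' ε' μ' k0' s' V' F' T' I' θ') (h : RIG_rel σ κ τ A A') (hk : κ k0 = k0') :
    ∀ (n : ℕ) (l : Fin M), l.val = n → σ (s l) = s' l := by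
  intro n
  induction n with
  | zero =>
    intro l hl
    have h3 := RIG_some h (h1.a_k0 l hl)
    have h4 := h2.a_k0 l hl
    simp only [Sum.map_inr, hk] at h3
    rw [h3] at h4
    simpa using h4
  | succ n ih =>
    intro l hl
    have hn : n < M := by
      have := l.isLt
      omega
    have h3 := RIG_some h (h1.a_s ⟨n, hn⟩ l hl)
    have h4 := h2.a_s ⟨n, hn⟩ l hl
    simp only [Sum.map_inl, ih ⟨n, hn⟩ rfl] at h3
    rw [h3] at h4
    simpa using h4

theorem RIG_T1 (h1 : Enc M π g A ε μ k0 s V F T I θ)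
    (h2 : Enc M π g' A' ε' μ' k0' s' V' F' T' I' θ') (h : RIG_rel σ κ τ A A') {x : E}
    (hx : x ∈ T) : σ x ∈ T' := by
  have h3 : Clo A T := fun x hx => ⟨θ x, (h1.g_T x hx).2.1, (h1.g_T x hx).2.2⟩
  exact h2.maxT _ (RIG_clo h h3) (Finset.mem_image_of_mem _ hx)

theorem RIG_T (h1 : Enc M π g A ε μ k0 s V F T I θ)
    (h2 : Enc M π g' A' ε' μ' k0' s' V' F' T' I' θ') (h : RIG_rel σ κ τ A A') (x : E) :
    σ x ∈ T' ↔ x ∈ T := by
  refine ⟨fun hx => ?_, RIG_T1 h1 h2 h⟩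
  have := RIG_T1 h2 h1 (RIG_symm h) hx
  simpa using this

theorem RIG_th (h1 : Enc M π g A ε μ k0 s V F T I θ)
    (h2 : Enc M π g' A' ε' μ' k0' s' V' F' T' I' θ') (h : RIG_rel σ κ τ A A') (x : E) :
    θ' (σ x) = σ (θ x) := by
  by_cases hx : x ∈ T
  · have h3 := RIG_some h (h1.g_T x hx).2.2
    have h4 := (h2.g_T (σ x) ((RIG_T h1 h2 h x).2 hx)).2.2
    simp only [Sum.map_inl] at h3
    rw [h3] at h4
    simpa using h4.symm
  · rw [h1.th_fix x hx, h2.th_fix (σ x) (fun h' => hx ((RIG_T h1 h2 h x).1 h'))]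

theorem RIG_type (h1 : Enc M π g A ε μ k0 s V F T I θ)
    (h2 : Enc M π g' A' ε' μ' k0' s' V' F' T' I' θ') (h : RIG_rel σ κ τ A A') :
    ε = ε' ∧ μ = μ' := by
  have h3 : θ' = σ * θ * σ⁻¹ := by
    ext x
    have := RIG_th h1 h2 h (σ⁻¹ x)
    simpa using this
  have h4 : θ'.cycleType = θ.cycleType := by
    rw [h3, Equiv.Perm.cycleType_conj]
  rw [h1.th_type, h2.th_type] at h4
  have h5 : ∀ (ν : Multiset ℕ), (∀ w ∈ ν, 3 ≤ w) → ν.count 2 = 0 := by
    intro ν hν
    rw [Multiset.count_eq_zero]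
    intro h
    have := hν 2 h
    omega
  have h6 := congrArg (Multiset.count 2) h4
  rw [Multiset.count_add, Multiset.count_add, h5 μ h1.mu3, h5 μ' h2.mu3] at h6
  have hε : ε = ε' := by
    cases ε <;> cases ε' <;> simp at h6 ⊢
  subst hε
  exact ⟨rfl, (add_right_cancel h4).symm⟩

theorem RIG_Vr (h1 : Enc M π g A ε μ k0 s V F T I θ) {x : E} (hx : x ∈ V) (l : L) :
    A (Sum.inl x) ≠ some (Sum.inr l) := by
  intro h
  rcases h1.r_V x hx with ⟨-, h3⟩ | ⟨e, -, -, h3⟩ | ⟨l', y, -, h3, -⟩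
  · rw [h] at h3
    simp at h3
  · rw [h] at h3
    simp at h3
  · rw [h] at h3
    simp at h3

theorem RIG_V1 (h1 : Enc M π g A ε μ k0 s V F T I θ)
    (h2 : Enc M π g' A' ε' μ' k0' s' V' F' T' I' θ') (h : RIG_rel σ κ τ A A')
    (hs : ∀ l, σ (s l) = s' l) {x : E} (hx : x ∈ V) : σ x ∈ V' := by
  rcases h2.cover (σ x) with h3 | ⟨l, h3⟩ | h3 | h3 | h3
  · exact h3
  · rw [← hs l] at h3
    exact absurd (σ.injective h3) (h1.V_s x hx l)
  · obtain ⟨-, l, hl⟩ := h2.g_F _ h3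
    have h4 := RIG_some (RIG_symm h) hl
    simp only [Sum.map_inl, Sum.map_inr, Equiv.symm_apply_apply] at h4
    exact absurd h4 (RIG_Vr h1 hx _)
  · exact absurd ((RIG_T h1 h2 h x).1 h3) (h1.V_T x hx)
  · obtain ⟨-, h4, h5⟩ := h2.g_I _ h3
    rcases h1.viso x hx with h6 | ⟨y, h6⟩
    · exfalso
      obtain ⟨c, hc⟩ := Option.ne_none_iff_exists'.1 h6
      have h7 := RIG_some h hc
      simp only [Sum.map_inl] at h7
      rw [h4] at h7
      simp at h7
    · exact absurd (RIG_some h h6) (h5 _)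

theorem RIG_V (h1 : Enc M π g A ε μ k0 s V F T I θ)
    (h2 : Enc M π g' A' ε' μ' k0' s' V' F' T' I' θ') (h : RIG_rel σ κ τ A A')
    (hs : ∀ l, σ (s l) = s' l) (x : E) : σ x ∈ V' ↔ x ∈ V := by
  refine ⟨fun hx => ?_, RIG_V1 h1 h2 h hs⟩
  have := RIG_V1 h2 h1 (RIG_symm h) (fun l => by rw [← hs l]; simp) hx
  simpa using this

theorem RIG_rule (h1 : Enc M π g A ε μ k0 s V F T I θ)
    (h2 : Enc M π g' A' ε' μ' k0' s' V' F' T' I' θ') (h : RIG_rel σ κ τ A A')
    (hs : ∀ l, σ (s l) = s' l) {a b a' b' : Option (E ⊕ L)} (hr : Rule A V a b)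
    (hr' : Rule A' V' a' b') (ha : a' = a.map (Sum.map σ τ)) : b' = b.map (Sum.map σ τ) := by
  subst ha
  rcases hr with ⟨rfl, rfl⟩ | ⟨e, he, rfl, rfl⟩ | ⟨l, x, rfl, rfl, hx⟩
  · rcases hr' with ⟨rfl, -⟩ | ⟨e', he', rfl, h3⟩ | ⟨l', x', rfl, h3, -⟩
    · rfl
    · simp at h3
    · simp at h3
  · rcases hr' with ⟨-, h3⟩ | ⟨e', he', rfl, h3⟩ | ⟨l', x', rfl, h3, h4⟩
    · simp at h3
    · simp only [Option.map_some, Sum.map_inl, Option.some.injEq, Sum.inl.injEq] at h3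
      rw [← h3]
      rfl
    · simp only [Option.map_some, Sum.map_inl, Option.some.injEq, Sum.inl.injEq] at h3
      rw [← h3] at h4
      exact absurd h4 (RIG_Vr h2 ((RIG_V h1 h2 h hs e).2 he) _)
  · have h5 := RIG_some h hx
    simp only [Sum.map_inl, Sum.map_inr] at h5
    rcases hr' with ⟨-, h3⟩ | ⟨e', he', rfl, h3⟩ | ⟨l', x', rfl, h3, h4⟩
    · simp at h3
    · simp only [Option.map_some, Sum.map_inl, Option.some.injEq, Sum.inl.injEq] at h3
      rw [← h3] at he'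
      exact absurd h5 (RIG_Vr h2 he' _)
    · simp only [Option.map_some, Sum.map_inl, Option.some.injEq, Sum.inl.injEq] at h3
      rw [← h3, h5] at h4
      simp only [Option.some.injEq, Sum.inr.injEq] at h4
      rw [← h4]
      rfl

theorem RIG_none (h1 : Enc M π g A ε μ k0 s V F T I θ) {x : E} (hx : x ∉ V) (hs : ∀ l, s l ≠ x) :
    g (Sum.inl x) = none := by
  rcases h1.cover x with h | ⟨l, h⟩ | h | h | h
  · exact absurd h hx
  · exact absurd h (hs l)
  · exact (h1.g_F x h).1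
  · exact (h1.g_T x h).1
  · exact (h1.g_I x h).1

end RIG

theorem stmt_RIG : Stmt_RIG := by
  intro E K L _ _ _ M π g A g' A' ε ε' μ μ' k0 k0' s s' V F T I V' F' T' I' θ θ' σ κ τ hM h1 h2 hA
  have h := RIG_of hA
  have hk := RIG_k0 hM h1 h2 h
  have hs : ∀ l, σ (s l) = s' l := fun l => RIG_ss h1 h2 h hk _ l rfl
  obtain ⟨hε, hμ⟩ := RIG_type h1 h2 h
  refine ⟨RIG_to ?_, hε⟩
  intro z
  rcases z with x | k
  · by_cases hx : x ∈ V
    · have hx' := (RIG_V h1 h2 h hs x).2 hx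
      exact RIG_rule h1 h2 h hs (h1.r_V x hx) (h2.r_V _ hx') (h (Sum.inl x))
    · by_cases hl : ∃ l, s l = x
      · obtain ⟨l, rfl⟩ := hl
        simp only [Sum.map_inl]
        rw [hs l, h2.g_s l, h1.g_s l, hμ, Option.map_map]
        congr 1
        funext l'
        simp only [Function.comp_apply, Sum.map_inl, hs]
      · push Not at hl
        rw [RIG_none h1 hx hl]
        simp only [Sum.map_inl, Option.map_none]
        refine RIG_none h2 (fun h' => hx ((RIG_V h1 h2 h hs x).1 h')) fun l h' => ?_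
        rw [← hs l] at h'
        exact hl l (σ.injective h')
  · by_cases hkk : k = k0
    · subst hkk
      have hlast : ∃ l : Fin M, l.val + 1 = M := ⟨⟨M - 1, by omega⟩, by simp only; omega⟩
      obtain ⟨l, hl⟩ := hlast
      have h4 := h2.r_last l hl
      rw [← hs l, ← hk] at h4
      exact RIG_rule h1 h2 h hs (h1.r_last l hl) h4 (h (Sum.inl (s l)))
    · have h3 : κ k ≠ k0' := by
        rw [← hk]
        exact fun h' => hkk (κ.injective h')
      exact RIG_rule h1 h2 h hs (h1.r_K k hkk) (h2.r_K _ h3) (h (Sum.inr k))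

end Pool.RookLC.Lin
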