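import Pool.Agent.Work.MP_6f78fb_lin.Interface
import Pool.Agent.Work.MP_6f78fb_rk_helper70.ACT
import Pool.Agent.Work.MP_6f78fb_rk_helper83.RG
import Pool.Agent.Work.MP_6f78fb_rk_helper83.THIa
import Pool.Agent.Work.MP_6f78fb_rk_helper98.PROJ

/-!
# Block SMALL: the relations of degree `i` embed in the functions on the small placements
-/

open scoped BigOperators TensorProduct
open Classical

noncomputable section

namespace Pool.RookLC.Lin

open Pool.RookLC

variable {n m : ℕ}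

/-- the placement of a rook matrix -/
def SMALL_w (M : Fin n × Fin m → ℂ) : Cf n m :=
  fun a => if h : ∃ j, M (a, j) = 1 then some (some h.choose) else none

theorem SMALL_w_iff {M : Fin n × Fin m → ℂ} (hM : IsRook M) (a : Fin n) (j : Fin m) :
    SMALL_w M a = some (some j) ↔ M (a, j) = 1 := by
  unfold SMALL_w
  constructor
  · intro h
    split_ifs at h with h1
    have := h1.choose_spec
    simp only [Option.some.injEq] at h
    rwa [h] at this
  · intro h
    have h1 : ∃ j, M (a, j) = 1 := ⟨j, h⟩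
    rw [dif_pos h1, hM.2.1 a _ _ h1.choose_spec h]

theorem SMALL_mat {M : Fin n × Fin m → ℂ} (hM : IsRook M) : mat (SMALL_w M) = M := by
  funext ⟨a, j⟩
  unfold mat
  simp only [SMALL_w_iff hM]
  rcases hM.1 (a, j) with h | h
  · rw [if_neg (by rw [h]; exact zero_ne_one), h]
  · rw [if_pos h, h]

theorem SMALL_unm {M : Fin n × Fin m → ℂ} (a : Fin n) : SMALL_w M a ≠ some none := by
  unfold SMALL_w
  split_ifs <;> simp

theorem SMALL_tt {α : Cf n m} : tt α = 0 ↔ ∀ a, α a ≠ some none := by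
  unfold tt
  rw [Finset.card_eq_zero, Finset.filter_eq_empty_iff]
  simp

theorem SMALL_valid {M : Fin n × Fin m → ℂ} (hM : IsRook M) : Valid (SMALL_w M) := by
  intro a b j ha hb
  rw [SMALL_w_iff hM] at ha hb
  exact hM.2.2 a b j ha hb

/-- polynomials of degree `< i` -/
def SMALL_low (n m i : ℕ) : Submodule ℂ (Poly n m) where
  carrier := {q | q = 0 ∨ q.totalDegree < i}
  zero_mem' := Or.inl rfl
  add_mem' := by
    rintro a b ha hb
    rcases ha with rfl | ha
    · rwa [zero_add]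
    · rcases hb with rfl | hb
      · rw [add_zero]; exact Or.inr ha
      · exact Or.inr (lt_of_le_of_lt (MvPolynomial.totalDegree_add a b) (max_lt ha hb))
  smul_mem' := by
    rintro c a ha
    rcases ha with rfl | ha
    · exact Or.inl (smul_zero c)
    · exact Or.inr (lt_of_le_of_lt (MvPolynomial.totalDegree_smul_le c a) ha)

theorem SMALL_act (g h : G n m) (α : Cf n m) : actC (g * h) α = actC g (actC h α) :=
  (helper70.stmt_ACT n m).1 g h α

theorem SMALL_one (α : Cf n m) : actC (1 : G n m) α = α :=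
  (helper70.stmt_ACT n m).2.1 α

theorem SMALL_Um (g : G n m) (i : ℕ) (α : Cf n m) : Um i (actC g α) ↔ Um i α := by
  have h := (helper70.stmt_ACT n m).2.2.1 g α
  unfold Um
  rw [h.1, h.2.1, h.2.2]

theorem SMALL_Sm (g : G n m) (i : ℕ) (α : Cf n m) : Sm i (actC g α) ↔ Sm i α := by
  have h := (helper70.stmt_ACT n m).2.2.1 g α
  unfold Sm
  rw [h.1, h.2.1, h.2.2]

theorem SMALL_eval (g : G n m) (f : Poly n m) (w : Cf n m) :
    MvPolynomial.eval (mat w) (actP g f) = MvPolynomial.eval (mat (actC g⁻¹ w)) f := by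
  unfold actP
  rw [MvPolynomial.eval_rename]
  congr 1
  congr 1
  funext ⟨a, j⟩
  simp only [Function.comp_apply]
  unfold mat
  have : (w (g.1 a) = some (some (g.2 j))) ↔ (actC g⁻¹ w a = some (some j)) := by
    unfold actC
    have h1 : (g⁻¹).1.symm a = g.1 a := rfl
    rw [h1]
    rcases h2 : w (g.1 a) with _ | _ | k
    · simp
    · simp
    · simp only [Option.some.injEq, Option.map_some]
      constructor
      · intro h; rw [h]; exact g.2.symm_apply_apply j
      · intro h; rw [← h]; exact (g.2.apply_symm_apply k).symm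
  simp only [this]

/-- the pairs (relation, its values) -/
def SMALL_Gam (n m r i : ℕ) : Submodule ℂ (Fn n m × Fn n m) where
  carrier := {x | (∀ α, x.1 α ≠ 0 → Um i α) ∧ (∀ α, x.2 α ≠ 0 → Sm r α) ∧
    ∃ p ∈ SMALL_low n m i, ∀ w, Valid w → tt w = 0 →
      MvPolynomial.eval (mat w) (Th n m x.1 + p) = x.2 w}
  zero_mem' := by
    refine ⟨fun α h => absurd rfl h, fun α h => absurd rfl h, 0, (SMALL_low n m i).zero_mem, ?_⟩
    intro w _ _
    show MvPolynomial.eval (mat w) (Th n m 0 + 0) = 0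
    rw [map_zero, add_zero, map_zero]
  add_mem' := by
    rintro x y ⟨hx1, hx2, p, hp, hx3⟩ ⟨hy1, hy2, q, hq, hy3⟩
    refine ⟨fun α h => ?_, fun α h => ?_, p + q, (SMALL_low n m i).add_mem hp hq, ?_⟩
    · by_contra hv
      have h1 : x.1 α = 0 := by by_contra h1; exact hv (hx1 α h1)
      have h2 : y.1 α = 0 := by by_contra h2; exact hv (hy1 α h2)
      exact h (by rw [Prod.fst_add, Pi.add_apply, h1, h2, add_zero])
    · by_contra hv
      have h1 : x.2 α = 0 := by by_contra h1; exact hv (hx2 α h1)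
      have h2 : y.2 α = 0 := by by_contra h2; exact hv (hy2 α h2)
      exact h (by rw [Prod.snd_add, Pi.add_apply, h1, h2, add_zero])
    · intro w hw ht
      rw [Prod.fst_add, Prod.snd_add, Pi.add_apply, ← hx3 w hw ht, ← hy3 w hw ht, ← map_add,
        map_add (Th n m)]
      congr 1
      abel
  smul_mem' := by
    rintro c x ⟨hx1, hx2, p, hp, hx3⟩
    refine ⟨fun α h => hx1 α ?_, fun α h => hx2 α ?_, c • p, (SMALL_low n m i).smul_mem c hp, ?_⟩
    · intro h1; exact h (by rw [Prod.smul_fst, Pi.smul_apply, h1, smul_zero])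
    · intro h1; exact h (by rw [Prod.smul_snd, Pi.smul_apply, h1, smul_zero])
    · intro w hw ht
      rw [Prod.smul_fst, Prod.smul_snd, Pi.smul_apply, ← hx3 w hw ht, map_smul, ← smul_add,
        MvPolynomial.smul_eval, smul_eq_mul]

theorem SMALL_Gam_act {r i : ℕ} (g : G n m) {x : Fn n m × Fn n m} (hx : x ∈ SMALL_Gam n m r i) :
    ((rF g x.1, rF g x.2) : Fn n m × Fn n m) ∈ SMALL_Gam n m r i := by
  obtain ⟨h1, h2, p, hp, h3⟩ := hx
  refine ⟨fun α h => ?_, fun α h => ?_, actP g p, ?_, ?_⟩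
  · have := h1 (actC g⁻¹ α) h
    rwa [SMALL_Um] at this
  · have := h2 (actC g⁻¹ α) h
    rwa [SMALL_Sm] at this
  · rcases hp with rfl | hp
    · exact Or.inl (map_zero _)
    · exact Or.inr (lt_of_le_of_lt (MvPolynomial.totalDegree_rename_le _ p) hp)
  · intro w hw ht
    have ha := (helper70.stmt_ACT n m).2.2.1 g⁻¹ w
    have h4 : Th n m (rF g x.1) = actP g (Th n m x.1) := (helper70.stmt_ACT n m).2.2.2.2.2.2.2 g x.1
    show MvPolynomial.eval (mat w) (Th n m (rF g x.1) + actP g p) = x.2 (actC g⁻¹ w)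
    rw [h4, ← map_add, SMALL_eval]
    exact h3 _ (ha.1.2 hw) (by rw [ha.2.2]; exact ht)

theorem SMALL_dd_le {α : Cf n m} {i : ℕ} (h : Um i α) : i ≤ n ∧ i ≤ m := by
  obtain ⟨hv, ht, hd⟩ := h
  rw [SMALL_tt] at ht
  constructor
  · rw [← hd]
    unfold dd
    exact (Finset.card_le_univ _).trans (by simp)
  · have h1 : ∀ a : {a // α a ≠ none}, ∃ j, α a = some (some j) := by
      rintro ⟨a, ha⟩
      rcases h1 : α a with _ | _ | j
      · exact absurd h1 ha
      · exact absurd h1 (ht a)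
      · exact ⟨j, rfl⟩
    choose f hf using h1
    have h2 : Function.Injective f := by
      intro a b hab
      apply Subtype.ext
      refine hv a b (f a) (hf a) ?_
      rw [hab]
      exact hf b
    have h3 := Fintype.card_le_of_injective f h2
    rw [Fintype.card_fin, Fintype.card_subtype] at h3
    rw [← hd]
    exact h3

theorem stmt_SMALL (hINJ0 : Stmt_INJ0) : Stmt_SMALL := by
  intro n m r i
  have hP := helper98.stmt_PROJ
  -- the action on pairs of functions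
  obtain ⟨R, hR⟩ : ∃ R : G n m → (Fn n m × Fn n m) →ₗ[ℂ] (Fn n m × Fn n m),
    R = fun g => LinearMap.prodMap (rF g) (rF g) := ⟨_, rfl⟩
  have hRa : ∀ g x, R g x = (rF g x.1, rF g x.2) := fun g x => by rw [hR]; rfl
  have hr1 : ∀ g k : G n m, rF (g * k) = rF g ∘ₗ rF k := by
    intro g k
    refine LinearMap.ext fun f => funext fun α => ?_
    show f (actC (g * k)⁻¹ α) = f (actC k⁻¹ (actC g⁻¹ α))
    rw [mul_inv_rev, SMALL_act]
  have hr2 : rF (1 : G n m) = LinearMap.id := by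
    refine LinearMap.ext fun f => funext fun α => ?_
    show f (actC (1 : G n m)⁻¹ α) = f α
    rw [inv_one, SMALL_one]
  have hR1 : ∀ g k : G n m, R (g * k) = R g ∘ₗ R k := by
    intro g k
    refine LinearMap.ext fun x => ?_
    rw [LinearMap.comp_apply, hRa, hRa, hRa, hr1]
    rfl
  have hR2 : R 1 = LinearMap.id := by
    refine LinearMap.ext fun x => ?_
    rw [hRa, hr2]
    rfl
  -- the kernel of the first projection
  obtain ⟨W, hW⟩ : ∃ W : Submodule ℂ (Fn n m × Fn n m),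
    W = SMALL_Gam n m r i ⊓ LinearMap.ker (LinearMap.fst ℂ (Fn n m) (Fn n m)) := ⟨_, rfl⟩
  have hWm : ∀ x, x ∈ W ↔ x ∈ SMALL_Gam n m r i ∧ x.1 = 0 := by
    intro x; rw [hW, Submodule.mem_inf, LinearMap.mem_ker]; rfl
  obtain ⟨P, hP1, hP2, hP3⟩ := hP (G n m) (Fn n m × Fn n m) R hR1 hR2 W (by
    intro g w hw
    rw [hWm] at hw ⊢
    rw [hRa]
    refine ⟨SMALL_Gam_act g hw.1, ?_⟩
    show rF g w.1 = 0
    rw [hw.2, map_zero])
  -- the image of the first projection
  obtain ⟨W1, hW1⟩ : ∃ W1 : Submodule ℂ (Fn n m),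
    W1 = (SMALL_Gam n m r i).map (LinearMap.fst ℂ (Fn n m) (Fn n m)) := ⟨_, rfl⟩
  obtain ⟨Q, hQ1, hQ2, hQ3⟩ := hP (G n m) (Fn n m) rF hr1 hr2 W1 (by
    intro g w hw
    rw [hW1] at hw ⊢
    obtain ⟨x, hx, rfl⟩ := hw
    exact ⟨_, SMALL_Gam_act g hx, rfl⟩)
  -- a linear section
  obtain ⟨s0, hs0⟩ : ∃ s0 : W1 →ₗ[ℂ] (Fn n m × Fn n m), ∀ φ : W1,
      s0 φ ∈ SMALL_Gam n m r i ∧ (s0 φ).1 = φ := by
    obtain ⟨F, hF⟩ : ∃ F : SMALL_Gam n m r i →ₗ[ℂ] W1, ∀ x, (F x : Fn n m) = (x : Fn n m × Fn n m).1 :=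
      ⟨LinearMap.codRestrict W1 (LinearMap.fst ℂ (Fn n m) (Fn n m) ∘ₗ Submodule.subtype _)
        (fun x => by rw [hW1]; exact ⟨x, x.2, rfl⟩), fun x => rfl⟩
    have hFs : LinearMap.range F = ⊤ := by
      rw [LinearMap.range_eq_top]
      rintro ⟨y, hy⟩
      have hy' := hy
      rw [hW1] at hy'
      obtain ⟨x, hx, hxy⟩ := hy'
      exact ⟨⟨x, hx⟩, Subtype.ext (by rw [hF]; exact hxy)⟩
    obtain ⟨t, ht⟩ := LinearMap.exists_rightInverse_of_surjective F hFs
    refine ⟨Submodule.subtype _ ∘ₗ t, fun φ => ⟨(t φ).2, ?_⟩⟩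
    have := LinearMap.congr_fun ht φ
    have h2 := hF (t φ)
    have h3 : F (t φ) = φ := this
    rw [h3] at h2
    exact h2.symm
  obtain ⟨c, hc⟩ : ∃ c : W1 →ₗ[ℂ] (Fn n m × Fn n m), ∀ φ, c φ = s0 φ - P (s0 φ) :=
    ⟨s0 - P ∘ₗ s0, fun φ => rfl⟩
  have hcG : ∀ φ : W1, c φ ∈ SMALL_Gam n m r i := by
    intro φ
    rw [hc]
    exact (SMALL_Gam n m r i).sub_mem (hs0 φ).1 ((hWm _).1 (hP1 _)).1
  have hc1 : ∀ φ : W1, (c φ).1 = φ := by
    intro φ
    rw [hc, Prod.fst_sub, (hs0 φ).2, ((hWm _).1 (hP1 _)).2, sub_zero]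
  have hkill : ∀ x y, x ∈ SMALL_Gam n m r i → y ∈ SMALL_Gam n m r i → x.1 = y.1 →
      x - P x = y - P y := by
    intro x y hx hy hxy
    have h1 : x - y ∈ W := by
      rw [hWm]
      exact ⟨(SMALL_Gam n m r i).sub_mem hx hy, by rw [Prod.fst_sub, hxy, sub_self]⟩
    have h2 := hP2 _ h1
    rw [map_sub] at h2
    have h3 : x - P x - (y - P y) = 0 := by
      have : x - P x - (y - P y) = (x - y) - (P x - P y) := by abel
      rw [this, h2, sub_self]
    exact sub_eq_zero.1 h3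
  obtain ⟨Q', hQ'⟩ : ∃ Q' : Fn n m →ₗ[ℂ] W1, ∀ x, (Q' x : Fn n m) = Q x :=
    ⟨LinearMap.codRestrict W1 Q hQ1, fun x => rfl⟩
  refine ⟨LinearMap.snd ℂ (Fn n m) (Fn n m) ∘ₗ c ∘ₗ Q', ?_, ?_, ?_⟩
  · intro g φ
    show (c (Q' (rF g φ))).2 = rF g (c (Q' φ)).2
    have h1 : (Q' (rF g φ) : Fn n m) = rF g (Q' φ : Fn n m) := by
      rw [hQ', hQ']
      exact LinearMap.congr_fun (hQ3 g) φ
    have h2 : c (Q' (rF g φ)) = R g (c (Q' φ)) := by
      rw [hc, hc, map_sub]
      have h3 : R g (P (s0 (Q' φ))) = P (R g (s0 (Q' φ))) :=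
        (LinearMap.congr_fun (hP3 g) (s0 (Q' φ))).symm
      rw [h3]
      apply hkill
      · exact (hs0 _).1
      · rw [hRa]; exact SMALL_Gam_act g (hs0 _).1
      · rw [(hs0 _).2, h1, hRa, (hs0 _).2]
    rw [h2, hRa]
  · intro φ α h
    exact (hcG (Q' φ)).2.1 α h
  · intro φ hφ hT hb
    have hRG := (helper83.stmt_RG n m (UZ n m r) i (Th n m φ)
      (helper83.Th_homog φ i (fun α h => (hφ α h).2.2))).1 hT
    obtain ⟨q, hq, hv⟩ := hRG
    obtain ⟨F, hF⟩ : ∃ F : Fn n m, F = fun w => if Valid w ∧ tt w = 0 then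
      MvPolynomial.eval (mat w) (Th n m φ + q) else 0 := ⟨_, rfl⟩
    have hmem : (φ, F) ∈ SMALL_Gam n m r i := by
      refine ⟨hφ, fun α h => ?_, q, hq, ?_⟩
      · have h' : F α ≠ 0 := h
        rw [hF] at h'
        simp only at h'
        split_ifs at h' with h1
        · refine ⟨h1.1, h1.2, ?_⟩
          by_contra h2
          exact h' (hv _ (helper83.mat_mem α r h1.1 (SMALL_tt.1 h1.2) (by omega)))
        · exact absurd rfl h'
      · intro w hw ht
        show _ = F w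
        rw [hF]
        simp only
        rw [if_pos ⟨hw, ht⟩]
    have hφW : φ ∈ W1 := by
      rw [hW1]
      exact ⟨_, hmem, rfl⟩
    have hQφ : (Q' φ : Fn n m) = φ := by
      rw [hQ']
      exact hQ2 φ hφW
    have h2 : (c (Q' φ)).2 = 0 := hb
    have h1 : (c (Q' φ)).1 = φ := by rw [hc1, hQφ]
    obtain ⟨_, _, p, hp, h3⟩ := hcG (Q' φ)
    rw [h1, h2] at h3
    have hT0 : Th n m φ ∈ grI (UZ n m 0) := by
      refine (helper83.stmt_RG n m (UZ n m 0) i (Th n m φ)
        (helper83.Th_homog φ i (fun α h => (hφ α h).2.2))).2 ⟨p, hp, ?_⟩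
      intro x hx
      have h4 := h3 (SMALL_w x) (SMALL_valid hx.1) (SMALL_tt.2 (fun a => SMALL_unm a))
      rw [SMALL_mat hx.1] at h4
      exact h4
    by_contra h0
    obtain ⟨α, hα⟩ : ∃ α, φ α ≠ 0 := by
      by_contra h5
      exact h0 (funext fun α => by by_contra h6; exact h5 ⟨α, h6⟩)
    have h6 := SMALL_dd_le (hφ α hα)
    exact h0 (hINJ0 n m 0 i φ (by omega) (by omega) hφ hT0)

end Pool.RookLC.Lin
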