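import Pool.Agent.Work.MP_6f78fb_lin.Interface
import Pool.Agent.Work.MP_6f78fb_rk_helper49.MAIN
import Pool.Agent.Work.MP_6f78fb_rk_helper20.TENS

/-!
# Block TJ: joint injectivity (helper46)
-/

open scoped BigOperators TensorProduct
open Classical

noncomputable section

namespace Pool.RookLC.Lin

open Pool.RookLC

variable {n m : ℕ}

theorem TJ_mem (r i : ℕ) {α : Cf n m} (h : Um i α) :
    Ideal.Quotient.mk (grI (UZ n m r)) (mon α) ∈ V n m r i := by
  refine ⟨mon α, ?_, rfl⟩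
  rw [SetLike.mem_coe, MvPolynomial.mem_homogeneousSubmodule]
  have := helper49.mon_hom α
  rw [h.2.2] at this
  exact this

theorem TJ_vv (r i : ℕ) {α : Cf n m} (h : Um i α) :
    (vv n m r i α : RR n m r) = Ideal.Quotient.mk (grI (UZ n m r)) (mon α) := by
  unfold vv
  rw [dif_pos ⟨TJ_mem r i h, h⟩]

/-- the map `φ ↦ ∑ φ α • vv α` -/
def TJ_c (n m r i : ℕ) : Fn n m →ₗ[ℂ] V n m r i where
  toFun φ := ∑ α, φ α • vv n m r i α
  map_add' := by intro f g; simp [add_smul, Finset.sum_add_distrib]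
  map_smul' := by intro c f; simp [mul_smul, Finset.smul_sum]

theorem TJ_val (r i : ℕ) (φ : Fn n m) (hφ : ∀ α, φ α ≠ 0 → Um i α) :
    ((TJ_c n m r i φ : V n m r i) : RR n m r) =
      Ideal.Quotient.mk (grI (UZ n m r)) (Th n m φ) := by
  have h1 : Ideal.Quotient.mk (grI (UZ n m r)) (Th n m φ) =
      (Ideal.Quotient.mkₐ ℂ (grI (UZ n m r))) (∑ α, φ α • mon α) := rfl
  have h2 : ((TJ_c n m r i φ : V n m r i) : RR n m r) =
      ∑ α, φ α • (vv n m r i α : RR n m r) := by
    show (((∑ α, φ α • vv n m r i α) : V n m r i) : RR n m r) = _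
    rw [Submodule.coe_sum]
    rfl
  rw [h1, h2, map_sum]
  refine Finset.sum_congr rfl fun α _ => ?_
  rw [map_smul]
  by_cases h0 : φ α = 0
  · rw [h0, zero_smul, zero_smul]
  · rw [TJ_vv r i (hφ α h0)]
    rfl

theorem stmt_TJ : Stmt_TJ := by
  intro n m r i b hb F hF hF1 hF2 hcc
  set B : Submodule ℂ (Fn n m) :=
    { carrier := {φ | (∀ α, φ α ≠ 0 → Um i α) ∧ b φ = 0}
      add_mem' := by
        rintro φ ψ ⟨h1, h2⟩ ⟨h3, h4⟩
        refine ⟨fun α hα => ?_, by rw [map_add, h2, h4, add_zero]⟩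
        by_cases h : φ α = 0
        · refine h3 α fun h' => hα ?_
          show φ α + ψ α = 0
          rw [h, h', add_zero]
        · exact h1 α h
      zero_mem' := ⟨fun α hα => absurd rfl hα, map_zero b⟩
      smul_mem' := by
        rintro c φ ⟨h1, h2⟩
        refine ⟨fun α hα => h1 α fun h => hα ?_, by rw [map_smul, h2, smul_zero]⟩
        show c * φ α = 0
        rw [h, mul_zero] } with hB
  obtain ⟨e, -, he, hrange⟩ := helper20.stmt_TENS (Cf n m) (Cf n m) B B
  have hmem : F ∈ LinearMap.range e := by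
    rw [hrange]
    refine ⟨fun β => ⟨fun α hα => (hF (α, β) hα).1, hF1 β⟩,
      fun α => ⟨fun β hβ => (hF (α, β) hβ).2, hF2 α⟩⟩
  obtain ⟨t, rfl⟩ := hmem
  set C : B →ₗ[ℂ] V n m r i := (TJ_c n m r i) ∘ₗ B.subtype with hC
  have hCinj : Function.Injective C := by
    rw [injective_iff_map_eq_zero]
    rintro ⟨φ, hφ1, hφ2⟩ h
    have h2 : Ideal.Quotient.mk (grI (UZ n m r)) (Th n m φ) = 0 := by
      rw [← TJ_val r i φ hφ1]
      have h3 : TJ_c n m r i φ = 0 := h
      rw [h3]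
      rfl
    have h4 := hb φ hφ1 (Ideal.Quotient.eq_zero_iff_mem.1 h2) hφ2
    exact Subtype.ext h4
  have hCC : Function.Injective (TensorProduct.map C C) :=
    TensorProduct.map_injective_of_flat_flat C C hCinj hCinj
  have hcomp : (cc n m r i i) ∘ₗ e = TensorProduct.map C C := by
    apply TensorProduct.ext'
    intro p q
    rw [LinearMap.comp_apply, TensorProduct.map_tmul]
    show ∑ ω : Pr n m, e (p ⊗ₜ[ℂ] q) ω • (vv n m r i ω.1 ⊗ₜ[ℂ] vv n m r i ω.2) =
      (∑ α, (p : Fn n m) α • vv n m r i α) ⊗ₜ[ℂ] (∑ β, (q : Fn n m) β • vv n m r i β)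
    rw [TensorProduct.sum_tmul, Fintype.sum_prod_type]
    refine Finset.sum_congr rfl fun α _ => ?_
    rw [TensorProduct.tmul_sum]
    refine Finset.sum_congr rfl fun β _ => ?_
    rw [he, TensorProduct.smul_tmul_smul]
  have h0 : TensorProduct.map C C t = 0 := by
    rw [← hcomp]
    exact hcc
  have ht : t = 0 := hCC (by rw [h0, map_zero])
  rw [ht, map_zero]

end Pool.RookLC.Lin
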