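import Pool.Agent.Work.MP_6f78fb_lin.Interface

/-! Block TRA1: every placement is standard for suitable bijections. -/

open scoped BigOperators TensorProduct
open Classical

noncomputable section

namespace Pool.RookLC.Lin

open Pool.RookLC

theorem stmt_TRA1 : Stmt_TRA1 := by
  intro n m i B hB
  obtain ⟨hv, ht, hd⟩ := hB
  have hunm : ∀ a, B a ≠ some none := by
    intro a ha
    unfold tt at ht
    rw [Finset.card_eq_zero] at ht
    have : a ∈ Finset.univ.filter (fun a => B a = some none) :=
      Finset.mem_filter.2 ⟨Finset.mem_univ _, ha⟩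
    rw [ht] at this
    exact absurd this (Finset.notMem_empty a)
  have hcol : ∀ a : {a : Fin n // B a ≠ none}, ∃ j, B a = some (some j) := by
    rintro ⟨a, ha⟩
    rcases hs : B a with _ | _ | j
    · exact absurd hs ha
    · exact absurd hs (hunm a)
    · exact ⟨j, rfl⟩
  choose c hc using hcol
  have hcinj : Function.Injective c := by
    intro a b hab
    have h1 := hc b
    rw [← hab] at h1
    exact Subtype.ext (hv a b (c a) (hc a) h1)
  -- the number of rows and columns
  have hcard1 : Fintype.card {a : Fin n // B a ≠ none} = i := by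
    rw [Fintype.card_subtype]
    exact hd
  have e1 : {a : Fin n // B a ≠ none} ≃ Fin i := Fintype.equivFinOfCardEq hcard1
  have e2 : {a : Fin n // ¬ B a ≠ none} ≃ Fin (n - i) := by
    refine Fintype.equivFinOfCardEq ?_
    rw [Fintype.card_subtype_compl, hcard1, Fintype.card_fin]
  obtain ⟨ec, hec⟩ : ∃ ec : {a : Fin n // B a ≠ none} ≃ {j : Fin m // j ∈ Set.range c},
      ∀ a, (ec a : Fin m) = c a := ⟨Equiv.ofInjective c hcinj, fun a => rfl⟩
  have hcard2 : Fintype.card {j : Fin m // j ∈ Set.range c} = i := by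
    rw [← Fintype.card_congr ec, hcard1]
  have e4 : {j : Fin m // ¬ j ∈ Set.range c} ≃ Fin (m - i) := by
    refine Fintype.equivFinOfCardEq ?_
    rw [Fintype.card_subtype_compl, hcard2, Fintype.card_fin]
  refine ⟨(Equiv.sumCompl (fun a => B a ≠ none)).symm.trans (Equiv.sumCongr e1 e2),
    (Equiv.sumCompl (fun j => j ∈ Set.range c)).symm.trans
      (Equiv.sumCongr (ec.symm.trans e1) e4), ?_⟩
  funext a
  unfold toCf
  by_cases ha : B a ≠ none
  · have h1 : ((Equiv.sumCompl (fun a => B a ≠ none)).symm.trans (Equiv.sumCongr e1 e2)) a =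
        Sum.inl (e1 ⟨a, ha⟩) := by
      rw [Equiv.trans_apply, Equiv.sumCompl_symm_apply_of_pos (p := fun a => B a ≠ none) ha]
      rfl
    rw [h1]
    show some (some _) = B a
    rw [hc ⟨a, ha⟩]
    congr 2
    rw [Equiv.symm_trans_apply]
    show ((ec.symm.trans e1).symm (e1 ⟨a, ha⟩) : Fin m) = c ⟨a, ha⟩
    rw [Equiv.symm_trans_apply, Equiv.symm_apply_apply, Equiv.symm_symm, hec]
  · have h1 : ((Equiv.sumCompl (fun a => B a ≠ none)).symm.trans (Equiv.sumCongr e1 e2)) a =
        Sum.inr (e2 ⟨a, ha⟩) := by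
      rw [Equiv.trans_apply, Equiv.sumCompl_symm_apply_of_neg (p := fun a => B a ≠ none) ha]
      rfl
    rw [h1]
    push Not at ha
    rw [ha]
    rfl

end Pool.RookLC.Lin
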