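import Pool.Agent.Work.MP_6f78fb_lin.Interface

/-! # Block TRA2: graphs and placements (helper75) -/

open scoped BigOperators TensorProduct
open Classical

noncomputable section

namespace Pool.RookLC.Lin

open Pool.RookLC

section

variable {n m : ℕ} {E K L : Type}

theorem TRA2_iff (ψ : Fin n ≃ E ⊕ K) (χ : Fin m ≃ E ⊕ L) (A : GR E K L) (a : Fin n) (j : Fin m) :
    toCf ψ χ A a = some (some j) ↔ A (ψ a) = some (χ j) := by
  unfold toCf
  cases h : A (ψ a) with
  | none => simp
  | some c =>
    rw [Option.map_some, Option.some.injEq, Option.some.injEq, Option.some.injEq]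
    exact Equiv.symm_apply_eq χ

theorem TRA2_none (ψ : Fin n ≃ E ⊕ K) (χ : Fin m ≃ E ⊕ L) (A : GR E K L) (a : Fin n) :
    toCf ψ χ A a = none ↔ A (ψ a) = none := by
  unfold toCf
  rw [Option.map_eq_none_iff]

theorem TRA2_mark (ψ : Fin n ≃ E ⊕ K) (χ : Fin m ≃ E ⊕ L) (A : GR E K L) (a : Fin n) :
    toCf ψ χ A a ≠ some none := by
  unfold toCf
  cases h : A (ψ a) with
  | none => simp
  | some c => simp

end

theorem stmt_TRA2 : Stmt_TRA2 := by
  intro n m E K L _ _ _ ψ χ
  refine ⟨fun A => ⟨⟨fun hV => ?_, fun hP => ?_⟩, ?_, ?_⟩, ?_, ?_⟩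
  · intro x y c hx hy
    have h1 := hV (ψ.symm x) (ψ.symm y) (χ.symm c)
      ((TRA2_iff ψ χ A _ _).2 (by rw [Equiv.apply_symm_apply, Equiv.apply_symm_apply]; exact hx))
      ((TRA2_iff ψ χ A _ _).2 (by rw [Equiv.apply_symm_apply, Equiv.apply_symm_apply]; exact hy))
    exact ψ.symm.injective h1
  · intro a b j ha hb
    exact ψ.injective (hP _ _ _ ((TRA2_iff ψ χ A _ _).1 ha) ((TRA2_iff ψ χ A _ _).1 hb))
  · unfold tt
    rw [Finset.card_eq_zero, Finset.filter_eq_empty_iff]
    intro a _
    exact TRA2_mark ψ χ A a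
  · unfold dd arcs
    refine Finset.card_bij (fun a _ => ψ a) ?_ ?_ ?_
    · intro a ha
      rw [Finset.mem_filter] at ha ⊢
      exact ⟨Finset.mem_univ _, fun h => ha.2 ((TRA2_none ψ χ A a).2 h)⟩
    · intro a _ b _ hab
      exact ψ.injective hab
    · intro x hx
      rw [Finset.mem_filter] at hx
      refine ⟨ψ.symm x, ?_, ψ.apply_symm_apply x⟩
      rw [Finset.mem_filter]
      refine ⟨Finset.mem_univ _, fun h => hx.2 ?_⟩
      have := (TRA2_none ψ χ A _).1 h
      rwa [Equiv.apply_symm_apply] at this
  · intro A A' h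
    funext x
    have h1 := congrFun h (ψ.symm x)
    unfold toCf at h1
    rw [Equiv.apply_symm_apply] at h1
    refine Option.map_injective ?_ h1
    intro c c' hcc
    exact χ.symm.injective (Option.some.inj hcc)
  · intro α hα
    refine ⟨fun x => match α (ψ.symm x) with
      | some (some j) => some (χ j)
      | _ => none, ?_⟩
    funext a
    have h1 : α a ≠ some none := by
      intro h
      unfold tt at hα
      rw [Finset.card_eq_zero, Finset.filter_eq_empty_iff] at hα
      exact hα (Finset.mem_univ a) h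
    unfold toCf
    simp only [Equiv.symm_apply_apply]
    cases h : α a with
    | none => simp
    | some c =>
      cases c with
      | none => exact absurd h h1
      | some j => simp

end Pool.RookLC.Lin
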