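import Pool.Agent.Work.MP_6f78fb_lin.Interface

/-!
# Block TRA3 (MP_6f78fb_lin): the group

Written by helper55.
-/

open scoped BigOperators
open Classical

set_option autoImplicit false

noncomputable section

namespace Pool.RookLC.Lin

open Pool.RookLC

lemma TRA3_inj {n m : ℕ} {E K L : Type} (ψ : Fin n ≃ E ⊕ K) (χ : Fin m ≃ E ⊕ L)
    (A A' : GR E K L) (h : toCf ψ χ A = toCf ψ χ A') : A = A' := by
  funext z
  have h1 := congrFun h (ψ.symm z)
  unfold toCf at h1
  rw [ψ.apply_symm_apply] at h1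
  have hinj : Function.Injective (fun c : E ⊕ L => (some (χ.symm c) : Option (Fin m))) := by
    intro c c' hc
    exact χ.symm.injective (Option.some.inj hc)
  exact Option.map_injective hinj h1

theorem stmt_TRA3 : Stmt_TRA3 := by
  intro n m E K L _ _ _ ψ ψ' χ χ' h hh
  set P : Equiv.Perm (E ⊕ K) := ψ.symm.trans (h.1.trans ψ') with hP
  set P' : Equiv.Perm (E ⊕ L) := χ.symm.trans (h.2.trans χ') with hP'
  have hact : ∀ A : GR E K L,
      actC h (toCf ψ χ A) = toCf ψ' χ' (fun z => (A (P.symm z)).map P') := by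
    intro A
    funext a
    unfold actC toCf
    have h1 : P.symm (ψ' a) = ψ (h.1.symm a) := by
      simp [hP]
    beta_reduce
    rw [h1, Option.map_map, Option.map_map]
    congr 1
    funext c
    simp [hP']
  rw [hact] at hh
  have hst : ∀ z, (stdG E K L (P.symm z)).map P' = stdG E K L z :=
    fun z => congrFun (TRA3_inj ψ' χ' _ _ hh) z
  have h1 : Set.MapsTo P.symm (Set.range (Sum.inl : E → E ⊕ K)) (Set.range Sum.inl) := by
    rintro _ ⟨x, rfl⟩
    have h2 := hst (Sum.inl x)
    cases hz : P.symm (Sum.inl x) with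
    | inl y => exact ⟨y, rfl⟩
    | inr k =>
      rw [hz] at h2
      cases h2
  obtain ⟨⟨s, t⟩, hst1⟩ := Equiv.Perm.mem_sumCongrHom_range_of_perm_mapsTo_inl h1
  have hs : ∀ x, P.symm (Sum.inl x) = Sum.inl (s x) := by
    intro x
    rw [← hst1]
    rfl
  have ht : ∀ k, P.symm (Sum.inr k) = Sum.inr (t k) := by
    intro k
    rw [← hst1]
    rfl
  have hP'1 : ∀ y, P' (Sum.inl y) = Sum.inl (s.symm y) := by
    intro y
    have h2 := hst (Sum.inl (s.symm y))
    rw [hs, s.apply_symm_apply] at h2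
    exact Option.some.inj h2
  have h3 : Set.MapsTo P' (Set.range (Sum.inl : E → E ⊕ L)) (Set.range Sum.inl) := by
    rintro _ ⟨y, rfl⟩
    exact ⟨_, (hP'1 y).symm⟩
  obtain ⟨⟨s', τ⟩, hst2⟩ := Equiv.Perm.mem_sumCongrHom_range_of_perm_mapsTo_inl h3
  have hs' : ∀ x, P' (Sum.inl x) = Sum.inl (s' x) := by
    intro x
    rw [← hst2]
    rfl
  have hτ : ∀ l, P' (Sum.inr l) = Sum.inr (τ l) := by
    intro l
    rw [← hst2]
    rfl
  refine ⟨s.symm, t.symm, τ, fun A => ?_⟩
  rw [hact]
  congr 1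
  funext z
  unfold actG
  have h4 : P.symm z = Sum.map s.symm.symm t.symm.symm z := by
    cases z with
    | inl x => rw [hs x]; rfl
    | inr k => rw [ht k]; rfl
  have h5 : (P' : E ⊕ L → E ⊕ L) = Sum.map s.symm τ := by
    funext c
    cases c with
    | inl x => rw [hP'1 x]; rfl
    | inr l => rw [hτ l]; rfl
  rw [h4, h5]

end Pool.RookLC.Lin
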