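import Pool.Agent.Work.MP_6f78fb_rk.Interface

/-!
# MP_6f78fb_co, linear range `7 r ≤ min n m`: definitions

Library reused (all proved): `Pool.Agent.Work.MP_6f78fb_rk.*` (definitions `Cf`, `Pr`, `Fn`, `Fn2`,
`Valid`, `dd`, `tt`, `Um`, `Th`, `actC`, `rF`, `rF2`, `comps`, `fl`, `ch`, `FS`), and the proved blocks
`helper83.stmt_RG`, `helper56.stmt_VSP`, `helper94.stmt_COMPA`, `helper98.stmt_COMPB`,
`helper23.stmt_FOPS`, `helper23.stmt_HL`, `helper49.stmt_EQV`, `helper70.stmt_ACT`,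
`helper20.stmt_TENS`, `helper98.stmt_PROJ`, `helper27.stmt_TRS`.
-/

open scoped BigOperators TensorProduct
open Classical

noncomputable section

namespace Pool.RookLC.Lin

open Pool.RookLC

/-! ## A. Representations -/

/-- `V` embeds equivariantly in `W`. -/
def Emb {Γ V W : Type} [Group Γ] [AddCommGroup V] [Module ℂ V] [AddCommGroup W] [Module ℂ W]
    (ρ : Representation ℂ Γ V) (σ : Representation ℂ Γ W) : Prop :=
  ∃ f : V →ₗ[ℂ] W, Function.Injective f ∧ ∀ g v, f (ρ g v) = σ g (f v)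

/-! ## B. Placements -/

/-- unmarked placement with fewer than `r` rooks -/
def Sm {n m : ℕ} (r : ℕ) (α : Cf n m) : Prop := Valid α ∧ tt α = 0 ∧ dd α < r

/-- the class of the monomial of a placement of size `d` -/
def vv (n m r d : ℕ) (α : Cf n m) : V n m r d :=
  if h : Ideal.Quotient.mk (grI (UZ n m r)) (mon α) ∈ V n m r d ∧ Um d α then ⟨_, h.1⟩ else 0

/-- the linear map sending the pair `ω` to `vv ω.1 ⊗ vv ω.2` -/
def cc (n m r a b : ℕ) : Fn2 n m →ₗ[ℂ] (V n m r a ⊗[ℂ] V n m r b) where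
  toFun F := ∑ ω, F ω • (vv n m r a ω.1 ⊗ₜ[ℂ] vv n m r b ω.2)
  map_add' := by intro f g; simp [add_smul, Finset.sum_add_distrib]
  map_smul' := by intro c f; simp [mul_smul, Finset.smul_sum]

/-! ## C. Flips -/

/-- the action on pairs -/
def ac2 {n m : ℕ} (g : G n m) (ω : Pr n m) : Pr n m := (actC g ω.1, actC g ω.2)

/-- sum over the flips of the components of charge `-1` (the first placement has one rook more) -/
def Up (n m : ℕ) : Fn2 n m →ₗ[ℂ] Fn2 n m where
  toFun f := fun ω => ∑ κ ∈ (comps ω).filter (fun κ => ch κ ω = (-1, 0)), f (fl κ ω)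
  map_add' := by intro f g; funext ω; simp [Finset.sum_add_distrib]
  map_smul' := by intro c f; funext ω; simp [Finset.mul_sum]

/-- pairs of placements of size `i`; every component of charge `+1` has exactly one row, no component
of charge `-1` has exactly one row -/
def P1 {n m : ℕ} (i : ℕ) (ω : Pr n m) : Prop :=
  Um i ω.1 ∧ Um i ω.2 ∧ (∀ κ ∈ comps ω, ch κ ω = (1, 0) → κ.card = 1) ∧
    (∀ κ ∈ comps ω, ch κ ω = (-1, 0) → κ.card ≠ 1)

/-! ## D. Partial injections -/

/-- partial functions -/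
abbrev PF (X Y : Type) := X → Option Y

/-- injectivity -/
def PInj {X Y : Type} (f : PF X Y) : Prop := ∀ a b c, f a = some c → f b = some c → a = b

/-- number of arcs -/
def arcs {X Y : Type} [Fintype X] (f : PF X Y) : ℕ := (Finset.univ.filter fun a => f a ≠ none).card

/-- The standard graph of type `w` on `w / 2` vertices `0 → 1 → ...`: a cycle if `w` is odd, a chain if
`w` is even. -/
def bl (w : ℕ) : PF (Fin (w / 2)) (Fin (w / 2)) := fun l =>
  if h : l.val + 1 < w / 2 then some ⟨l.val + 1, h⟩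
  else if w % 2 = 1 then some ⟨0, lt_of_le_of_lt (Nat.zero_le _) l.isLt⟩ else none

/-- vertices with an out-arc or an in-arc -/
def touched {E : Type} [Fintype E] (g : PF E E) : Finset E :=
  Finset.univ.filter fun x => g x ≠ none ∨ ∃ y, g y = some x

/-- The universal property of the standard partial injections `π μ` of `Fin M`. -/
def CLSP (M : ℕ) (π : Multiset ℕ → PF (Fin M) (Fin M)) : Prop :=
  ∀ (E : Type) [Fintype E] (g : PF E E), PInj g → 2 * arcs g ≤ M →
    ∀ A0 : Finset E, touched g ⊆ A0 → M ≤ A0.card →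
      ∃ μ : Multiset ℕ, (∀ w ∈ μ, 3 ≤ w) ∧ μ.sum ≤ 4 * arcs g ∧
        ∃ s : Fin M → E, Function.Injective s ∧ (∀ l, s l ∈ A0) ∧
          (∀ x ∈ touched g, ∃ l, s l = x) ∧ ∀ l, g (s l) = (π μ l).map s

/-- digraphs with inner vertices `E`, sources `K`, sinks `L` -/
abbrev GR (E K L : Type) := PF (E ⊕ K) (E ⊕ L)

section graphs

variable {E K L : Type}

/-- `x` is reachable from the source `k` -/
inductive Rch (A : GR E K L) (k : K) : E → Prop
  | base (x : E) : A (Sum.inr k) = some (Sum.inl x) → Rch A k x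
  | step (x y : E) : Rch A k x → A (Sum.inl x) = some (Sum.inl y) → Rch A k y

/-- `x` leads to a sink -/
inductive Lds (A : GR E K L) : E → Prop
  | base (x : E) (l : L) : A (Sum.inl x) = some (Sum.inr l) → Lds A x
  | step (x y : E) : A (Sum.inl x) = some (Sum.inl y) → Lds A y → Lds A x

/-- a closed set of inner vertices: every vertex has an arc to a vertex of the set -/
def Clo (A : GR E K L) (T : Finset E) : Prop :=
  ∀ x ∈ T, ∃ y ∈ T, A (Sum.inl x) = some (Sum.inl y)

/-- action of bijections of the vertices -/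
def actG (σ : Equiv.Perm E) (κ : Equiv.Perm K) (τ : Equiv.Perm L) (A : GR E K L) : GR E K L :=
  fun z => (A (Sum.map σ.symm κ.symm z)).map (Sum.map σ τ)

/-- no arc from a source to a sink; an inner vertex without out-arc is isolated or reachable from a
source -/
def Good (A : GR E K L) : Prop :=
  (∀ k l, A (Sum.inr k) ≠ some (Sum.inr l)) ∧
  ∀ x, A (Sum.inl x) = none → (∀ y, A y ≠ some (Sum.inl x)) ∨ ∃ k, Rch A k x

/-- relation between the arc `b` of `g` and the arc `a` of `A` -/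
def Rule (A : GR E K L) (V : Finset E) (a b : Option (E ⊕ L)) : Prop :=
  (b = none ∧ a = none) ∨ (∃ e ∈ V, b = some (Sum.inl e) ∧ a = some (Sum.inl e)) ∨
  (∃ l x, b = some (Sum.inr l) ∧ a = some (Sum.inl x) ∧ A (Sum.inl x) = some (Sum.inr l))

/-- The graph `A` encodes the graph `g`, the bit `ε` and the type `μ`. -/
structure Enc (M : ℕ) (π : Multiset ℕ → PF (Fin M) (Fin M)) (g A : GR E K L) (ε : Bool)
    (μ : Multiset ℕ) (k0 : K) (s : Fin M → E) (V F T I : Finset E) [Fintype E]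
    (θ : Equiv.Perm E) : Prop where
  pinj : PInj A
  s_inj : Function.Injective s
  cover : ∀ x, x ∈ V ∨ (∃ l, s l = x) ∨ x ∈ F ∨ x ∈ T ∨ x ∈ I
  V_s : ∀ x ∈ V, ∀ l, s l ≠ x
  V_T : ∀ x ∈ V, x ∉ T
  a_k0 : ∀ l : Fin M, l.val = 0 → A (Sum.inr k0) = some (Sum.inl (s l))
  a_s : ∀ l l' : Fin M, l'.val = l.val + 1 → A (Sum.inl (s l)) = some (Sum.inl (s l'))
  r_last : ∀ l : Fin M, l.val + 1 = M → Rule A V (A (Sum.inl (s l))) (g (Sum.inr k0))
  r_V : ∀ x ∈ V, Rule A V (A (Sum.inl x)) (g (Sum.inl x))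
  r_K : ∀ k, k ≠ k0 → Rule A V (A (Sum.inr k)) (g (Sum.inr k))
  g_s : ∀ l, g (Sum.inl (s l)) = (π μ l).map (fun l' => Sum.inl (s l'))
  g_F : ∀ x ∈ F, g (Sum.inl x) = none ∧ ∃ l, A (Sum.inl x) = some (Sum.inr l)
  g_T : ∀ x ∈ T, g (Sum.inl x) = none ∧ θ x ∈ T ∧ A (Sum.inl x) = some (Sum.inl (θ x))
  g_I : ∀ x ∈ I, g (Sum.inl x) = none ∧ A (Sum.inl x) = none ∧ ∀ y, A y ≠ some (Sum.inl x)
  th_fix : ∀ x, x ∉ T → θ x = x
  th_type : θ.cycleType = μ + (if ε then {2} else 0)
  mu3 : ∀ w ∈ μ, 3 ≤ w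
  maxT : ∀ T' : Finset E, Clo A T' → T' ⊆ T
  small : ∀ k, k ≠ k0 → (Finset.univ.filter fun x => Rch A k x).card < M
  viso : ∀ x ∈ V, A (Sum.inl x) ≠ none ∨ ∃ y, A y = some (Sum.inl x)

/-- the sinks touched by `g` -/
def sinks [Fintype L] (g : GR E K L) : Finset L := Finset.univ.filter fun l => ∃ y, g y = some (Sum.inr l)

/-- the arcs starting in `V` or in a source -/
def arcsV [Fintype E] [Fintype K] (g : GR E K L) (V : Finset E) : ℕ :=
  (Finset.univ.filter fun z : E ⊕ K => g z ≠ none ∧ ∀ x, z = Sum.inl x → x ∈ V).card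

/-- vertices reachable from a source or leading to a sink -/
def VV [Fintype E] (g : GR E K L) : Finset E :=
  Finset.univ.filter fun x => (∃ k, Rch g k x) ∨ Lds g x

/-- the part of `g` outside `VV g` -/
def g2 [Fintype E] (g : GR E K L) : PF E E :=
  fun x => if x ∈ VV g then none else
    match g (Sum.inl x) with
    | some (Sum.inl y) => some y
    | _ => none

/-- The choices made for `g`. -/
structure Dat (M q : ℕ) (g : GR E K L) (s : Fin M → E) (f : L → E) (I : Finset E)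
    (θ : Equiv.Perm E) [Fintype E] [Fintype K] [Fintype L] : Prop where
  hq : 1 ≤ q
  hM : M = 2 * q + 1
  ginj : PInj g
  garcs : arcs g ≤ q
  s_inj : Function.Injective s
  s_V : ∀ l, s l ∉ VV g
  s_cov : ∀ x ∈ touched (g2 g), ∃ l, s l = x
  f_inj : ∀ l ∈ sinks g, ∀ l' ∈ sinks g, f l = f l' → l = l'
  f_V : ∀ l ∈ sinks g, f l ∉ VV g
  f_s : ∀ l ∈ sinks g, ∀ l', s l' ≠ f l
  I_V : ∀ x ∈ I, x ∉ VV g
  I_s : ∀ x ∈ I, ∀ l, s l ≠ x
  I_f : ∀ x ∈ I, ∀ l ∈ sinks g, f l ≠ x
  I_card : I.card + (VV g).card = arcsV g (VV g)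
  th_V : ∀ x ∈ VV g, θ x = x
  th_s : ∀ l, θ (s l) = s l
  th_f : ∀ l ∈ sinks g, θ (f l) = f l
  th_I : ∀ x ∈ I, θ x = x

/-- replace the sink `l` by the vertex `f l` -/
def md (f : L → E) : Option (E ⊕ L) → Option (E ⊕ L)
  | none => none
  | some (Sum.inl e) => some (Sum.inl e)
  | some (Sum.inr l) => some (Sum.inl (f l))

/-- The encoding graph. -/
def AA [Fintype E] [Fintype L] (M : ℕ) (g : GR E K L) (k0 : K) (s : Fin M → E) (f : L → E)
    (I : Finset E) (θ : Equiv.Perm E) : GR E K L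
  | Sum.inr k => if k = k0 then (if h : 0 < M then some (Sum.inl (s ⟨0, h⟩)) else none)
      else md f (g (Sum.inr k))
  | Sum.inl x =>
      if x ∈ VV g then md f (g (Sum.inl x))
      else if hs : ∃ l, s l = x then
        (if h : (Classical.choose hs).val + 1 < M then
          some (Sum.inl (s ⟨(Classical.choose hs).val + 1, h⟩)) else md f (g (Sum.inr k0)))
      else if hf : ∃ l, l ∈ sinks g ∧ f l = x then some (Sum.inr (Classical.choose hf))
      else if x ∈ I then none
      else some (Sum.inl (θ x))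

/-- the set of the remaining vertices -/
def TT [Fintype E] [Fintype L] (M : ℕ) (g : GR E K L) (s : Fin M → E) (f : L → E) (I : Finset E) :
    Finset E :=
  Finset.univ.filter fun x => x ∉ VV g ∧ (∀ l, s l ≠ x) ∧ (∀ l ∈ sinks g, f l ≠ x) ∧ x ∉ I

end graphs

/-! ## E. From graphs to placements -/

/-- the placement of a graph, for given bijections of the rows and the columns with the vertices -/
def toCf {n m : ℕ} {E K L : Type} (ψ : Fin n ≃ E ⊕ K) (χ : Fin m ≃ E ⊕ L) (A : GR E K L) : Cf n m :=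
  fun a => (A (ψ a)).map (fun c => some (χ.symm c))

/-- the standard graph `x ↦ x` on `E` -/
def stdG (E K L : Type) : GR E K L
  | Sum.inl x => some (Sum.inl x)
  | Sum.inr _ => none

end Pool.RookLC.Lin
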