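import Pool.Agent.Work.MP_6f78fb_lin.Interface

/-!
# Evaluation of the encoding graph `AA`
-/

open Classical

noncomputable section

namespace Pool.RookLC.Lin

variable {E K L : Type} {M q : ℕ} {g : GR E K L} {s : Fin M → E} {f : L → E} {I : Finset E}
  {θ : Equiv.Perm E} {k0 : K}

theorem md_inr {b : Option (E ⊕ L)} {l : L} : md f b ≠ some (Sum.inr l) := by
  rcases b with _ | _ | _ <;> simp [md]

theorem md_none {b : Option (E ⊕ L)} : md f b = none ↔ b = none := by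
  rcases b with _ | _ | _ <;> simp [md]

theorem md_inl {b : Option (E ⊕ L)} {x : E} : md f b = some (Sum.inl x) ↔
    b = some (Sum.inl x) ∨ ∃ l, b = some (Sum.inr l) ∧ f l = x := by
  rcases b with _ | _ | _ <;> simp [md]

theorem mem_sinks [Fintype L] {l : L} : l ∈ sinks g ↔ ∃ y, g y = some (Sum.inr l) := by
  simp [sinks]

theorem AA_k0 [Fintype E] [Fintype L] (h : 0 < M) :
    AA M g k0 s f I θ (Sum.inr k0) = some (Sum.inl (s ⟨0, h⟩)) := by
  simp [AA, h]

theorem AA_k [Fintype E] [Fintype L] {k : K} (hk : k ≠ k0) :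
    AA M g k0 s f I θ (Sum.inr k) = md f (g (Sum.inr k)) := by
  simp [AA, hk]

theorem AA_V [Fintype E] [Fintype L] {x : E} (hx : x ∈ VV g) :
    AA M g k0 s f I θ (Sum.inl x) = md f (g (Sum.inl x)) := by
  simp [AA, hx]

section dat

variable [Fintype E] [Fintype K] [Fintype L]

theorem AA_s (hd : Dat M q g s f I θ) (l : Fin M) (h : l.val + 1 < M) :
    AA M g k0 s f I θ (Sum.inl (s l)) = some (Sum.inl (s ⟨l.val + 1, h⟩)) := by
  have hs : ∃ l', s l' = s l := ⟨l, rfl⟩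
  have hc : Classical.choose hs = l := hd.s_inj (Classical.choose_spec hs)
  simp only [AA]
  rw [if_neg (hd.s_V l), dif_pos hs]
  simp only [hc]
  rw [dif_pos h]

theorem AA_last (hd : Dat M q g s f I θ) (l : Fin M) (h : l.val + 1 = M) :
    AA M g k0 s f I θ (Sum.inl (s l)) = md f (g (Sum.inr k0)) := by
  have hs : ∃ l', s l' = s l := ⟨l, rfl⟩
  have hc : Classical.choose hs = l := hd.s_inj (Classical.choose_spec hs)
  simp only [AA]
  rw [if_neg (hd.s_V l), dif_pos hs]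
  simp only [hc]
  rw [dif_neg (by omega)]

theorem AA_f (hd : Dat M q g s f I θ) {l : L} (hl : l ∈ sinks g) :
    AA M g k0 s f I θ (Sum.inl (f l)) = some (Sum.inr l) := by
  have hs : ¬ ∃ l', s l' = f l := fun ⟨l', h⟩ => hd.f_s l hl l' h
  have hf : ∃ l', l' ∈ sinks g ∧ f l' = f l := ⟨l, hl, rfl⟩
  have hc : Classical.choose hf = l :=
    hd.f_inj _ (Classical.choose_spec hf).1 _ hl (Classical.choose_spec hf).2
  simp only [AA]
  rw [if_neg (hd.f_V l hl), dif_neg hs, dif_pos hf, hc]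

theorem AA_I (hd : Dat M q g s f I θ) {x : E} (hx : x ∈ I) :
    AA M g k0 s f I θ (Sum.inl x) = none := by
  have hs : ¬ ∃ l', s l' = x := fun ⟨l', h⟩ => hd.I_s x hx l' h
  have hf : ¬ ∃ l', l' ∈ sinks g ∧ f l' = x := fun ⟨l', h1, h2⟩ => hd.I_f x hx l' h1 h2
  simp only [AA]
  rw [if_neg (hd.I_V x hx), dif_neg hs, dif_neg hf, if_pos hx]

omit [Fintype K] in
theorem mem_TT {x : E} : x ∈ TT M g s f I ↔
    x ∉ VV g ∧ (∀ l, s l ≠ x) ∧ (∀ l ∈ sinks g, f l ≠ x) ∧ x ∉ I := by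
  simp [TT]

theorem AA_T {x : E} (hx : x ∈ TT M g s f I) :
    AA M g k0 s f I θ (Sum.inl x) = some (Sum.inl (θ x)) := by
  rw [mem_TT] at hx
  obtain ⟨h1, h2, h3, h4⟩ := hx
  have hs : ¬ ∃ l', s l' = x := fun ⟨l', h⟩ => h2 l' h
  have hf : ¬ ∃ l', l' ∈ sinks g ∧ f l' = x := fun ⟨l', h5, h6⟩ => h3 l' h5 h6
  simp only [AA]
  rw [if_neg h1, dif_neg hs, dif_neg hf, if_neg h4]

/-- the five kinds of vertices -/
theorem kinds (M : ℕ) (g : GR E K L) (s : Fin M → E) (f : L → E) (I : Finset E) (x : E) :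
    x ∈ VV g ∨ (∃ l, s l = x) ∨ (∃ l ∈ sinks g, f l = x) ∨ x ∈ I ∨ x ∈ TT M g s f I := by
  by_cases h1 : x ∈ VV g
  · exact Or.inl h1
  by_cases h2 : ∃ l, s l = x
  · exact Or.inr (Or.inl h2)
  by_cases h3 : ∃ l ∈ sinks g, f l = x
  · exact Or.inr (Or.inr (Or.inl h3))
  by_cases h4 : x ∈ I
  · exact Or.inr (Or.inr (Or.inr (Or.inl h4)))
  · refine Or.inr (Or.inr (Or.inr (Or.inr (mem_TT.2 ⟨h1, fun l h => h2 ⟨l, h⟩, ?_, h4⟩))))
    exact fun l hl h => h3 ⟨l, hl, h⟩

theorem theta_fix (hd : Dat M q g s f I θ) {x : E} (hx : x ∉ TT M g s f I) : θ x = x := by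
  rcases kinds M g s f I x with h | ⟨l, rfl⟩ | ⟨l, hl, rfl⟩ | h | h
  · exact hd.th_V x h
  · exact hd.th_s l
  · exact hd.th_f l hl
  · exact hd.th_I x h
  · exact absurd h hx

theorem theta_mem (hd : Dat M q g s f I θ) {x : E} (hx : x ∈ TT M g s f I) :
    θ x ∈ TT M g s f I := by
  by_contra h
  have h1 := theta_fix hd h
  have h2 : θ x = x := θ.injective h1
  rw [h2] at h
  exact h hx

theorem M_pos (hd : Dat M q g s f I θ) : 0 < M := by
  have := hd.hM
  omega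

/-- the last index -/
def lastI (hd : Dat M q g s f I θ) : Fin M := ⟨M - 1, by have := M_pos hd; omega⟩

theorem lastI_val (hd : Dat M q g s f I θ) : (lastI hd).val + 1 = M := by
  have := M_pos hd
  unfold lastI
  simp only
  omega

theorem last_or (hd : Dat M q g s f I θ) (l : Fin M) : l.val + 1 < M ∨ l = lastI hd := by
  have := lastI_val hd
  have := l.isLt
  by_cases h : l.val + 1 < M
  · exact Or.inl h
  · exact Or.inr (Fin.ext (by omega))

end dat

end Pool.RookLC.Lin
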