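import Pool.Agent.Work.MP_6f78fb_rk_helper49.Fin
import Pool.Agent.Work.MP_6f78fb_lin.B_CANCEL
import Pool.Agent.Work.MP_6f78fb_lin.B_RETR
import Pool.Agent.Work.MP_6f78fb_lin.B_INJ0
import Pool.Agent.Work.MP_6f78fb_lin.B_SMALL
import Pool.Agent.Work.MP_6f78fb_lin.B_CC
import Pool.Agent.Work.MP_6f78fb_lin.B_TJ
import Pool.Agent.Work.MP_6f78fb_lin.B_FLIPA
import Pool.Agent.Work.MP_6f78fb_lin.B_FLIPB
import Pool.Agent.Work.MP_6f78fb_lin.B_CLSA
import Pool.Agent.Work.MP_6f78fb_lin.B_CLS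
import Pool.Agent.Work.MP_6f78fb_lin.B_CHO
import Pool.Agent.Work.MP_6f78fb_lin.B_PIA
import Pool.Agent.Work.MP_6f78fb_lin.B_CDA
import Pool.Agent.Work.MP_6f78fb_lin.B_GDA
import Pool.Agent.Work.MP_6f78fb_lin.B_ENA
import Pool.Agent.Work.MP_6f78fb_lin.B_RIG
import Pool.Agent.Work.MP_6f78fb_lin.B_CORE
import Pool.Agent.Work.MP_6f78fb_lin.B_TRA1
import Pool.Agent.Work.MP_6f78fb_lin.B_TRA2
import Pool.Agent.Work.MP_6f78fb_lin.B_TRA3
import Pool.Agent.Work.MP_6f78fb_lin.B_PONE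
import Pool.Agent.Work.MP_6f78fb_lin.B_ENC
import Pool.Agent.Work.MP_6f78fb_lin.B_DOM
import Pool.Agent.Work.MP_6f78fb_lin.B_FINA

/-!
# The theorem
-/

open Classical

noncomputable section

namespace Pool.RookLC.Lin

open Pool.RookLC

theorem fin_core : Stmt_CORE :=
  stmt_CORE (stmt_CLS stmt_CLSA) (stmt_CHO stmt_SPLIT) stmt_PIA stmt_CDA stmt_GDA stmt_ENA stmt_RIG

theorem fin_enc : Stmt_ENC :=
  stmt_ENC fin_core stmt_TRA1 stmt_TRA2 stmt_TRA3 (stmt_PONE stmt_TRA2)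

theorem fin_inj0 : Stmt_INJ0 := stmt_INJ0 All.rg

theorem fina : Stmt_FINA :=
  stmt_FINA stmt_CANCEL stmt_RETR fin_inj0 (stmt_SMALL fin_inj0) stmt_CC stmt_TJ stmt_FLIPA
    stmt_FLIPB (stmt_DOM fin_enc stmt_FLIPA)

theorem lin_surj {n m r i : ℕ} (hi : 1 ≤ i) (hin : i < n) (him : i < m)
    (h : (i + r ≤ n ∧ i + r ≤ m) ∨ 6 * r ≤ i + 3) : Surj n m r i := by
  rcases le_total n m with hnm | hnm
  · exact fina n m r i hnm hi hin (by omega)
  · exact All.trs n m r i (fina m n r i hnm hi him (by omega))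

theorem lin_logconc {n m r : ℕ} (hr : 1 ≤ r) (hn : 7 * r ≤ n + 4) (hm : 7 * r ≤ m + 4) :
    LogConc n m r := by
  intro N hN i hi hiN
  have h1 : N ≤ n := by
    by_contra h'
    exact hN.1 (helper49.V_bot All.ths (by omega) (by omega))
  have h2 : N ≤ m := by
    by_contra h'
    exact hN.1 (All.V_bot_cols (by omega))
  exact lin_surj (by omega) (by omega) (by omega) (by omega)

end Pool.RookLC.Lin
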