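import Pool.Agent.Work.MP_6f78fb_lin.Defs

/-!
# MP_6f78fb_co, linear range: statements of the blocks (proofs in BLUEPRINT.md)
-/

open scoped BigOperators TensorProduct
open Classical

noncomputable section

namespace Pool.RookLC.Lin

open Pool.RookLC

/-! ## A. Representations of finite groups -/

/-- CANCEL: cancellation. -/
def Stmt_CANCEL : Prop := ∀ (Γ Q P V K : Type) [Group Γ] [Fintype Γ]
  [AddCommGroup Q] [Module ℂ Q] [FiniteDimensional ℂ Q]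
  [AddCommGroup P] [Module ℂ P] [FiniteDimensional ℂ P]
  [AddCommGroup V] [Module ℂ V] [FiniteDimensional ℂ V]
  [AddCommGroup K] [Module ℂ K] [FiniteDimensional ℂ K]
  (ρQ : Representation ℂ Γ Q) (ρP : Representation ℂ Γ P) (ρV : Representation ℂ Γ V)
  (ρK : Representation ℂ Γ K),
  Emb (ρQ.prod ρP) (ρV.prod ρK) → Emb ρK ρP → Emb ρQ ρV

/-- RETR: an embedding gives a surjection in the other direction. -/
def Stmt_RETR : Prop := ∀ (Γ Q V : Type) [Group Γ] [Fintype Γ]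
  [AddCommGroup Q] [Module ℂ Q] [FiniteDimensional ℂ Q]
  [AddCommGroup V] [Module ℂ V] [FiniteDimensional ℂ V]
  (ρQ : Representation ℂ Γ Q) (ρV : Representation ℂ Γ V), Emb ρQ ρV →
  ∃ f : V →ₗ[ℂ] Q, Function.Surjective f ∧ ∀ g v, f (ρV g v) = ρQ g (f v)

/-! ## B. Kernels -/

/-- INJ0: no relations in degrees `i ≤ min n m - r`. -/
def Stmt_INJ0 : Prop := ∀ (n m r i : ℕ) (φ : Fn n m), i + r ≤ n → i + r ≤ m →
  (∀ α, φ α ≠ 0 → Um i α) → Th n m φ ∈ grI (UZ n m r) → φ = 0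

/-- SMALL: the relations of degree `i` embed in the functions on the placements of size `< r`. -/
def Stmt_SMALL : Prop := ∀ n m r i : ℕ, ∃ b : Fn n m →ₗ[ℂ] Fn n m,
  (∀ g φ, b (rF g φ) = rF g (b φ)) ∧ (∀ φ α, b φ α ≠ 0 → Sm r α) ∧
  ∀ φ, (∀ α, φ α ≠ 0 → Um i α) → Th n m φ ∈ grI (UZ n m r) → b φ = 0 → φ = 0

/-- CC: the map to `V_a ⊗ V_b` is equivariant and surjective. -/
def Stmt_CC : Prop := ∀ n m r a b : ℕ,
  (∀ (g : G n m) (F : Fn2 n m), cc n m r a b (rF2 g F) =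
    TensorProduct.map (actV n m r a g) (actV n m r b g) (cc n m r a b F)) ∧
  ∀ y, ∃ F : Fn2 n m, (∀ ω, F ω ≠ 0 → Um a ω.1 ∧ Um b ω.2) ∧ cc n m r a b F = y

/-- TJ: joint injectivity. -/
def Stmt_TJ : Prop := ∀ (n m r i : ℕ) (b : Fn n m →ₗ[ℂ] Fn n m),
  (∀ φ, (∀ α, φ α ≠ 0 → Um i α) → Th n m φ ∈ grI (UZ n m r) → b φ = 0 → φ = 0) →
  ∀ F : Fn2 n m, (∀ ω, F ω ≠ 0 → Um i ω.1 ∧ Um i ω.2) →
    (∀ β, b (fun α => F (α, β)) = 0) → (∀ α, b (fun β => F (α, β)) = 0) →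
    cc n m r i i F = 0 → F = 0

/-! ## C. Flips -/

/-- FLIPA -/
def Stmt_FLIPA : Prop := ∀ n m : ℕ,
  (∀ (g : G n m) (f : Fn2 n m), Up n m (rF2 g f) = rF2 g (Up n m f)) ∧
  (∀ i, 1 ≤ i → ∀ f : Fn2 n m, (∀ ω, f ω ≠ 0 → Um (i - 1) ω.1 ∧ Um (i + 1) ω.2) →
    ∀ ω, Up n m f ω ≠ 0 → Um i ω.1 ∧ Um i ω.2) ∧
  (∀ (i : ℕ) (g : G n m) (ω : Pr n m), P1 i ω → P1 i (ac2 g ω)) ∧
  (∀ i (g : G n m) (α : Cf n m), Um i α → Um i (actC g α)) ∧
  (∀ r (g : G n m) (α : Cf n m), Sm r α → Sm r (actC g α))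

/-- FLIPB: the main injectivity. -/
def Stmt_FLIPB : Prop := ∀ n m i : ℕ, 1 ≤ i → ∀ f : Fn2 n m,
  (∀ ω, f ω ≠ 0 → Um (i - 1) ω.1 ∧ Um (i + 1) ω.2) →
  (∀ ω, Up n m f ω ≠ 0 → P1 i ω) → f = 0

/-! ## D. Encoding of graphs -/

/-- CLSA: a partial injection is a disjoint union of chains and cycles. -/
def Stmt_CLSA : Prop := ∀ (E : Type) [Fintype E] (g : PF E E), PInj g →
  ∃ ws : List ℕ, (∀ w ∈ ws, 3 ≤ w) ∧ ws.sum ≤ 4 * arcs g ∧
    ∃ t : (Σ j : Fin ws.length, Fin (ws.get j / 2)) → E, Function.Injective t ∧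
      (∀ x, x ∈ touched g ↔ ∃ z, t z = x) ∧
      ∀ z, g (t z) = (bl (ws.get z.1) z.2).map (fun l => t ⟨z.1, l⟩)

/-- CLS: standard partial injections. -/
def Stmt_CLS : Prop := ∀ M, ∃ π, CLSP M π

/-- SPLIT: the part of a graph touching the sources and the sinks, and the rest. -/
def Stmt_SPLIT : Prop := ∀ (E K L : Type) [Fintype E] [Fintype K] [Fintype L] (g : GR E K L),
  PInj g →
  (∀ x y, g (Sum.inl x) = some (Sum.inl y) → (x ∈ VV g ↔ y ∈ VV g)) ∧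
  (∀ k y, g (Sum.inr k) = some (Sum.inl y) → y ∈ VV g) ∧
  (∀ x l, g (Sum.inl x) = some (Sum.inr l) → x ∈ VV g) ∧
  (∀ x, x ∉ VV g → g (Sum.inl x) = (g2 g x).map Sum.inl) ∧
  PInj (g2 g) ∧ (∀ x ∈ touched (g2 g), x ∉ VV g) ∧
  arcs (g2 g) + arcsV g (VV g) = arcs g ∧
  (VV g).card ≤ arcsV g (VV g) ∧
  (sinks g).card ≤ arcsV g (VV g) ∧
  (∀ x ∈ VV g, g (Sum.inl x) ≠ none ∨ ∃ y, g y = some (Sum.inl x))

/-- CHO: the choices can be made. -/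
def Stmt_CHO : Prop := ∀ (E K L : Type) [Fintype E] [Fintype K] [Fintype L] (M q : ℕ)
  (π : Multiset ℕ → PF (Fin M) (Fin M)) (g : GR E K L) (ε : Bool), CLSP M π → 1 ≤ q →
  M = 2 * q + 1 → PInj g → arcs g ≤ q → 6 * q + 3 ≤ Fintype.card E →
  ∃ μ s f I θ, Dat M q g s f I θ ∧ (∀ l, g2 g (s l) = (π μ l).map s) ∧ (∀ w ∈ μ, 3 ≤ w) ∧
    θ.cycleType = μ + (if ε then {2} else 0)

/-- PIA: the encoding graph is a partial injection. -/
def Stmt_PIA : Prop := ∀ (E K L : Type) [Fintype E] [Fintype K] [Fintype L] (M q : ℕ)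
  (g : GR E K L) (s : Fin M → E) (f : L → E) (I : Finset E) (θ : Equiv.Perm E) (k0 : K),
  Dat M q g s f I θ → PInj (AA M g k0 s f I θ)

/-- CDA: its number of arcs. -/
def Stmt_CDA : Prop := ∀ (E K L : Type) [Fintype E] [Fintype K] [Fintype L] (M q : ℕ)
  (g : GR E K L) (s : Fin M → E) (f : L → E) (I : Finset E) (θ : Equiv.Perm E) (k0 : K),
  Dat M q g s f I θ → arcs (AA M g k0 s f I θ) = Fintype.card E

/-- MXT: the maximal closed set. -/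
def Stmt_MXT : Prop := ∀ (E K L : Type) [Fintype E] [Fintype K] [Fintype L] (M q : ℕ)
  (g : GR E K L) (s : Fin M → E) (f : L → E) (I : Finset E) (θ : Equiv.Perm E) (k0 : K),
  Dat M q g s f I θ → ∀ T', Clo (AA M g k0 s f I θ) T' → T' ⊆ TT M g s f I

/-- SMR: few vertices are reachable from the sources different from `k0`. -/
def Stmt_SMR : Prop := ∀ (E K L : Type) [Fintype E] [Fintype K] [Fintype L] (M q : ℕ)
  (g : GR E K L) (s : Fin M → E) (f : L → E) (I : Finset E) (θ : Equiv.Perm E) (k0 : K),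
  Dat M q g s f I θ → ∀ k, k ≠ k0 →
    (Finset.univ.filter fun x => Rch (AA M g k0 s f I θ) k x).card < M

/-- GDA: the encoding graph is good. -/
def Stmt_GDA : Prop := ∀ (E K L : Type) [Fintype E] [Fintype K] [Fintype L] (M q : ℕ)
  (g : GR E K L) (s : Fin M → E) (f : L → E) (I : Finset E) (θ : Equiv.Perm E) (k0 : K),
  Dat M q g s f I θ → Good (AA M g k0 s f I θ)

/-- ENA: the encoding graph encodes. -/
def Stmt_ENA : Prop := ∀ (E K L : Type) [Fintype E] [Fintype K] [Fintype L] (M q : ℕ)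
  (π : Multiset ℕ → PF (Fin M) (Fin M)) (ε : Bool) (μ : Multiset ℕ)
  (g : GR E K L) (s : Fin M → E) (f : L → E) (I : Finset E) (θ : Equiv.Perm E) (k0 : K),
  Dat M q g s f I θ → (∀ l, g2 g (s l) = (π μ l).map s) → (∀ w ∈ μ, 3 ≤ w) →
  θ.cycleType = μ + (if ε then {2} else 0) →
  ∃ V F T I', Enc M π g (AA M g k0 s f I θ) ε μ k0 s V F T I' θ

/-- RIG: rigidity. -/
def Stmt_RIG : Prop := ∀ (E K L : Type) [Fintype E] [Fintype K] [Fintype L] (M : ℕ)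
  (π : Multiset ℕ → PF (Fin M) (Fin M)) (g A g' A' : GR E K L) (ε ε' : Bool) (μ μ' : Multiset ℕ)
  (k0 k0' : K) (s s' : Fin M → E) (V F T I V' F' T' I' : Finset E) (θ θ' : Equiv.Perm E)
  (σ : Equiv.Perm E) (κ : Equiv.Perm K) (τ : Equiv.Perm L), 1 ≤ M →
  Enc M π g A ε μ k0 s V F T I θ → Enc M π g' A' ε' μ' k0' s' V' F' T' I' θ' →
  actG σ κ τ A = A' → actG σ κ τ g = g' ∧ ε = ε'

/-- CORE: the rigid encoding of graphs. -/
def Stmt_CORE : Prop := ∀ (E K L : Type) [Fintype E] [Fintype K] [Fintype L] [Nonempty K] (q : ℕ),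
  1 ≤ q → 6 * q + 3 ≤ Fintype.card E → ∃ P : GR E K L → Bool → GR E K L,
  (∀ g ε, PInj g → arcs g ≤ q →
    PInj (P g ε) ∧ arcs (P g ε) = Fintype.card E ∧ Good (P g ε)) ∧
  ∀ σ κ τ g ε g' ε', PInj g → arcs g ≤ q → PInj g' → arcs g' ≤ q →
    actG σ κ τ (P g ε) = P g' ε' → actG σ κ τ g = g' ∧ ε = ε'

/-! ## E. From graphs to placements -/

/-- TRA1: every placement is standard for suitable bijections. -/
def Stmt_TRA1 : Prop := ∀ (n m i : ℕ) (B : Cf n m), Um i B →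
  ∃ (ψ : Fin n ≃ Fin i ⊕ Fin (n - i)) (χ : Fin m ≃ Fin i ⊕ Fin (m - i)),
    toCf ψ χ (stdG (Fin i) (Fin (n - i)) (Fin (m - i))) = B

/-- TRA2: graphs and placements. -/
def Stmt_TRA2 : Prop := ∀ (n m : ℕ) (E K L : Type) [Fintype E] [Fintype K] [Fintype L]
  (ψ : Fin n ≃ E ⊕ K) (χ : Fin m ≃ E ⊕ L),
  (∀ A : GR E K L, (Valid (toCf ψ χ A) ↔ PInj A) ∧ tt (toCf ψ χ A) = 0 ∧
    dd (toCf ψ χ A) = arcs A) ∧
  (∀ A A' : GR E K L, toCf ψ χ A = toCf ψ χ A' → A = A') ∧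
  ∀ α : Cf n m, tt α = 0 → ∃ A : GR E K L, toCf ψ χ A = α

/-- TRA3: the group. -/
def Stmt_TRA3 : Prop := ∀ (n m : ℕ) (E K L : Type) [Fintype E] [Fintype K] [Fintype L]
  (ψ ψ' : Fin n ≃ E ⊕ K) (χ χ' : Fin m ≃ E ⊕ L) (h : G n m),
  actC h (toCf ψ χ (stdG E K L)) = toCf ψ' χ' (stdG E K L) →
  ∃ σ κ τ, ∀ A : GR E K L, actC h (toCf ψ χ A) = toCf ψ' χ' (actG σ κ τ A)

/-- PONE: the pairs of the encoding lie in `P1`. -/
def Stmt_PONE : Prop := ∀ (n m i : ℕ) (K L : Type) [Fintype K] [Fintype L]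
  (ψ : Fin n ≃ Fin i ⊕ K) (χ : Fin m ≃ Fin i ⊕ L) (A : GR (Fin i) K L),
  PInj A → arcs A = i → Good A → P1 i (toCf ψ χ A, toCf ψ χ (stdG (Fin i) K L))

/-- ENC: the rigid encoding of pairs. -/
def Stmt_ENC : Prop := ∀ n m r i : ℕ, 2 ≤ r → n ≤ m → i < n → 6 * r ≤ i + 3 →
  ∃ p : Cf n m → Cf n m → Bool → Cf n m,
    (∀ α β ε, Sm r α → Um i β → P1 i (p α β ε, β)) ∧
    ∀ (h : G n m) α β ε α' β' ε', Sm r α → Um i β → Sm r α' → Um i β' →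
      actC h β = β' → actC h (p α β ε) = p α' β' ε' → actC h α = α' ∧ ε = ε'

/-- DOM: two copies of the functions on the pairs (small, size `i`) embed in the functions on `P1`. -/
def Stmt_DOM : Prop := ∀ n m r i : ℕ, 2 ≤ r → n ≤ m → i < n → 6 * r ≤ i + 3 →
  ∃ J : (Fn2 n m × Fn2 n m) →ₗ[ℂ] Fn2 n m,
    (∀ g x, J (rF2 g x.1, rF2 g x.2) = rF2 g (J x)) ∧ (∀ x ω, J x ω ≠ 0 → P1 i ω) ∧
    ∀ x, (∀ ω, x.1 ω ≠ 0 → Sm r ω.1 ∧ Um i ω.2) → (∀ ω, x.2 ω ≠ 0 → Sm r ω.1 ∧ Um i ω.2) →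
      J x = 0 → x = 0

/-! ## F. Final -/

/-- FINA: the surjections, `n ≤ m`. -/
def Stmt_FINA : Prop := ∀ n m r i : ℕ, n ≤ m → 1 ≤ i → i < n → (i + r ≤ n ∨ 6 * r ≤ i + 3) →
  Surj n m r i

end Pool.RookLC.Lin
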